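import Pool.Agent.Lib.MP_f10cd3_gt.R.Atlas
import Pool.Agent.Lib.MP_f10cd3_gt.S.Core

/-! Rows C3: triangulations in isothermal charts. -/

set_option autoImplicit false

namespace F10R


open MPf10cd3 F10G F10S
open scoped ContDiff

section C3a

private theorem C3a_pos {V : Type} [Fintype V] [DecidableEq V] {D : Finset (V × V × V)} {M : Type}
    [MetricSpace M] {μ : ℝ} {A : Set (RC M)} {τ : Triang D M μ} {ch : V × V × V → RC M}
    {s : V × V × V → ℂ → ℂ} (h : RTri A τ ch s) {t : V × V × V} (ht : t ∈ D) {z : ℂ}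
    (hz : z ∈ stdT) :
    (0 < 1 - z.re - z.im → 0 < τ.lam ((ch t).φ (s t z)) t.1) ∧
      (0 < z.re → 0 < τ.lam ((ch t).φ (s t z)) t.2.1) ∧
      (0 < z.im → 0 < τ.lam ((ch t).φ (s t z)) t.2.2) := by
  have h1 : 0 ≤ z.re := hz.1
  have h2 : 0 ≤ z.im := hz.2.1
  have h3 : z.re + z.im ≤ 1 := hz.2.2
  refine ⟨fun h0 => ?_, fun h0 => ?_, fun h0 => ?_⟩
  all_goals
    rw [h.lam t ht z hz]
    simp only [if_true]
    split_ifs <;> linarith

/-- Row C3a. the point with barycentric coordinates `1/3` -/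
theorem tri_in_ball {V : Type} [Fintype V] [DecidableEq V] {D : Finset (V × V × V)} {M : Type}
    [MetricSpace M] {μ : ℝ} {A : Set (RC M)} {τ : Triang D M μ} {ch : V × V × V → RC M}
    {s : V × V × V → ℂ → ℂ} (h : RTri A τ ch s) {t : V × V × V} (ht : t ∈ D) :
    ∃ y : M, ∀ z ∈ stdT, dist y ((ch t).φ (s t z)) < μ := by
  have hz0 : (⟨1 / 3, 1 / 3⟩ : ℂ) ∈ stdT := ⟨by norm_num, by norm_num, by norm_num⟩
  refine ⟨(ch t).φ (s t ⟨1 / 3, 1 / 3⟩), fun z hz => ?_⟩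
  obtain ⟨p1, p2, p3⟩ := C3a_pos h ht hz0
  obtain ⟨q1, q2, q3⟩ := C3a_pos h ht hz
  have e1 := p1 (by norm_num)
  have e2 := p2 (by norm_num)
  have e3 := p3 (by norm_num)
  rcases lt_or_ge 0 z.re with hre | hre
  · exact τ.mesh _ _ _ e2 (q2 hre)
  rcases lt_or_ge 0 z.im with him | him
  · exact τ.mesh _ _ _ e3 (q3 him)
  · exact τ.mesh _ _ _ e1 (q1 (by linarith))

end C3a

section C3b

open scoped ContDiff Manifold

private theorem C3b_stdT_compact : IsCompact stdT := by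
  have h1 : IsClosed stdT := by
    have : stdT = {z : ℂ | 0 ≤ z.re} ∩ ({z : ℂ | 0 ≤ z.im} ∩ {z : ℂ | z.re + z.im ≤ 1}) := by
      ext z; simp [stdT]
    rw [this]
    exact (isClosed_le continuous_const Complex.continuous_re).inter
      ((isClosed_le continuous_const Complex.continuous_im).inter
        (isClosed_le (Complex.continuous_re.add Complex.continuous_im) continuous_const))
  refine (isCompact_closedBall (0 : ℂ) 2).of_isClosed_subset h1 ?_
  intro z hz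
  obtain ⟨h1, h2, h3⟩ := hz
  rw [mem_closedBall_zero_iff]
  refine (Complex.norm_le_abs_re_add_abs_im z).trans ?_
  rw [abs_of_nonneg h1, abs_of_nonneg h2]
  linarith

/-- Row C3b. -/
theorem tri_push {Y : Type} [MetricSpace Y] {κ : ℝ} {c : RC Y} {c' : PC Y} (hc : IsRC κ c)
    (hc' : IsPC κ c') (h : Comp c c') {s : ℂ → ℂ} (hs : ContDiff ℝ ∞ s)
    (hm : ∀ z ∈ stdT, s z ∈ c.U) (hj : ∀ z ∈ stdT, 0 < jac s z)
    (hsub : ∀ z ∈ stdT, c.φ (s z) ∈ c'.φ '' c'.U) : ∃ s' : ℂ → ℂ, ContDiff ℝ 5 s' ∧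
      ∀ z ∈ stdT, s' z ∈ c'.U ∧ c'.φ (s' z) = c.φ (s z) ∧ 0 < jac s' z := by
  classical
  let O : Set ℂ := s ⁻¹' (c.U ∩ c.φ ⁻¹' (c'.φ '' c'.U))
  have hO : IsOpen O := (hc.cont.isOpen_inter_preimage hc.isOpen
    (hc'.opn c'.U subset_rfl hc'.isOpen)).preimage hs.continuous
  have hTO : stdT ⊆ O := fun z hz => ⟨hm z hz, hsub z hz⟩
  have hex : ∀ z : ℂ, ∃ w : ℂ, z ∈ O → w ∈ c'.U ∧ c'.φ w = c.φ (s z) := by
    intro z
    by_cases hz : z ∈ O
    · obtain ⟨w, hw, hw'⟩ := hz.2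
      exact ⟨w, fun _ => ⟨hw, hw'⟩⟩
    · exact ⟨0, fun h' => absurd h' hz⟩
  choose s1 hs1 using hex
  have key : ∀ z ∈ O, ContDiffAt ℝ 5 s1 z ∧ (0 < jac s z → 0 < jac s1 z) := by
    intro z hz
    obtain ⟨hw, hw'⟩ := hs1 z hz
    obtain ⟨T, hT1, hT2, hT3, hT4⟩ := h (s z) hz.1 (s1 z) hw hw'.symm
    have e1 : ∀ᶠ x in nhds z, T (s x) = s1 x := by
      have e2 := hs.continuous.continuousAt.eventually hT4
      filter_upwards [e2, hO.mem_nhds hz] with x hx hx'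
      obtain ⟨hx1, hx2⟩ := hs1 x hx'
      exact hc'.inj hx.1 hx1 (by rw [hx.2, hx2])
    have hs5 : ContDiffAt ℝ 5 s z := hs.contDiffAt.of_le (WithTop.coe_le_coe.mpr le_top)
    have e3 : ContDiffAt ℝ 5 (fun x => T (s x)) z := hT2.comp z hs5
    have e1' : (fun x => T (s x)) =ᶠ[nhds z] s1 := e1
    refine ⟨e3.congr_of_eventuallyEq e1'.symm, fun hjz => ?_⟩
    have e4 : jac s1 z = jac (fun x => T (s x)) z := by
      unfold jac
      rw [e1'.fderiv_eq]
    rw [e4, jac_comp (hT2.differentiableAt (by norm_num)) (hs5.differentiableAt (by norm_num))]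
    exact mul_pos hT3 hjz
  obtain ⟨t, ht, hTt, htO⟩ := exists_compact_between C3b_stdT_compact hO hTO
  obtain ⟨χ, hχ1, hχ0, _⟩ := exists_contMDiffMap_one_nhds_of_subset_interior 𝓘(ℝ, ℂ) (n := ⊤)
    C3b_stdT_compact.isClosed hTt
  have hχs : ContDiff ℝ ∞ χ := χ.contMDiff.contDiff
  refine ⟨fun z => χ z • s1 z, ?_, ?_⟩
  · rw [contDiff_iff_contDiffAt]
    intro z
    by_cases hz : z ∈ O
    · exact (hχs.contDiffAt.of_le (WithTop.coe_le_coe.mpr le_top)).smul (key z hz).1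
    · have hz' : z ∉ t := fun h' => hz (htO h')
      have e5 : ∀ᶠ x in nhds z, χ x • s1 x = 0 := by
        filter_upwards [ht.isClosed.isOpen_compl.mem_nhds hz'] with x hx
        rw [hχ0 x hx, zero_smul]
      exact contDiffAt_const.congr_of_eventuallyEq e5
  · intro z hz
    have hzO := hTO hz
    have e6 : ∀ᶠ x in nhds z, χ x = 1 := by
      have := Filter.Eventually.filter_mono (nhds_le_nhdsSet hz) hχ1
      exact this
    have e7 : (fun x => χ x • s1 x) =ᶠ[nhds z] s1 := by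
      filter_upwards [e6] with x hx
      rw [hx, one_smul]
    have e8 : χ z • s1 z = s1 z := e7.self_of_nhds
    refine ⟨?_, ?_, ?_⟩
    · show χ z • s1 z ∈ c'.U
      rw [e8]; exact (hs1 z hzO).1
    · show c'.φ (χ z • s1 z) = _
      rw [e8]; exact (hs1 z hzO).2
    · have e9 : jac (fun x => χ x • s1 x) z = jac s1 z := by
        unfold jac
        rw [e7.fderiv_eq]
      rw [e9]
      exact (key z hzO).2 (hj z hz)

end C3b

section C3c

/-- the same triangulation with a larger mesh bound -/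
private def C3c_mono {V : Type} [Fintype V] [DecidableEq V] {D : Finset (V × V × V)} {M : Type}
    [MetricSpace M] {μ' μ : ℝ} (h : μ' ≤ μ) (τ : Triang D M μ') : Triang D M μ where
  lam := τ.lam
  cont := τ.cont
  nonneg := τ.nonneg
  sum := τ.sum
  supp := τ.supp
  surj := τ.surj
  inj := τ.inj
  mesh := fun v y z h1 h2 => lt_of_lt_of_le (τ.mesh v y z h1 h2) h

/-- Lebesgue number -/
private theorem C3c_leb {M : Type} [MetricSpace M] [CompactSpace M] {κ : ℝ} {A : Set (RC M)}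
    (hA : IsRAtlas κ A) : ∃ δ : ℝ, 0 < δ ∧ ∀ y : M, ∃ c ∈ iso κ A,
      Metric.ball y δ ⊆ c.φ '' c.U := by
  obtain ⟨δ, hδ, h⟩ := lebesgue_number_lemma_of_metric (s := (Set.univ : Set M))
    (c := fun c : iso κ A => (c : PC M).φ '' (c : PC M).U) isCompact_univ
    (fun c => c.2.1.opn _ Set.Subset.rfl c.2.1.isOpen)
    (fun y _ => by
      obtain ⟨c, hc, hy⟩ := (iso_atlas hA).2 y
      exact Set.mem_iUnion.2 ⟨⟨c, hc⟩, hy⟩)
  refine ⟨δ, hδ, fun y => ?_⟩
  obtain ⟨c, hc⟩ := h y (Set.mem_univ y)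
  exact ⟨c, c.2, hc⟩

/-- Row C3c. Lebesgue number of the covering by the sets `c.φ '' c.U`, `c ∈ iso κ A`; use
triangulations of mesh at most the Lebesgue number -/
theorem hasTri_iso {M : Type} [MetricSpace M] [CompactSpace M] {κ : ℝ} {A : Set (RC M)}
    (hA : IsRAtlas κ A) {g : ℕ} (h : HasRTri g A) : HasTri g (iso κ A) := by
  classical
  intro μ hμ
  obtain ⟨δ, hδ, hleb⟩ := C3c_leb hA
  obtain ⟨V, i1, i2, D, τ, ch, s, hD, hT⟩ := h (min μ δ) (lt_min hμ hδ)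
  have key : ∀ t : V × V × V, ∃ p : PC M × (ℂ → ℂ), t ∈ D → p.1 ∈ iso κ A ∧ ContDiff ℝ 5 p.2 ∧
      ∀ z ∈ stdT, p.2 z ∈ p.1.U ∧ p.1.φ (p.2 z) = (ch t).φ (s t z) ∧ 0 < jac p.2 z := by
    intro t
    by_cases ht : t ∈ D
    · obtain ⟨y, hy⟩ := tri_in_ball hT ht
      obtain ⟨c', hc', hsub⟩ := hleb y
      obtain ⟨s', h1, h2⟩ := tri_push (hA.rc _ (hT.hch t ht)) hc'.1 (hc'.2 _ (hT.hch t ht))
        (hT.smooth t ht) (hT.mem t ht) (hT.orient t ht) (fun z hz => hsub (by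
          rw [Metric.mem_ball, dist_comm]
          exact lt_of_lt_of_le (hy z hz) (min_le_right _ _)))
      exact ⟨(c', s'), fun _ => ⟨hc', h1, h2⟩⟩
    · exact ⟨(⟨∅, fun z => (ch t).φ z, fun _ => 0⟩, fun _ => 0), fun h => absurd h ht⟩
  choose p hp using key
  refine ⟨V, i1, i2, D, C3c_mono (min_le_left _ _) τ, fun t => (p t).1, fun t => (p t).2, hD, ?_⟩
  refine ⟨fun t ht => (hp t ht).1, fun t ht => (hp t ht).2.1,
    fun t ht z hz => ((hp t ht).2.2 z hz).1, fun t ht z hz v => ?_,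
    fun t ht z hz => ((hp t ht).2.2 z hz).2.2⟩
  have e := ((hp t ht).2.2 z hz).2.1
  show τ.lam ((p t).1.φ ((p t).2 z)) v = _
  rw [e]
  exact hT.lam t ht z hz v

end C3c

/-- Row C4. -/
theorem gh_riem {κ : ℝ} (hκ : 0 < κ) {g g' : ℕ} (hg : g ≠ g') {M M' : Type} [MetricSpace M]
    [CompactSpace M] [Nonempty M] [MetricSpace M'] [CompactSpace M'] [Nonempty M']
    {A : Set (RC M)} {A' : Set (RC M')} (hG : IsGeod M) (hA : IsRAtlas κ A) (hs : HasRTri g A)
    (hG' : IsGeod M') (hA' : IsRAtlas κ A') (hs' : HasRTri g' A') :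
    1 / √κ ≤ 200000 * GromovHausdorff.ghDist M M' :=
  gh_core hκ hg hG (iso_atlas hA).1 (hasTri_iso hA hs) hG' (iso_atlas hA').1 (hasTri_iso hA' hs')

end F10R
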