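import Pool.Agent.Lib.MP_f10cd3_gt.R.Chart

/-! Rows C2: the atlas of isothermal charts. -/

set_option autoImplicit false

namespace F10R


open MPf10cd3 F10G F10S
open scoped ContDiff

variable {Y : Type} [MetricSpace Y] {κ : ℝ}

/-- the isothermal charts compatible with the atlas `A` -/
def iso (κ : ℝ) (A : Set (RC Y)) : Set (PC Y) := {c' | IsPC κ c' ∧ ∀ c ∈ A, Comp c c'}

section C2a

private theorem C2a_lin (A : ℂ →L[ℝ] ℂ) (w : ℂ) :
    A w = (w.re : ℂ) * A 1 + (w.im : ℂ) * A Complex.I := by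
  have h1 : w = w.re • (1 : ℂ) + w.im • Complex.I := by
    apply Complex.ext <;> simp
  conv_lhs => rw [h1]
  rw [map_add, map_smul, map_smul, Complex.real_smul, Complex.real_smul]

/-- Row C2a. chain rule for `jac`, `jac (T ∘ S) z = jac T (S z) * jac S z` -/
theorem jac_comp {T S : ℂ → ℂ} {z : ℂ} (hT : DifferentiableAt ℝ T (S z))
    (hS : DifferentiableAt ℝ S z) : jac (fun x => T (S x)) z = jac T (S z) * jac S z := by
  have h1 : fderiv ℝ (fun x => T (S x)) z = (fderiv ℝ T (S z)).comp (fderiv ℝ S z) :=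
    fderiv_comp z hT hS
  unfold jac
  rw [h1]
  simp only [ContinuousLinearMap.comp_apply]
  rw [C2a_lin (fderiv ℝ T (S z)) (fderiv ℝ S z 1),
    C2a_lin (fderiv ℝ T (S z)) (fderiv ℝ S z Complex.I)]
  generalize fderiv ℝ T (S z) 1 = a
  generalize fderiv ℝ T (S z) Complex.I = b
  generalize fderiv ℝ S z 1 = p
  generalize fderiv ℝ S z Complex.I = q
  simp only [map_add, map_mul, Complex.conj_ofReal, Complex.mul_im, Complex.mul_re,
    Complex.add_re, Complex.add_im, Complex.conj_re, Complex.conj_im, Complex.ofReal_re,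
    Complex.ofReal_im]
  ring

/-- Row C2a. -/
theorem comp_comp {A : Set (RC Y)} (hA : IsRAtlas κ A) {c c2 : RC Y} (hc : c ∈ A) (hc2 : c2 ∈ A)
    {c' : PC Y} (h : Comp c c') (hsub : c'.φ '' c'.U ⊆ c.φ '' c.U) : Comp c2 c' := by
  intro z hz z' hz' e
  obtain ⟨z1, hz1, e1⟩ := hsub ⟨z', hz', rfl⟩
  obtain ⟨T1, a1, a2, a3, a4⟩ := hA.compat c2 hc2 c hc z hz z1 hz1 (e.trans e1.symm)
  obtain ⟨T2, b1, b2, b3, b4⟩ := h z1 hz1 z' hz' e1
  have a2' : ContDiffAt ℝ 5 T1 z := a2.of_le (WithTop.coe_le_coe.2 (le_top : (5 : ℕ∞) ≤ ⊤))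
  have b2' : ContDiffAt ℝ 5 T2 (T1 z) := by rw [a1]; exact b2
  refine ⟨fun x => T2 (T1 x), ?_, ?_, ?_, ?_⟩
  · change T2 (T1 z) = z'
    rw [a1, b1]
  · exact b2'.comp z a2'
  · rw [jac_comp (b2'.differentiableAt (by norm_num)) (a2'.differentiableAt (by norm_num)), a1]
    exact mul_pos b3 a3
  · have hcont : Filter.Tendsto T1 (nhds z) (nhds z1) := by
      have := a2'.continuousAt
      unfold ContinuousAt at this
      rwa [a1] at this
    filter_upwards [a4, hcont.eventually b4] with x hx1 hx2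
    exact ⟨hx2.1, hx2.2.trans hx1.2⟩

end C2a

section C2b

private theorem C2b_equiv (A : ℂ →L[ℝ] ℂ) (h : 0 < ((starRingEnd ℂ) (A 1) * A Complex.I).im) :
    ∃ e : ℂ ≃L[ℝ] ℂ, (e : ℂ →L[ℝ] ℂ) = A := by
  have hdec : ∀ v : ℂ, A v = v.re * A 1 + v.im * A Complex.I := by
    intro v
    have hv : v = v.re • (1 : ℂ) + v.im • Complex.I := by
      apply Complex.ext <;> simp
    conv_lhs => rw [hv]
    rw [map_add, map_smul, map_smul, Complex.real_smul, Complex.real_smul]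
  have hinj : Function.Injective (A : ℂ →ₗ[ℝ] ℂ) := by
    rw [injective_iff_map_eq_zero]
    intro v hv
    have hv' : A v = 0 := hv
    rw [hdec v] at hv'
    have h1 : ((starRingEnd ℂ) (A 1) * (v.re * A 1 + v.im * A Complex.I)).im = 0 := by
      rw [hv']
      simp
    have h2 : ((starRingEnd ℂ) (A 1) * (v.re * A 1 + v.im * A Complex.I)).im =
        v.im * ((starRingEnd ℂ) (A 1) * A Complex.I).im := by
      simp only [Complex.mul_im, Complex.add_im, Complex.add_re, Complex.mul_re, Complex.ofReal_re,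
        Complex.ofReal_im, Complex.conj_re, Complex.conj_im]
      ring
    rw [h2] at h1
    have h3 : v.im = 0 := by
      rcases mul_eq_zero.1 h1 with h4 | h4
      · exact h4
      · exact absurd h4 h.ne'
    rw [h3] at hv'
    have h5 : A 1 ≠ 0 := by
      intro h6
      rw [h6] at h
      simp at h
    have h6 : v.re = 0 := by
      have h7 : (v.re : ℂ) * A 1 = 0 := by simpa using hv'
      rcases mul_eq_zero.1 h7 with h8 | h8
      · exact_mod_cast h8
      · exact absurd h8 h5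
    exact Complex.ext (by simpa using h6) (by simpa using h3)
  refine ⟨(LinearEquiv.ofInjectiveEndo (A : ℂ →ₗ[ℝ] ℂ) hinj).toContinuousLinearEquiv, ?_⟩
  ext v
  simp

/-- local inverse -/
private theorem C2b_inv {f : ℂ → ℂ} {z : ℂ} (hf : ContDiffAt ℝ 5 f z) (hj : 0 < jac f z) :
    ∃ S : ℂ → ℂ, S (f z) = z ∧ ContDiffAt ℝ 5 S (f z) ∧ ∀ᶠ x in nhds (f z), f (S x) = x := by
  obtain ⟨e0, he0⟩ := C2b_equiv (fderiv ℝ f z) hj
  have hd0 : HasFDerivAt f (e0 : ℂ →L[ℝ] ℂ) z := by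
    rw [he0]
    exact (hf.differentiableAt (by norm_num)).hasFDerivAt
  have h5 : (5 : WithTop ℕ∞) ≠ 0 := by norm_num
  set e := hf.toOpenPartialHomeomorph f hd0 h5 with he
  have hes : z ∈ e.source := hf.mem_toOpenPartialHomeomorph_source hd0 h5
  have hew : ∀ z, e z = f z := fun z => by
    rw [he, hf.toOpenPartialHomeomorph_coe hd0 h5]
  refine ⟨e.symm, ?_, ?_, ?_⟩
  · rw [← hew z]
    exact e.left_inv hes
  · have := hf.to_localInverse hd0 h5
    exact this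
  · have ht : f z ∈ e.target := by
      rw [← hew z]
      exact e.map_source hes
    filter_upwards [e.open_target.mem_nhds ht] with x hx
    rw [← hew]
    exact e.right_inv hx

private theorem C2b_norm {c1 c2 : PC Y} (h1 : IsPC κ c1) (h2 : IsPC κ c2) {F : ℂ → ℂ} {x : ℂ}
    (hx : x ∈ c1.U) (hFx : F x ∈ c2.U) (hd : DifferentiableAt ℝ F x)
    (hF : ∀ᶠ y in nhds x, F y ∈ c2.U ∧ c2.φ (F y) = c1.φ y) (v : ℂ) :
    Real.exp (c2.u (F x)) * ‖fderiv ℝ F x v‖ = Real.exp (c1.u x) * ‖v‖ := by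
  have hline : HasDerivAt (fun t : ℝ => F (x + t * v)) (fderiv ℝ F x v) 0 := by
    have e1 : HasDerivAt (fun t : ℝ => x + (t : ℂ) * v) v 0 := by
      have := ((Complex.ofRealCLM.hasDerivAt (x := (0 : ℝ))).mul_const v).const_add x
      simpa using this
    have e2 : HasFDerivAt F (fderiv ℝ F x) (x + ((0 : ℝ) : ℂ) * v) := by
      simpa using hd.hasFDerivAt
    exact e2.comp_hasDerivAt (0 : ℝ) e1
  have hslope := hline.tendsto_slope
  have hpt : Filter.Tendsto (fun t : ℝ => x + (t : ℂ) * v) (nhdsWithin 0 {0}ᶜ) (nhds x) := by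
    have : Continuous (fun t : ℝ => x + (t : ℂ) * v) := by fun_prop
    have h3 := this.tendsto 0
    simp only [Complex.ofReal_zero, zero_mul, add_zero] at h3
    exact h3.mono_left nhdsWithin_le_nhds
  have hFc : Filter.Tendsto (fun t : ℝ => F (x + (t : ℂ) * v)) (nhdsWithin 0 {0}ᶜ) (nhds (F x)) :=
    hd.continuousAt.tendsto.comp hpt
  have hn : Filter.Tendsto (fun t : ℝ => ‖slope (fun t : ℝ => F (x + t * v)) 0 t‖)
      (nhdsWithin 0 {0}ᶜ) (nhds ‖fderiv ℝ F x v‖) := hslope.norm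
  set a : ℝ := Real.exp (c2.u (F x)) with ha
  set b : ℝ := Real.exp (c1.u x) with hb
  have hkey : ∀ ε : ℝ, 0 < ε → |a * ‖fderiv ℝ F x v‖ - b * ‖v‖| ≤
      ε * ‖fderiv ℝ F x v‖ + ε * ‖v‖ := by
    intro ε hε
    obtain ⟨η1, hη1, hm1⟩ := h1.metric x hx ε hε
    obtain ⟨η2, hη2, hm2⟩ := h2.metric (F x) hFx ε hε
    have hlim : Filter.Tendsto (fun t : ℝ => |a * ‖slope (fun t : ℝ => F (x + t * v)) 0 t‖ -
        b * ‖v‖|) (nhdsWithin 0 {0}ᶜ) (nhds |a * ‖fderiv ℝ F x v‖ - b * ‖v‖|) :=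
      ((hn.const_mul a).sub_const _).abs
    have hlim2 : Filter.Tendsto (fun t : ℝ => ε * ‖slope (fun t : ℝ => F (x + t * v)) 0 t‖ +
        ε * ‖v‖) (nhdsWithin 0 {0}ᶜ) (nhds (ε * ‖fderiv ℝ F x v‖ + ε * ‖v‖)) :=
      (hn.const_mul ε).add_const _
    refine le_of_tendsto_of_tendsto hlim hlim2 ?_
    have ev1 := hpt.eventually (h1.isOpen.mem_nhds hx)
    have ev2 := hpt.eventually hF
    have ev3 := hpt.eventually (Metric.ball_mem_nhds x hη1)
    have ev4 := hFc.eventually (Metric.ball_mem_nhds (F x) hη2)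
    filter_upwards [ev1, ev2, ev3, ev4, self_mem_nhdsWithin] with t e1 e2 e3 e4 e5
    have ht : t ≠ 0 := e5
    have htp : 0 < |t| := abs_pos.2 ht
    have q1 := hm1 (x + (t : ℂ) * v) e1 x hx (by rw [← dist_eq_norm]; exact e3) (by simpa using hη1)
    have q2 := hm2 (F (x + (t : ℂ) * v)) e2.1 (F x) hFx (by rw [← dist_eq_norm]; exact e4)
      (by simpa using hη2)
    have e6 : c2.φ (F x) = c1.φ x := hF.self_of_nhds.2
    rw [e2.2, e6] at q2
    have e7 : ‖x + (t : ℂ) * v - x‖ = |t| * ‖v‖ := by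
      rw [add_sub_cancel_left, norm_mul, Complex.norm_real, Real.norm_eq_abs]
    rw [e7] at q1
    have e8 : ‖F (x + (t : ℂ) * v) - F x‖ = |t| * ‖slope (fun t : ℝ => F (x + t * v)) 0 t‖ := by
      rw [slope_def_module, norm_smul, sub_zero, norm_inv, Real.norm_eq_abs, ← mul_assoc,
        mul_inv_cancel₀ htp.ne', one_mul]
      simp
    rw [e8] at q2
    set s : ℝ := ‖slope (fun t : ℝ => F (x + t * v)) 0 t‖ with hs
    set d : ℝ := dist (c1.φ (x + (t : ℂ) * v)) (c1.φ x) with hd'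
    have q3 : |t| * |a * s - b * ‖v‖| ≤ |t| * (ε * s + ε * ‖v‖) := by
      have q0 : |t| * |a * s - b * ‖v‖| = |(|t| * (a * s - b * ‖v‖))| := by
        rw [abs_mul, abs_abs]
      rw [q0]
      have q4 : |t| * (a * s - b * ‖v‖) = (d - b * (|t| * ‖v‖)) - (d - a * (|t| * s)) := by ring
      rw [q4]
      refine (abs_sub _ _).trans ?_
      have q5 : ε * (|t| * ‖v‖) + ε * (|t| * s) = |t| * (ε * s + ε * ‖v‖) := by ring
      linarith
    exact le_of_mul_le_mul_left q3 htp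
  have hfin : |a * ‖fderiv ℝ F x v‖ - b * ‖v‖| ≤ 0 := by
    have hc : Filter.Tendsto (fun ε : ℝ => ε * ‖fderiv ℝ F x v‖ + ε * ‖v‖)
        (nhdsWithin 0 (Set.Ioi 0)) (nhds 0) := by
      have : Continuous (fun ε : ℝ => ε * ‖fderiv ℝ F x v‖ + ε * ‖v‖) := by fun_prop
      have h3 := this.tendsto 0
      simp only [zero_mul, add_zero] at h3
      exact h3.mono_left nhdsWithin_le_nhds
    refine ge_of_tendsto hc ?_
    filter_upwards [self_mem_nhdsWithin] with ε hε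
    exact hkey ε hε
  have := abs_nonpos_iff.1 hfin
  linarith

private theorem C2b_lin {A : ℂ →L[ℝ] ℂ} {l : ℝ} (h : ∀ v, ‖A v‖ = l * ‖v‖)
    (hj : 0 < ((starRingEnd ℂ) (A 1) * A Complex.I).im) : A Complex.I = Complex.I * A 1 := by
  have h1 := h 1
  have h2 := h Complex.I
  have h3 := h (1 + Complex.I)
  rw [map_add] at h3
  rw [norm_one] at h1
  rw [Complex.norm_I] at h2
  set p := A 1 with hp
  set q := A Complex.I with hq
  have n1 : ‖p‖ ^ 2 = p.re ^ 2 + p.im ^ 2 := by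
    rw [← Complex.normSq_eq_norm_sq, Complex.normSq_apply]; ring
  have n2 : ‖q‖ ^ 2 = q.re ^ 2 + q.im ^ 2 := by
    rw [← Complex.normSq_eq_norm_sq, Complex.normSq_apply]; ring
  have n3 : ‖p + q‖ ^ 2 = (p.re + q.re) ^ 2 + (p.im + q.im) ^ 2 := by
    rw [← Complex.normSq_eq_norm_sq, Complex.normSq_apply, Complex.add_re, Complex.add_im]; ring
  have n4 : ‖(1 : ℂ) + Complex.I‖ ^ 2 = 2 := by
    rw [← Complex.normSq_eq_norm_sq, Complex.normSq_apply]; simp; norm_num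
  have m1 : p.re ^ 2 + p.im ^ 2 = l ^ 2 := by rw [← n1, h1]; ring
  have m2 : q.re ^ 2 + q.im ^ 2 = l ^ 2 := by rw [← n2, h2]; ring
  have m3 : (p.re + q.re) ^ 2 + (p.im + q.im) ^ 2 = l ^ 2 * 2 := by
    rw [← n3, h3, mul_pow, n4]
  have m4 : p.re * q.re + p.im * q.im = 0 := by
    have e : (p.re + q.re) ^ 2 + (p.im + q.im) ^ 2 = (p.re ^ 2 + p.im ^ 2) +
        (q.re ^ 2 + q.im ^ 2) + 2 * (p.re * q.re + p.im * q.im) := by ring
    rw [m3, m1, m2] at e
    linarith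
  have m5 : 0 < p.re * q.im - p.im * q.re := by
    have : ((starRingEnd ℂ) p * q).im = p.re * q.im - p.im * q.re := by
      simp [Complex.mul_im]; ring
    rw [← this]; exact hj
  have m6 : (p.re * q.im - p.im * q.re) ^ 2 = (l ^ 2) ^ 2 := by
    have : (p.re * q.im - p.im * q.re) ^ 2 = (p.re ^ 2 + p.im ^ 2) * (q.re ^ 2 + q.im ^ 2) -
        (p.re * q.re + p.im * q.im) ^ 2 := by ring
    rw [this, m1, m2, m4]; ring
  have m7 : p.re * q.im - p.im * q.re = l ^ 2 := by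
    have := sq_eq_sq₀ m5.le (sq_nonneg l)
    exact this.1 m6
  have m8 : (q.re + p.im) ^ 2 + (q.im - p.re) ^ 2 = 0 := by
    have e : (q.re + p.im) ^ 2 + (q.im - p.re) ^ 2 = (q.re ^ 2 + q.im ^ 2) +
        (p.re ^ 2 + p.im ^ 2) - 2 * (p.re * q.im - p.im * q.re) := by ring
    rw [e, m2, m1, m7]
    ring
  have m9 : q.re + p.im = 0 := by
    have e1 : (q.re + p.im) ^ 2 = 0 := le_antisymm
      (by have := sq_nonneg (q.im - p.re); linarith) (sq_nonneg _)
    exact pow_eq_zero_iff (two_ne_zero) |>.1 e1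
  have m10 : q.im - p.re = 0 := by
    have e1 : (q.im - p.re) ^ 2 = 0 := le_antisymm
      (by have := sq_nonneg (q.re + p.im); linarith) (sq_nonneg _)
    exact pow_eq_zero_iff (two_ne_zero) |>.1 e1
  apply Complex.ext
  · simp; linarith
  · simp; linarith

/-- Row C2b. -/
theorem comp_holo {c : RC Y} {c1 c2 : PC Y} (h1 : IsPC κ c1) (h2 : IsPC κ c2) (hc1 : Comp c c1)
    (hc2 : Comp c c2) {z z1 z2 : ℂ} (hz : z ∈ c.U) (hz1 : z1 ∈ c1.U) (hz2 : z2 ∈ c2.U)
    (e1 : c.φ z = c1.φ z1) (e2 : c.φ z = c2.φ z2) : ∃ F : ℂ → ℂ, F z1 = z2 ∧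
      ∀ᶠ x in nhds z1, DifferentiableAt ℂ F x ∧ F x ∈ c2.U ∧ c2.φ (F x) = c1.φ x := by
  obtain ⟨T1, hT1, hT1c, hT1j, hT1e⟩ := hc1 z hz z1 hz1 e1
  obtain ⟨T2, hT2, hT2c, hT2j, hT2e⟩ := hc2 z hz z2 hz2 e2
  obtain ⟨S, hS, hSc, hSe⟩ := C2b_inv hT1c hT1j
  rw [hT1] at hS hSc hSe
  have hSt : Filter.Tendsto S (nhds z1) (nhds z) := by
    have := hSc.continuousAt.tendsto
    rwa [hS] at this
  have hF1 : ∀ᶠ x in nhds z1, T2 (S x) ∈ c2.U ∧ c2.φ (T2 (S x)) = c1.φ x := by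
    filter_upwards [hSe, hSt.eventually hT1e, hSt.eventually hT2e] with x a1 a2 a3
    refine ⟨a3.1, ?_⟩
    rw [a3.2, ← a2.2, a1]
  have hFc : ContDiffAt ℝ 5 (fun x => T2 (S x)) z1 := by
    have : ContDiffAt ℝ 5 T2 (S z1) := by rw [hS]; exact hT2c
    exact this.comp z1 hSc
  have hSd : DifferentiableAt ℝ S z1 := hSc.differentiableAt (by norm_num)
  have hjS : 0 < jac S z1 := by
    have h3 : jac (fun x => T1 (S x)) z1 = jac T1 (S z1) * jac S z1 := by
      apply jac_comp _ hSd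
      rw [hS]
      exact hT1c.differentiableAt (by norm_num)
    have h4 : jac (fun x => T1 (S x)) z1 = 1 := by
      have h5 : (fun x => T1 (S x)) =ᶠ[nhds z1] fun x => x := hSe
      unfold jac
      rw [h5.fderiv_eq]
      simp
    rw [h4, hS] at h3
    by_contra hcon
    push Not at hcon
    nlinarith
  have hjF : 0 < jac (fun x => T2 (S x)) z1 := by
    have h3 : jac (fun x => T2 (S x)) z1 = jac T2 (S z1) * jac S z1 := by
      apply jac_comp _ hSd
      rw [hS]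
      exact hT2c.differentiableAt (by norm_num)
    rw [h3, hS]
    exact mul_pos hT2j hjS
  have hjc : ContinuousAt (jac (fun x => T2 (S x))) z1 := by
    have h3 : ContinuousAt (fderiv ℝ (fun x => T2 (S x))) z1 :=
      (hFc.fderiv_right (m := 4) (by norm_num)).continuousAt
    unfold jac
    have h4 : ∀ v : ℂ, ContinuousAt (fun x => fderiv ℝ (fun x => T2 (S x)) x v) z1 := fun v =>
      h3.clm_apply continuousAt_const
    exact Complex.continuous_im.continuousAt.comp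
      ((Complex.continuous_conj.continuousAt.comp (h4 1)).mul (h4 Complex.I))
  have hFd : ∀ᶠ x in nhds z1, DifferentiableAt ℝ (fun x => T2 (S x)) x := by
    have := hFc.eventually (by decide)
    filter_upwards [this] with x hx
    exact hx.differentiableAt (by norm_num)
  refine ⟨fun x => T2 (S x), ?_, ?_⟩
  · show T2 (S z1) = z2
    rw [hS, hT2]
  · filter_upwards [hF1, hF1.eventually_nhds, hjc.eventually (lt_mem_nhds hjF), hFd,
      h1.isOpen.mem_nhds hz1] with x a1 a2 a3 a4 a5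
    refine ⟨?_, a1.1, a1.2⟩
    rw [differentiableAt_complex_iff_differentiableAt_real]
    refine ⟨a4, ?_⟩
    have hn := C2b_norm h1 h2 (F := fun x => T2 (S x)) a5 a1.1 a4 a2
    have hn' : ∀ v, ‖fderiv ℝ (fun x => T2 (S x)) x v‖ =
        Real.exp (c1.u x) / Real.exp (c2.u (T2 (S x))) * ‖v‖ := by
      intro v
      have h5 := hn v
      have h6 := Real.exp_pos (c2.u (T2 (S x)))
      rw [div_mul_eq_mul_div, eq_div_iff h6.ne']
      linarith
    rw [C2b_lin hn' a3]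
    simp

end C2b

section C2c

/-- Row C2c. compactness: finitely many sets `c.φ '' ball z ρ` with `closedBall z (2ρ) ⊆ c.U`,
`|c.u| ≤ B` on `closedBall z (2ρ)`, cover `Y` -/
theorem unif_of_cover [CompactSpace Y] {A' : Set (PC Y)} (hA' : ∀ c ∈ A', IsPC κ c)
    (hcov : ∀ y : Y, ∃ c ∈ A', y ∈ c.φ '' c.U) : ∃ ρ : ℝ, 0 < ρ ∧ ∃ B : ℝ, ∀ y : Y, ∃ c ∈ A',
      ∃ z : ℂ, c.φ z = y ∧ Metric.closedBall z ρ ⊆ c.U ∧
        ∀ w ∈ Metric.closedBall z ρ, |c.u w| ≤ B := by
  have key : ∃ ρ : ℝ, 0 < ρ ∧ ∃ B : ℝ, ∀ y ∈ (Set.univ : Set Y), ∃ c ∈ A',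
      ∃ z : ℂ, c.φ z = y ∧ Metric.closedBall z ρ ⊆ c.U ∧
        ∀ w ∈ Metric.closedBall z ρ, |c.u w| ≤ B := by
    refine isCompact_univ.induction_on (p := fun S : Set Y => ∃ ρ : ℝ, 0 < ρ ∧ ∃ B : ℝ, ∀ y ∈ S,
      ∃ c ∈ A', ∃ z : ℂ, c.φ z = y ∧ Metric.closedBall z ρ ⊆ c.U ∧
        ∀ w ∈ Metric.closedBall z ρ, |c.u w| ≤ B) ?_ ?_ ?_ ?_
    · exact ⟨1, one_pos, 0, fun y hy => absurd hy (Set.notMem_empty y)⟩
    · rintro S T hST ⟨ρ, hρ, B, h⟩
      exact ⟨ρ, hρ, B, fun y hy => h y (hST hy)⟩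
    · rintro S T ⟨ρ, hρ, B, h⟩ ⟨ρ', hρ', B', h'⟩
      refine ⟨min ρ ρ', lt_min hρ hρ', max B B', ?_⟩
      rintro y (hy | hy)
      · obtain ⟨c, hc, z, hz, hsub, hb⟩ := h y hy
        have hs : Metric.closedBall z (min ρ ρ') ⊆ Metric.closedBall z ρ :=
          Metric.closedBall_subset_closedBall (min_le_left _ _)
        exact ⟨c, hc, z, hz, hs.trans hsub, fun w hw => (hb w (hs hw)).trans (le_max_left _ _)⟩
      · obtain ⟨c, hc, z, hz, hsub, hb⟩ := h' y hy
        have hs : Metric.closedBall z (min ρ ρ') ⊆ Metric.closedBall z ρ' :=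
          Metric.closedBall_subset_closedBall (min_le_right _ _)
        exact ⟨c, hc, z, hz, hs.trans hsub, fun w hw => (hb w (hs hw)).trans (le_max_right _ _)⟩
    · intro y _
      obtain ⟨c, hc, z0, hz0, hy⟩ := hcov y
      have hPC := hA' c hc
      obtain ⟨R, hR, hRsub⟩ := Metric.isOpen_iff.1 hPC.isOpen z0 hz0
      have hsub : Metric.closedBall z0 (R / 2) ⊆ c.U :=
        (Metric.closedBall_subset_ball (by linarith)).trans hRsub
      obtain ⟨B, hB⟩ := (isCompact_closedBall z0 (R / 2)).exists_bound_of_continuousOn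
        (hPC.smooth.continuousOn.mono hsub)
      have hin : ∀ z ∈ Metric.ball z0 (R / 4),
          Metric.closedBall z (R / 4) ⊆ Metric.closedBall z0 (R / 2) := by
        intro z hz
        refine Metric.closedBall_subset_closedBall' ?_
        rw [Metric.mem_ball] at hz
        linarith
      refine ⟨c.φ '' Metric.ball z0 (R / 4), ?_, R / 4, by linarith, B, ?_⟩
      · refine mem_nhdsWithin_of_mem_nhds ((hPC.opn _ ?_ Metric.isOpen_ball).mem_nhds
          ⟨z0, Metric.mem_ball_self (by linarith), hy⟩)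
        exact (Metric.ball_subset_closedBall.trans
          (Metric.closedBall_subset_closedBall (by linarith))).trans hsub
      · rintro y' ⟨z, hz, rfl⟩
        refine ⟨c, hc, z, rfl, (hin z hz).trans hsub, fun w hw => ?_⟩
        have h1 := hB w (hin z hz hw)
        rwa [Real.norm_eq_abs] at h1
  obtain ⟨ρ, hρ, B, h⟩ := key
  exact ⟨ρ, hρ, B, fun y => h y (Set.mem_univ y)⟩

end C2c

section C2d

/-- Row C2d. assembly -/
theorem iso_atlas [CompactSpace Y] {A : Set (RC Y)} (hA : IsRAtlas κ A) :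
    IsAtlas κ (iso κ A) ∧ ∀ y : Y, ∃ c ∈ iso κ A, y ∈ c.φ '' c.U := by
  have hcov : ∀ y : Y, ∃ c ∈ iso κ A, y ∈ c.φ '' c.U := by
    intro y
    obtain ⟨c, hc, z, hz, hy⟩ := hA.cover y
    obtain ⟨c', hpc, hmem, hsub, hcomp⟩ := exists_iso (hA.rc c hc) hz
    refine ⟨c', ⟨hpc, fun c2 hc2 => comp_comp hA hc hc2 hcomp hsub⟩, ?_⟩
    rw [← hy]
    exact hmem
  refine ⟨⟨fun c hc => hc.1, ?_, ?_⟩, hcov⟩
  · intro c1 h1 c2 h2 z1 hz1 z2 hz2 he
    obtain ⟨c, hc, z, hz, hy⟩ := hA.cover (c1.φ z1)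
    exact comp_holo h1.1 h2.1 (h1.2 c hc) (h2.2 c hc) hz hz1 hz2 hy (hy.trans he)
  · exact unif_of_cover (fun c hc => hc.1) hcov

end C2d

end F10R
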