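import Pool.Agent.Lib.MP_f10cd3_gt.R.Wdef

/-! Row W3: Fourier coefficients of a smooth function supported in a ball of radius `1/4`. -/

set_option autoImplicit false

namespace F10R

section W3a

open MeasureTheory
open scoped ContDiff

open Function in
private theorem W3a_aux1 (f : ℂ → ℂ) (B : ℝ) (hf : ContDiff ℝ ∞ f)
    (h0 : ∀ z, 1 / 4 ≤ ‖z‖ → f z = 0) (j : ℕ) (hB : ∀ z, ‖iteratedFDeriv ℝ j f z‖ ≤ B) :
    Integrable (iteratedFDeriv ℝ j f) ∧
      ∫ z : ℂ, ‖iteratedFDeriv ℝ j f z‖ ≤ (volume (Metric.closedBall (0 : ℂ) 1)).toReal * B := by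
  have hts : tsupport f ⊆ Metric.closedBall (0 : ℂ) 1 := by
    apply closure_minimal _ Metric.isClosed_closedBall
    intro z hz
    rw [Function.mem_support] at hz
    rw [mem_closedBall_zero_iff]
    by_contra hcon
    exact hz (h0 z (by linarith))
  have hsup : support (iteratedFDeriv ℝ j f) ⊆ Metric.closedBall (0 : ℂ) 1 :=
    (support_iteratedFDeriv_subset (𝕜 := ℝ) j).trans hts
  have hcs : HasCompactSupport f :=
    HasCompactSupport.of_support_subset_isCompact (isCompact_closedBall (0 : ℂ) 1)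
      (subset_closure.trans hts)
  have hcont : Continuous (iteratedFDeriv ℝ j f) :=
    hf.continuous_iteratedFDeriv (by exact_mod_cast le_top)
  have hint : Integrable (iteratedFDeriv ℝ j f) :=
    hcont.integrable_of_hasCompactSupport (hcs.iteratedFDeriv j)
  refine ⟨hint, ?_⟩
  have hsup2 : support (fun z => ‖iteratedFDeriv ℝ j f z‖) ⊆ Metric.closedBall (0 : ℂ) 1 := by
    intro z hz
    apply hsup
    rw [Function.mem_support] at hz ⊢
    intro h
    exact hz (by simp [h])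
  have h1 : ∫ z : ℂ, ‖iteratedFDeriv ℝ j f z‖ =
      ∫ z in Metric.closedBall (0 : ℂ) 1, ‖iteratedFDeriv ℝ j f z‖ :=
    (setIntegral_eq_integral_of_forall_compl_eq_zero (fun z hz => by
      by_contra hcon
      exact hz (hsup2 hcon))).symm
  rw [h1]
  have h2 : ∫ z in Metric.closedBall (0 : ℂ) 1, ‖iteratedFDeriv ℝ j f z‖ ≤
      ∫ _z in Metric.closedBall (0 : ℂ) 1, B := by
    apply setIntegral_mono
    · exact hint.norm.integrableOn
    · exact integrableOn_const (isCompact_closedBall (0 : ℂ) 1).measure_lt_top.ne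
    · intro z
      exact hB z
  refine h2.trans (le_of_eq ?_)
  rw [setIntegral_const, smul_eq_mul]
  rfl

private theorem W3a_aux2 (f : ℂ → ℂ) (n : ℤ × ℤ) :
    ∫ z : ℂ, f z * ex (-n) z =
      FourierTransform.fourier f ((n.1 : ℂ) + n.2 * Complex.I) := by
  rw [Real.fourier_eq']
  apply integral_congr_ae
  refine Filter.Eventually.of_forall fun z => ?_
  show f z * ex (-n) z = _ • f z
  rw [smul_eq_mul, mul_comm]
  congr 1
  unfold ex
  congr 1
  have hin : (inner ℝ z ((n.1 : ℂ) + n.2 * Complex.I) : ℝ) = n.1 * z.re + n.2 * z.im := by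
    rw [Complex.inner]
    simp
  rw [hin]
  push_cast
  simp
  ring

/-- Row W3a. integration by parts `s + 3` times in the direction `1` or `i` -/
theorem coeff_le (s : ℕ) : ∃ C : ℝ, 0 < C ∧ ∀ (f : ℂ → ℂ) (B : ℝ), ContDiff ℝ ∞ f →
    (∀ z, 1 / 4 ≤ ‖z‖ → f z = 0) → (∀ j ≤ s + 3, ∀ z, ‖iteratedFDeriv ℝ j f z‖ ≤ B) →
      ∀ n : ℤ × ℤ, wt n ^ (s + 3) * ‖∫ z : ℂ, f z * ex (-n) z‖ ≤ C * B := by
  set V : ℝ := (volume (Metric.closedBall (0 : ℂ) 1)).toReal with hV
  have hVpos : 0 ≤ V := ENNReal.toReal_nonneg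
  refine ⟨2 ^ (s + 3) * (V + 2 ^ (s + 3) * (2 ^ (s + 3) * ((s + 4 : ℕ) * V))) + 1, by positivity,
    ?_⟩
  intro f B hf h0 hB n
  have hB0 : 0 ≤ B := (norm_nonneg _).trans (hB 0 (by omega) 0)
  have hj : ∀ j ≤ s + 3, Integrable (iteratedFDeriv ℝ j f) ∧
      ∫ z : ℂ, ‖iteratedFDeriv ℝ j f z‖ ≤ V * B := fun j hj =>
    W3a_aux1 f B hf h0 j (hB j hj)
  rw [W3a_aux2]
  set w : ℂ := (n.1 : ℂ) + n.2 * Complex.I with hw
  have hwt0 : 0 ≤ wt n := by unfold wt; positivity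
  have hwre : w.re = n.1 := by simp [hw]
  have hwim : w.im = n.2 := by simp [hw]
  have hwt : wt n ≤ 1 + 2 * ‖w‖ := by
    unfold wt
    have h1 := Complex.abs_re_le_norm w
    have h2 := Complex.abs_im_le_norm w
    rw [hwre] at h1
    rw [hwim] at h2
    linarith
  have hmain : ∀ k ≤ s + 3, ‖w‖ ^ k * ‖FourierTransform.fourier f w‖ ≤
      2 ^ k * ((k + 1 : ℕ) * (V * B)) := by
    intro k hk
    have h := Real.pow_mul_norm_iteratedFDeriv_fourier_le (K := 0) (N := ((s + 3 : ℕ) : ℕ∞))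
      (f := f) (hf.of_le (by exact_mod_cast le_top)) (fun a b ha hb => by
        have ha0 : a = 0 := by
          have : (a : ℕ∞) ≤ ((0 : ℕ) : ℕ∞) := ha
          have := Nat.cast_le.1 this
          omega
        have hb0 : b ≤ s + 3 := by exact_mod_cast hb
        rw [ha0]
        simpa using (hj b hb0).1.norm) (k := 0) (n := k) (le_refl _) (by exact_mod_cast hk) w
    simp only [norm_iteratedFDeriv_zero, pow_zero, one_mul, Nat.cast_zero, mul_zero, zero_add]
      at h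
    refine h.trans ?_
    apply mul_le_mul_of_nonneg_left _ (by positivity)
    have hsum : ∑ p ∈ Finset.range 1 ×ˢ Finset.range (k + 1),
        ∫ v : ℂ, ‖v‖ ^ p.1 * ‖iteratedFDeriv ℝ p.2 f v‖ ≤
        ∑ p ∈ Finset.range 1 ×ˢ Finset.range (k + 1), V * B := by
      apply Finset.sum_le_sum
      intro p hp
      rw [Finset.mem_product, Finset.mem_range, Finset.mem_range] at hp
      have hp1 : p.1 = 0 := by omega
      rw [hp1]
      simp only [pow_zero, one_mul]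
      exact (hj p.2 (by omega)).2
    refine hsum.trans (le_of_eq ?_)
    rw [Finset.sum_const, Finset.card_product, Finset.card_range, Finset.card_range, nsmul_eq_mul,
      one_mul]
  have h00 := hmain 0 (by omega)
  have h33 := hmain (s + 3) (le_refl _)
  simp only [pow_zero, one_mul, zero_add, Nat.cast_one] at h00
  set F := ‖FourierTransform.fourier f w‖ with hF
  have hF0 : 0 ≤ F := norm_nonneg _
  have hpow : wt n ^ (s + 3) ≤ 2 ^ (s + 3) * (1 + 2 ^ (s + 3) * ‖w‖ ^ (s + 3)) := by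
    have h1 : wt n ≤ 2 * max 1 (2 * ‖w‖) := by
      have h2 := le_max_left 1 (2 * ‖w‖)
      have h3 := le_max_right 1 (2 * ‖w‖)
      linarith
    have h4 : wt n ^ (s + 3) ≤ (2 * max 1 (2 * ‖w‖)) ^ (s + 3) := pow_le_pow_left₀ hwt0 h1 _
    rw [mul_pow] at h4
    refine h4.trans ?_
    apply mul_le_mul_of_nonneg_left _ (by positivity)
    rcases le_total 1 (2 * ‖w‖) with h | h
    · rw [max_eq_right h, mul_pow]
      have : (0 : ℝ) ≤ 1 := zero_le_one
      linarith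
    · rw [max_eq_left h, one_pow]
      have : 0 ≤ 2 ^ (s + 3) * ‖w‖ ^ (s + 3) := by positivity
      linarith
  calc wt n ^ (s + 3) * F ≤ (2 ^ (s + 3) * (1 + 2 ^ (s + 3) * ‖w‖ ^ (s + 3))) * F :=
        mul_le_mul_of_nonneg_right hpow hF0
    _ = 2 ^ (s + 3) * (F + 2 ^ (s + 3) * (‖w‖ ^ (s + 3) * F)) := by ring
    _ ≤ 2 ^ (s + 3) * (V * B + 2 ^ (s + 3) * (2 ^ (s + 3) * ((s + 3 + 1 : ℕ) * (V * B)))) := by
        gcongr
    _ = (2 ^ (s + 3) * (V + 2 ^ (s + 3) * (2 ^ (s + 3) * ((s + 4 : ℕ) * V)))) * B := by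
        push_cast
        ring
    _ ≤ (2 ^ (s + 3) * (V + 2 ^ (s + 3) * (2 ^ (s + 3) * ((s + 4 : ℕ) * V))) + 1) * B := by
        apply mul_le_mul_of_nonneg_right _ hB0
        linarith

end W3a

section W3b

open MeasureTheory
open scoped ContDiff

private theorem W3b_one : Summable fun m : ℤ => (1 + |(m : ℝ)|) ^ (-(3 / 2) : ℝ) := by
  have h := Real.summable_one_div_nat_add_rpow 1 (3 / 2)
  have hnat : Summable fun n : ℕ => (1 + |((n : ℤ) : ℝ)|) ^ (-(3 / 2) : ℝ) := by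
    refine (h.2 (by norm_num)).congr fun n => ?_
    have hn : (0 : ℝ) ≤ n := Nat.cast_nonneg n
    rw [Int.cast_natCast, abs_of_nonneg (by linarith : (0:ℝ) ≤ (n : ℝ) + 1), abs_of_nonneg hn,
      Real.rpow_neg (by linarith), one_div, add_comm]
  refine Summable.of_nat_of_neg hnat ?_
  refine hnat.congr fun n => ?_
  push_cast
  rw [abs_neg]

/-- Row W3b. -/
theorem summable_wt : Summable fun n : ℤ × ℤ => (wt n ^ 3)⁻¹ := by
  have h := W3b_one.mul_of_nonneg W3b_one (fun m => by positivity) (fun m => by positivity)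
  refine Summable.of_nonneg_of_le (fun n => ?_) (fun n => ?_) h
  · have : 0 < wt n := by unfold wt; positivity
    positivity
  · obtain ⟨m, n⟩ := n
    have hm := abs_nonneg (m : ℝ)
    have hn := abs_nonneg (n : ℝ)
    have hw : 0 < wt (m, n) := by unfold wt; positivity
    have h1 : (1 + |(m : ℝ)|) * (1 + |(n : ℝ)|) ≤ wt (m, n) ^ (2 : ℝ) := by
      rw [Real.rpow_two]
      unfold wt
      simp only
      nlinarith
    simp only
    rw [← Real.mul_rpow (by positivity) (by positivity), Real.rpow_neg (by positivity)]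
    refine inv_anti₀ (by positivity) ?_
    have h2 : ((1 + |(m : ℝ)|) * (1 + |(n : ℝ)|)) ^ (3 / 2 : ℝ) ≤ (wt (m, n) ^ (2 : ℝ)) ^ (3 / 2 : ℝ) :=
      Real.rpow_le_rpow (by positivity) h1 (by norm_num)
    rw [← Real.rpow_mul hw.le] at h2
    have h3 : (2 : ℝ) * (3 / 2) = ((3 : ℕ) : ℝ) := by norm_num
    rw [h3, Real.rpow_natCast] at h2
    exact h2

end W3b

section W3c

open MeasureTheory
open scoped ContDiff

/-- the character -/
private noncomputable def W3c_e (m : ℤ) (x : ℝ) : ℂ :=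
  Complex.exp (2 * Real.pi * Complex.I * (m * x))

private theorem W3c_e_cont (m : ℤ) : Continuous (W3c_e m) := by
  unfold W3c_e
  fun_prop

private theorem W3c_e_norm (m : ℤ) (x : ℝ) : ‖W3c_e m x‖ = 1 := by
  unfold W3c_e
  rw [show (2 * Real.pi * Complex.I * (m * x) : ℂ) = ((2 * Real.pi * (m * x) : ℝ) : ℂ) * Complex.I by
    push_cast; ring]
  exact Complex.norm_exp_ofReal_mul_I _

private theorem W3c_one {g : ℝ → ℂ} (hg : Continuous g) (h0 : ∀ x, 1 / 4 ≤ |x| → g x = 0)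
    (hs : Summable fun m : ℤ => ‖∫ x in (-1 / 2 : ℝ)..(1 / 2), g x * W3c_e (-m) x‖)
    {x : ℝ} (hx : |x| < 1 / 2) :
    HasSum (fun m : ℤ => (∫ x in (-1 / 2 : ℝ)..(1 / 2), g x * W3c_e (-m) x) * W3c_e m x)
      (g x) := by
  have : Fact ((0 : ℝ) < 1) := ⟨one_pos⟩
  have hc : Continuous (AddCircle.liftIco (1 : ℝ) (-1 / 2) g) := by
    refine AddCircle.liftIco_continuous ?_ hg.continuousOn
    rw [h0 (-1 / 2) (by rw [abs_of_neg (by norm_num)]; norm_num),
      h0 (-1 / 2 + 1) (by rw [abs_of_pos (by norm_num)]; norm_num)]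
  let F : C(AddCircle (1 : ℝ), ℂ) := ⟨AddCircle.liftIco (1 : ℝ) (-1 / 2) g, hc⟩
  have hco : ∀ m : ℤ, fourierCoeff F m = ∫ x in (-1 / 2 : ℝ)..(1 / 2), g x * W3c_e (-m) x := by
    intro m
    rw [fourierCoeff_eq_intervalIntegral _ _ (-1 / 2)]
    rw [show (1 / 1 : ℝ) = 1 by norm_num, one_smul, show (-1 / 2 + 1 : ℝ) = 1 / 2 by norm_num]
    refine intervalIntegral.integral_congr_Ioo_of_le (by norm_num) fun y hy => ?_
    have h1 : F (y : AddCircle (1 : ℝ)) = g y :=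
      AddCircle.liftIco_coe_apply ⟨hy.1.le, by linarith [hy.2]⟩
    rw [h1, fourier_coe_apply, smul_eq_mul, mul_comm]
    unfold W3c_e
    congr 2
    push_cast
    ring
  have hsum : Summable (fourierCoeff F) := by
    refine Summable.of_norm ?_
    simpa only [hco] using hs
  have := has_pointwise_sum_fourier_series_of_summable hsum (x : AddCircle (1 : ℝ))
  have hx' := abs_lt.1 hx
  have h1 : F (x : AddCircle (1 : ℝ)) = g x :=
    AddCircle.liftIco_coe_apply ⟨by linarith [hx'.1], by linarith [hx'.2]⟩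
  rw [h1] at this
  have e : (fun m : ℤ => fourierCoeff F m • (fourier m (x : AddCircle (1 : ℝ)) : ℂ)) =
      fun m : ℤ => (∫ x in (-1 / 2 : ℝ)..(1 / 2), g x * W3c_e (-m) x) * W3c_e m x := by
    funext m
    rw [hco, fourier_coe_apply, smul_eq_mul]
    unfold W3c_e
    congr 2
    push_cast
    ring
  rw [← e]
  exact this

private theorem W3c_ex (n : ℤ × ℤ) (x y : ℝ) :
    ex n (x + y * Complex.I) = W3c_e n.1 x * W3c_e n.2 y := by
  unfold ex W3c_e
  rw [← Complex.exp_add]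
  congr 1
  simp
  ring

private theorem W3c_ex' (n : ℤ × ℤ) (z : ℂ) : ex n z = W3c_e n.1 z.re * W3c_e n.2 z.im := by
  rw [← W3c_ex, Complex.re_add_im]

private theorem W3c_coef {f : ℂ → ℂ} (hf : Continuous f) (h0 : ∀ z, 1 / 4 ≤ ‖z‖ → f z = 0)
    (n : ℤ × ℤ) : ∫ z : ℂ, f z * ex (-n) z =
      ∫ x in (-1 / 2 : ℝ)..(1 / 2), (∫ y in (-1 / 2 : ℝ)..(1 / 2),
        f (x + y * Complex.I) * W3c_e (-n.2) y) * W3c_e (-n.1) x := by
  have h1 : ∫ z : ℂ, f z * ex (-n) z = ∫ p : ℝ × ℝ, f (p.1 + p.2 * Complex.I) *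
      (W3c_e (-n.1) p.1 * W3c_e (-n.2) p.2) := by
    rw [← (Complex.volume_preserving_equiv_real_prod.symm).integral_comp'
      (fun z : ℂ => f z * ex (-n) z)]
    refine integral_congr_ae (Filter.Eventually.of_forall fun p => ?_)
    have e : Complex.measurableEquivRealProd.symm p = p.1 + p.2 * Complex.I := by
      apply Complex.ext <;> simp
    simp only [e, W3c_ex]
    rfl
  have hc : Continuous fun p : ℝ × ℝ => f (p.1 + p.2 * Complex.I) *
      (W3c_e (-n.1) p.1 * W3c_e (-n.2) p.2) := by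
    refine (hf.comp (by fun_prop)).mul ?_
    exact ((W3c_e_cont _).comp continuous_fst).mul ((W3c_e_cont _).comp continuous_snd)
  have hz : ∀ p : ℝ × ℝ, p ∉ Set.Ioc (-1 / 2 : ℝ) (1 / 2) ×ˢ Set.Ioc (-1 / 2 : ℝ) (1 / 2) →
      f (p.1 + p.2 * Complex.I) * (W3c_e (-n.1) p.1 * W3c_e (-n.2) p.2) = 0 := by
    intro p hp
    rw [h0, zero_mul]
    by_contra hlt
    push Not at hlt
    have hr : |p.1| ≤ ‖(p.1 + p.2 * Complex.I : ℂ)‖ := by
      have := Complex.abs_re_le_norm (p.1 + p.2 * Complex.I : ℂ)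
      simpa using this
    have hi : |p.2| ≤ ‖(p.1 + p.2 * Complex.I : ℂ)‖ := by
      have := Complex.abs_im_le_norm (p.1 + p.2 * Complex.I : ℂ)
      simpa using this
    have a1 := abs_lt.1 (hr.trans_lt hlt)
    have a2 := abs_lt.1 (hi.trans_lt hlt)
    exact hp ⟨⟨by linarith [a1.1], by linarith [a1.2]⟩, ⟨by linarith [a2.1], by linarith [a2.2]⟩⟩
  rw [h1, ← setIntegral_eq_integral_of_forall_compl_eq_zero hz]
  have hI : IntegrableOn (fun p : ℝ × ℝ => f (p.1 + p.2 * Complex.I) *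
      (W3c_e (-n.1) p.1 * W3c_e (-n.2) p.2))
      (Set.Ioc (-1 / 2 : ℝ) (1 / 2) ×ˢ Set.Ioc (-1 / 2 : ℝ) (1 / 2)) := by
    have := (hc.continuousOn (s := Set.Icc (-1 / 2 : ℝ) (1 / 2) ×ˢ
      Set.Icc (-1 / 2 : ℝ) (1 / 2))).integrableOn_compact (μ := volume)
      (isCompact_Icc.prod isCompact_Icc)
    exact this.mono_set (Set.prod_mono Set.Ioc_subset_Icc_self Set.Ioc_subset_Icc_self)
  rw [Measure.volume_eq_prod, setIntegral_prod _ hI,
    intervalIntegral.integral_of_le (by norm_num)]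
  refine integral_congr_ae (Filter.Eventually.of_forall fun x => ?_)
  simp only
  rw [intervalIntegral.integral_of_le (by norm_num), ← integral_mul_const]
  refine integral_congr_ae (Filter.Eventually.of_forall fun y => ?_)
  simp only
  ring

/-- Row W3c. Fourier inversion (for example from `hasSum_mFourier_series_apply_of_summable` or by
two applications of `has_pointwise_sum_fourier_series_of_summable`) -/
theorem four_inv {f : ℂ → ℂ} (hf : ContDiff ℝ ∞ f) (h0 : ∀ z, 1 / 4 ≤ ‖z‖ → f z = 0)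
    (hs : Summable fun n => ‖∫ z : ℂ, f z * ex (-n) z‖) {z : ℂ} (h1 : |z.re| < 1 / 2)
    (h2 : |z.im| < 1 / 2) : FS (fun n => ∫ z : ℂ, f z * ex (-n) z) z = f z := by
  have hfc : Continuous f := hf.continuous
  set c : ℤ × ℤ → ℂ := fun n => ∫ z : ℂ, f z * ex (-n) z with hc
  set b : ℤ → ℝ → ℂ := fun k x => ∫ y in (-1 / 2 : ℝ)..(1 / 2),
    f (x + y * Complex.I) * W3c_e (-k) y with hb
  have hcb : ∀ n, c n = ∫ x in (-1 / 2 : ℝ)..(1 / 2), b n.2 x * W3c_e (-n.1) x := fun n =>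
    W3c_coef hfc h0 n
  have hbc : ∀ k, Continuous (b k) := by
    intro k
    refine intervalIntegral.continuous_parametric_intervalIntegral_of_continuous' ?_ _ _
    refine Continuous.mul ?_ ((W3c_e_cont _).comp continuous_snd)
    exact hfc.comp (by fun_prop)
  have hre : ∀ x y : ℝ, |x| ≤ ‖(x + y * Complex.I : ℂ)‖ := by
    intro x y
    have := Complex.abs_re_le_norm (x + y * Complex.I : ℂ)
    simpa using this
  have him : ∀ x y : ℝ, |y| ≤ ‖(x + y * Complex.I : ℂ)‖ := by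
    intro x y
    have := Complex.abs_im_le_norm (x + y * Complex.I : ℂ)
    simpa using this
  have hb0 : ∀ k x, 1 / 4 ≤ |x| → b k x = 0 := by
    intro k x hx
    rw [hb]
    simp only
    have : ∀ y : ℝ, f (x + y * Complex.I) * W3c_e (-k) y = 0 := fun y => by
      rw [h0 _ (hx.trans (hre x y)), zero_mul]
    simp [this]
  have hs' : Summable fun n => ‖c n‖ := hs
  have hsw : Summable fun q : ℤ × ℤ => ‖c (q.2, q.1)‖ := by
    have := (Equiv.prodComm ℤ ℤ).summable_iff.2 hs'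
    exact this
  have hk : ∀ k, Summable fun m : ℤ => ‖c (m, k)‖ := fun k => hsw.prod_factor k
  have hbk : ∀ k, HasSum (fun m : ℤ => c (m, k) * W3c_e m z.re) (b k z.re) := by
    intro k
    have := W3c_one (g := b k) (x := z.re) (hbc k) (hb0 k) (by
      refine (hk k).congr fun m => ?_
      rw [hcb (m, k)]) h1
    have e : (fun m : ℤ => (∫ x in (-1 / 2 : ℝ)..(1 / 2), b k x * W3c_e (-m) x) *
        W3c_e m z.re) = fun m : ℤ => c (m, k) * W3c_e m z.re := by
      funext m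
      rw [hcb (m, k)]
    rw [← e]
    exact this
  have hnorm : ∀ k, ‖b k z.re‖ ≤ ∑' m : ℤ, ‖c (m, k)‖ := by
    intro k
    rw [← (hbk k).tsum_eq]
    have e : ∀ m : ℤ, ‖c (m, k) * W3c_e m z.re‖ = ‖c (m, k)‖ := fun m => by
      rw [norm_mul, W3c_e_norm, mul_one]
    refine (norm_tsum_le_tsum_norm ?_).trans (le_of_eq ?_)
    · simpa only [e] using hk k
    · simp only [e]
  have hbs : Summable fun k : ℤ => ‖b k z.re‖ :=
    Summable.of_nonneg_of_le (fun _ => norm_nonneg _) hnorm hsw.prod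
  have hy := W3c_one (g := fun y : ℝ => f (z.re + y * Complex.I)) (x := z.im)
    (hfc.comp (by fun_prop)) (fun y hy => h0 _ (hy.trans (him _ _))) hbs h2
  have hz : f (z.re + z.im * Complex.I) = f z := by rw [Complex.re_add_im]
  simp only [hz] at hy
  have hsum : Summable fun q : ℤ × ℤ => c (q.2, q.1) * (W3c_e q.2 z.re * W3c_e q.1 z.im) := by
    refine Summable.of_norm ?_
    refine hsw.congr fun q => ?_
    rw [norm_mul, norm_mul, W3c_e_norm, W3c_e_norm, mul_one, mul_one]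
  unfold FS
  rw [← (Equiv.prodComm ℤ ℤ).tsum_eq]
  have e1 : (fun q : ℤ × ℤ => c ((Equiv.prodComm ℤ ℤ) q) * ex ((Equiv.prodComm ℤ ℤ) q) z) =
      fun q : ℤ × ℤ => c (q.2, q.1) * (W3c_e q.2 z.re * W3c_e q.1 z.im) := by
    funext q
    rw [W3c_ex']
    rfl
  rw [e1, hsum.tsum_prod, ← hy.tsum_eq]
  refine tsum_congr fun k => ?_
  have h3 := (hbk k).mul_right (W3c_e k z.im)
  have h4 : b k z.re * W3c_e k z.im = (∫ y in (-1 / 2 : ℝ)..(1 / 2),
      f (z.re + y * Complex.I) * W3c_e (-k) y) * W3c_e k z.im := rfl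
  rw [← h4, ← h3.tsum_eq]
  refine tsum_congr fun m => ?_
  ring

end W3c

section W3d

open MeasureTheory
open scoped ContDiff

/-- Row W3d. assembly of W3a, W3b, W3c -/
theorem four (s : ℕ) : ∃ C : ℝ, 0 < C ∧ ∀ (f : ℂ → ℂ) (B : ℝ), ContDiff ℝ ∞ f →
    (∀ z, 1 / 4 ≤ ‖z‖ → f z = 0) → (∀ j ≤ s + 3, ∀ z, ‖iteratedFDeriv ℝ j f z‖ ≤ B) →
      ∃ c : ℤ × ℤ → ℂ, (Summable fun n => wt n ^ s * ‖c n‖) ∧
        ∑' n, wt n ^ s * ‖c n‖ ≤ C * B ∧ ∀ z : ℂ, |z.re| < 1 / 2 → |z.im| < 1 / 2 → FS c z = f z := by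
  obtain ⟨C, hC, hcoeff⟩ := coeff_le s
  have hsum := summable_wt
  have hwt : ∀ n : ℤ × ℤ, 1 ≤ wt n := fun n => by
    have h1 := abs_nonneg (n.1 : ℝ)
    have h2 := abs_nonneg (n.2 : ℝ)
    unfold wt
    linarith
  have hS : 0 ≤ ∑' n : ℤ × ℤ, (wt n ^ 3)⁻¹ := tsum_nonneg fun n => by
    have h1 := hwt n
    positivity
  refine ⟨C * (∑' n : ℤ × ℤ, (wt n ^ 3)⁻¹ + 1), by positivity, fun f B hf h0 hB => ?_⟩
  have hB0 : 0 ≤ B := (norm_nonneg _).trans (hB 0 (Nat.zero_le _) 0)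
  have key : ∀ n : ℤ × ℤ, wt n ^ s * ‖∫ z : ℂ, f z * ex (-n) z‖ ≤ C * B * (wt n ^ 3)⁻¹ := by
    intro n
    have h1 := hcoeff f B hf h0 hB n
    have h2 : 0 < wt n ^ 3 := by
      have := hwt n
      positivity
    rw [← div_eq_mul_inv, le_div_iff₀ h2]
    calc wt n ^ s * ‖∫ z : ℂ, f z * ex (-n) z‖ * wt n ^ 3
        = wt n ^ (s + 3) * ‖∫ z : ℂ, f z * ex (-n) z‖ := by ring
      _ ≤ C * B := h1
  have hsm : Summable fun n : ℤ × ℤ => wt n ^ s * ‖∫ z : ℂ, f z * ex (-n) z‖ := by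
    refine Summable.of_nonneg_of_le (fun n => ?_) key (hsum.mul_left (C * B))
    have := hwt n
    positivity
  refine ⟨fun n => ∫ z : ℂ, f z * ex (-n) z, hsm, ?_, fun z h1 h2 => ?_⟩
  · calc ∑' n : ℤ × ℤ, wt n ^ s * ‖∫ z : ℂ, f z * ex (-n) z‖
        ≤ ∑' n : ℤ × ℤ, C * B * (wt n ^ 3)⁻¹ := hsm.tsum_le_tsum key (hsum.mul_left (C * B))
      _ = C * B * ∑' n : ℤ × ℤ, (wt n ^ 3)⁻¹ := tsum_mul_left
      _ ≤ C * (∑' n : ℤ × ℤ, (wt n ^ 3)⁻¹ + 1) * B := by nlinarith [mul_nonneg hC.le hB0]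
  · refine four_inv hf h0 ?_ h1 h2
    refine Summable.of_nonneg_of_le (fun n => norm_nonneg _) (fun n => ?_) hsm
    have h3 : 1 ≤ wt n ^ s := one_le_pow₀ (hwt n)
    exact le_mul_of_one_le_left (norm_nonneg _) h3

end W3d

end F10R
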