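import Pool.Agent.Lib.MP_f10cd3_gt.R.Wdef

/-! Row W4: localisation and scaling. -/

set_option autoImplicit false

namespace F10R

section W4

open scoped ContDiff

private theorem W4_bdd {g : ℂ → ℂ} (hg : ContDiff ℝ ∞ g) (hs : HasCompactSupport g) (N : ℕ) :
    ∃ M : ℝ, 0 ≤ M ∧ ∀ j ≤ N, ∀ z, ‖iteratedFDeriv ℝ j g z‖ ≤ M := by
  have h : ∀ j : ℕ, ∃ C : ℝ, ∀ z, ‖iteratedFDeriv ℝ j g z‖ ≤ C := fun j =>
    (hg.continuous_iteratedFDeriv (by exact_mod_cast le_top)).bounded_above_of_compact_support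
      (hs.iteratedFDeriv j)
  choose C hC using h
  refine ⟨∑ j ∈ Finset.range (N + 1), |C j|, Finset.sum_nonneg fun _ _ => abs_nonneg _,
    fun j hj z => ?_⟩
  calc ‖iteratedFDeriv ℝ j g z‖ ≤ |C j| := (hC j z).trans (le_abs_self _)
    _ ≤ _ := Finset.single_le_sum (f := fun j => |C j|) (fun _ _ => abs_nonneg _)
        (Finset.mem_range.mpr (by omega))

private theorem W4_loc {μ : ℂ → ℂ} {Ω : Set ℂ} (hΩ : IsOpen Ω) (hμ : ContDiffOn ℝ ∞ μ Ω) {z0 : ℂ}
    (hz0 : z0 ∈ Ω) : ∃ ν : ℂ → ℂ, ContDiff ℝ ∞ ν ∧ HasCompactSupport ν ∧ ∃ ρ : ℝ, 0 < ρ ∧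
      ∀ w, ‖w - z0‖ ≤ ρ → ν w = μ w - μ z0 := by
  obtain ⟨R, hR, hRΩ⟩ := Metric.isOpen_iff.mp hΩ z0 hz0
  let b : ContDiffBump z0 := ⟨R / 4, R / 2, by positivity, by linarith⟩
  have hb : tsupport b ⊆ Ω := by
    rw [b.tsupport_eq]
    intro w hw
    apply hRΩ
    rw [Metric.mem_closedBall] at hw
    rw [Metric.mem_ball]
    have : b.rOut = R / 2 := rfl
    rw [this] at hw
    linarith
  let ν : ℂ → ℂ := fun w => ((b w : ℝ) : ℂ) * (μ w - μ z0)
  have hbc : ContDiff ℝ ∞ (fun w => ((b w : ℝ) : ℂ)) :=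
    Complex.ofRealCLM.contDiff.comp b.contDiff
  refine ⟨ν, ?_, ?_, R / 4, by positivity, ?_⟩
  · rw [contDiff_iff_contDiffAt]
    intro w
    by_cases hw : w ∈ tsupport b
    · exact hbc.contDiffAt.mul
        ((hμ.contDiffAt (hΩ.mem_nhds (hb hw))).sub contDiffAt_const)
    · have h0 : ν =ᶠ[nhds w] fun _ => 0 := by
        have h1 : ∀ᶠ x in nhds w, x ∉ tsupport b :=
          (isClosed_tsupport b).isOpen_compl.mem_nhds hw
        filter_upwards [h1] with x hx
        have h2 : b x = 0 := image_eq_zero_of_notMem_tsupport hx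
        show ((b x : ℝ) : ℂ) * (μ x - μ z0) = 0
        rw [h2]
        simp
      exact contDiffAt_const.congr_of_eventuallyEq h0
  · have h1 : HasCompactSupport (fun w => ((b w : ℝ) : ℂ)) := by
      have := b.hasCompactSupport.comp_left (g := fun x : ℝ => (x : ℂ)) (by simp)
      exact this
    exact h1.mul_right
  · intro w hw
    have h1 : b w = 1 := b.one_of_mem_closedBall (by
      rw [Metric.mem_closedBall, dist_eq_norm]
      exact hw)
    show ((b w : ℝ) : ℂ) * (μ w - μ z0) = _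
    rw [h1]
    simp

/-- Row W4. `f z = χ z * (μ (z0 + r z) - μ z0)` with a cutoff function `χ`; the derivatives of order
`≤ N` in `z` are continuous functions of `(r, z)` which vanish at `r = 0` (or: the derivative of
order `j` of `μ (z0 + r z)` is `r^j` times the one of `μ`). -/
theorem scaled {μ : ℂ → ℂ} {Ω : Set ℂ} (hΩ : IsOpen Ω) (hμ : ContDiffOn ℝ ∞ μ Ω) {z0 : ℂ}
    (hz0 : z0 ∈ Ω) (N : ℕ) {δ : ℝ} (hδ : 0 < δ) : ∃ r : ℝ, 0 < r ∧ ∃ f : ℂ → ℂ,
      ContDiff ℝ ∞ f ∧ (∀ z, 1 / 4 ≤ ‖z‖ → f z = 0) ∧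
        (∀ j ≤ N, ∀ z, ‖iteratedFDeriv ℝ j f z‖ ≤ δ) ∧
          ∀ z : ℂ, ‖z‖ ≤ 1 / 8 → f z = μ (z0 + r * z) - μ z0 := by
  obtain ⟨ν, hν, hνc, ρ, hρ, hνe⟩ := W4_loc hΩ hμ hz0
  obtain ⟨M, hM0, hM⟩ := W4_bdd hν hνc (N + 1)
  let b : ContDiffBump (0 : ℂ) := ⟨1 / 8, 1 / 4, by norm_num, by norm_num⟩
  let χ : ℂ → ℂ := fun w => ((b w : ℝ) : ℂ)
  have hχ : ContDiff ℝ ∞ χ := Complex.ofRealCLM.contDiff.comp b.contDiff
  have hχc : HasCompactSupport χ := by
    have := b.hasCompactSupport.comp_left (g := fun x : ℝ => (x : ℂ)) (by simp)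
    exact this
  have hχt : tsupport χ ⊆ Metric.closedBall 0 1 := by
    have h1 : tsupport χ ⊆ tsupport b := by
      apply closure_mono
      intro x hx
      rw [Function.mem_support] at hx ⊢
      intro h
      apply hx
      show ((b x : ℝ) : ℂ) = 0
      rw [h]
      simp
    refine h1.trans ?_
    rw [b.tsupport_eq]
    exact Metric.closedBall_subset_closedBall (by
      show (1 / 4 : ℝ) ≤ 1
      norm_num)
  obtain ⟨B, hB0, hB⟩ := W4_bdd hχ hχc N
  obtain ⟨r, hr0, hr1, hrρ, hrδ⟩ : ∃ r : ℝ, 0 < r ∧ r ≤ 1 ∧ r ≤ ρ ∧ 2 ^ N * (B * (M * r)) ≤ δ := by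
    have hD : 0 < 2 ^ N * B * M + 1 := by positivity
    refine ⟨min (min 1 ρ) (δ / (2 ^ N * B * M + 1)), by positivity,
      (min_le_left _ _).trans (min_le_left _ _), (min_le_left _ _).trans (min_le_right _ _), ?_⟩
    have h1 : min (min 1 ρ) (δ / (2 ^ N * B * M + 1)) ≤ δ / (2 ^ N * B * M + 1) := min_le_right _ _
    calc 2 ^ N * (B * (M * min (min 1 ρ) (δ / (2 ^ N * B * M + 1)))) =
          (2 ^ N * B * M) * min (min 1 ρ) (δ / (2 ^ N * B * M + 1)) := by ring
      _ ≤ (2 ^ N * B * M) * (δ / (2 ^ N * B * M + 1)) :=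
          mul_le_mul_of_nonneg_left h1 (by positivity)
      _ ≤ δ := by
          rw [mul_div_assoc', div_le_iff₀ hD]
          nlinarith [hδ]
  let L : ℂ →L[ℝ] ℂ := r • ContinuousLinearMap.id ℝ ℂ
  have hLn : ‖L‖ ≤ r := by
    refine L.opNorm_le_bound hr0.le fun z => ?_
    show ‖r • z‖ ≤ r * ‖z‖
    rw [norm_smul, Real.norm_of_nonneg hr0.le]
  have hLa : ∀ z, L z = r * z := by
    intro z
    show r • z = _
    exact Complex.real_smul
  let ν' : ℂ → ℂ := fun w => ν (z0 + w)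
  have hν' : ContDiff ℝ ∞ ν' := hν.comp (contDiff_const.add contDiff_id)
  have hν'M : ∀ j ≤ N + 1, ∀ z, ‖iteratedFDeriv ℝ j ν' z‖ ≤ M := by
    intro j hj z
    have : iteratedFDeriv ℝ j ν' z = iteratedFDeriv ℝ j ν (z0 + z) :=
      iteratedFDeriv_comp_add_left j z0 z
    rw [this]
    exact hM j hj _
  let G : ℂ → ℂ := ν' ∘ L
  have hG : ContDiff ℝ ∞ G := hν'.comp L.contDiff
  have hGb : ∀ l ≤ N, ∀ z, ‖z‖ ≤ 1 → ‖iteratedFDeriv ℝ l G z‖ ≤ M * r := by
    intro l hl z hz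
    rcases Nat.eq_zero_or_pos l with rfl | hl0
    · rw [norm_iteratedFDeriv_zero]
      have h0 : ν' 0 = 0 := by
        show ν (z0 + 0) = 0
        rw [hνe (z0 + 0) (by simpa using hρ.le), add_zero, sub_self]
      have h1 : ‖ν' (L z) - ν' 0‖ ≤ M * ‖L z - 0‖ := by
        refine Convex.norm_image_sub_le_of_norm_fderiv_le (𝕜 := ℝ) (s := Set.univ)
          (fun x _ => (hν'.differentiable (by simp)) x) (fun x _ => ?_) convex_univ
          (Set.mem_univ _) (Set.mem_univ _)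
        have := hν'M 1 (by omega) x
        rwa [norm_iteratedFDeriv_one] at this
      rw [h0, sub_zero, sub_zero] at h1
      refine h1.trans (mul_le_mul_of_nonneg_left ?_ hM0)
      calc ‖L z‖ ≤ ‖L‖ * ‖z‖ := L.le_opNorm z
        _ ≤ r * 1 := mul_le_mul hLn hz (norm_nonneg _) hr0.le
        _ = r := mul_one r
    · have h1 : iteratedFDeriv ℝ l G z =
          (iteratedFDeriv ℝ l ν' (L z)).compContinuousLinearMap fun _ => L :=
        L.iteratedFDeriv_comp_right hν' z (by exact_mod_cast le_top)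
      rw [h1]
      calc ‖(iteratedFDeriv ℝ l ν' (L z)).compContinuousLinearMap fun _ => L‖ ≤
            ‖iteratedFDeriv ℝ l ν' (L z)‖ * ∏ _i : Fin l, ‖L‖ :=
            ContinuousMultilinearMap.norm_compContinuousLinearMap_le _ _
        _ ≤ M * r := by
            refine mul_le_mul (hν'M l (by omega) _) ?_ (Finset.prod_nonneg fun _ _ => norm_nonneg _)
              hM0
            rw [Finset.prod_const, Finset.card_univ, Fintype.card_fin]
            calc ‖L‖ ^ l ≤ r ^ l := pow_le_pow_left₀ (norm_nonneg _) hLn l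
              _ ≤ r ^ 1 := pow_le_pow_of_le_one hr0.le hr1 hl0
              _ = r := pow_one r
  refine ⟨r, hr0, fun z => χ z * G z, hχ.mul hG, ?_, ?_, ?_⟩
  · intro z hz
    have h1 : b z = 0 := b.zero_of_le_dist (by
      show (1 / 4 : ℝ) ≤ dist z 0
      rwa [dist_zero_right])
    show ((b z : ℝ) : ℂ) * G z = 0
    rw [h1]
    simp
  · intro j hj z
    refine (norm_iteratedFDeriv_mul_le hχ hG z (n := j) (by exact_mod_cast le_top)).trans ?_
    have h1 : ∀ i ∈ Finset.range (j + 1), (j.choose i : ℝ) * ‖iteratedFDeriv ℝ i χ z‖ *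
        ‖iteratedFDeriv ℝ (j - i) G z‖ ≤ (j.choose i : ℝ) * (B * (M * r)) := by
      intro i hi
      have hij : i ≤ j := Nat.lt_succ_iff.mp (Finset.mem_range.mp hi)
      rw [mul_assoc]
      refine mul_le_mul_of_nonneg_left ?_ (Nat.cast_nonneg _)
      by_cases hz : ‖z‖ ≤ 1
      · exact mul_le_mul (hB i (by omega) z) (hGb (j - i) (by omega) z hz) (norm_nonneg _) hB0
      · have h2 : iteratedFDeriv ℝ i χ z = 0 := by
          by_contra h
          have h3 : z ∈ tsupport χ := support_iteratedFDeriv_subset i h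
          have h4 := hχt h3
          rw [Metric.mem_closedBall, dist_zero_right] at h4
          exact hz h4
        rw [h2, norm_zero, zero_mul]
        positivity
    refine (Finset.sum_le_sum h1).trans ?_
    rw [← Finset.sum_mul]
    have h2 : ∑ i ∈ Finset.range (j + 1), (j.choose i : ℝ) = 2 ^ j := by
      have := Nat.sum_range_choose j
      exact_mod_cast this
    rw [h2]
    refine le_trans (mul_le_mul_of_nonneg_right ?_ (by positivity)) hrδ
    exact pow_le_pow_right₀ (by norm_num) hj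
  · intro z hz
    have h1 : b z = 1 := b.one_of_mem_closedBall (by
      rw [Metric.mem_closedBall, dist_zero_right]
      exact hz)
    show ((b z : ℝ) : ℂ) * ν (z0 + L z) = _
    rw [h1, hLa, hνe]
    · simp
    · rw [add_sub_cancel_left, norm_mul, Complex.norm_real, Real.norm_of_nonneg hr0.le]
      calc r * ‖z‖ ≤ r * 1 := mul_le_mul_of_nonneg_left (by linarith) hr0.le
        _ ≤ ρ := by linarith

end W4

end F10R
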