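import Pool.Agent.Lib.MP_f10cd3_gt.R.Wdef

/-! Row W2: the functions with given Fourier series. -/

set_option autoImplicit false

namespace F10R

section W2a

open scoped ContDiff

private noncomputable def W2a_G (c : ℂ) (t : ℝ) : ℂ := c * Complex.exp (t * Complex.I)

private theorem W2a_hasDerivAt (c : ℂ) (t : ℝ) : HasDerivAt (W2a_G c) (W2a_G (c * Complex.I) t) t := by
  have h1 : HasDerivAt (fun t : ℝ => (t : ℂ) * Complex.I) (1 * Complex.I) t :=
    (Complex.ofRealCLM.hasDerivAt (x := t)).mul_const Complex.I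
  have h2 := h1.cexp.const_mul c
  have h3 : W2a_G (c * Complex.I) t =
      c * (Complex.exp ((t : ℂ) * Complex.I) * (1 * Complex.I)) := by
    unfold W2a_G
    ring
  rw [h3]
  exact h2

private theorem W2a_iter (k : ℕ) (c : ℂ) :
    iteratedDeriv k (W2a_G c) = W2a_G (c * Complex.I ^ k) := by
  induction k with
  | zero => simp
  | succ k ih =>
    rw [iteratedDeriv_succ, ih]
    funext t
    rw [(W2a_hasDerivAt _ t).deriv, pow_succ, mul_assoc]

private theorem W2a_norm (c : ℂ) (t : ℝ) : ‖W2a_G c t‖ = ‖c‖ := by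
  unfold W2a_G
  rw [norm_mul, Complex.norm_exp_ofReal_mul_I, mul_one]

private theorem W2a_contDiff (c : ℂ) (N : WithTop ℕ∞) : ContDiff ℝ N (W2a_G c) := by
  unfold W2a_G
  exact contDiff_const.mul ((Complex.ofRealCLM.contDiff.mul contDiff_const).cexp)

private noncomputable def W2a_L (n : ℤ × ℤ) : ℂ →L[ℝ] ℝ :=
  (2 * Real.pi * (n.1 : ℝ)) • Complex.reCLM + (2 * Real.pi * (n.2 : ℝ)) • Complex.imCLM

private theorem W2a_L_norm (n : ℤ × ℤ) : ‖W2a_L n‖ ≤ 2 * Real.pi * wt n := by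
  unfold W2a_L wt
  refine (norm_add_le _ _).trans ?_
  rw [norm_smul, norm_smul, Complex.reCLM_norm, Complex.imCLM_norm, Real.norm_eq_abs,
    Real.norm_eq_abs, abs_mul, abs_mul _ (n.2 : ℝ), abs_of_pos (by positivity : 0 < 2 * Real.pi)]
  have := Real.pi_pos
  nlinarith

private theorem W2a_term (a : ℂ) (n : ℤ × ℤ) (z : ℂ) :
    a * ex n z = W2a_G a (W2a_L n z) := by
  have h : W2a_L n z = 2 * Real.pi * (n.1 : ℝ) * z.re + 2 * Real.pi * (n.2 : ℝ) * z.im := rfl
  unfold ex W2a_G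
  rw [h]
  congr 2
  push_cast
  ring

/-- Row W2a. `contDiff_tsum` -/
theorem FS_contDiff (s : ℕ) {a : ℤ × ℤ → ℂ} (ha : Summable fun n => wt n ^ s * ‖a n‖) :
    ContDiff ℝ s (FS a) := by
  have hwt : ∀ n : ℤ × ℤ, 1 ≤ wt n := by
    intro n
    unfold wt
    have h1 := abs_nonneg (n.1 : ℝ)
    have h2 := abs_nonneg (n.2 : ℝ)
    linarith
  have h := contDiff_tsum (𝕜 := ℝ) (N := (s : ℕ∞)) (f := fun n z => a n * ex n z)
    (v := fun k n => ‖a n‖ * (2 * Real.pi * wt n) ^ k) ?_ ?_ ?_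
  · exact h
  · intro n
    have h1 : (fun z => a n * ex n z) = W2a_G (a n) ∘ W2a_L n := by
      funext z
      exact W2a_term _ _ _
    rw [h1]
    exact (W2a_contDiff _ _).comp (W2a_L n).contDiff
  · intro k hk
    have hk' : k ≤ s := by exact_mod_cast hk
    refine Summable.of_nonneg_of_le (fun n => ?_) (fun n => ?_) (ha.mul_left ((2 * Real.pi) ^ k))
    · have := hwt n
      positivity
    · have h1 := hwt n
      have h2 : wt n ^ k ≤ wt n ^ s := pow_le_pow_right₀ h1 hk'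
      rw [mul_pow]
      have h3 : ‖a n‖ * ((2 * Real.pi) ^ k * wt n ^ k) =
          (2 * Real.pi) ^ k * (wt n ^ k * ‖a n‖) := by ring
      rw [h3]
      gcongr
  · intro k n z _
    have h1 : (fun z => a n * ex n z) = W2a_G (a n) ∘ W2a_L n := by
      funext z
      exact W2a_term _ _ _
    rw [h1, (W2a_L n).iteratedFDeriv_comp_right (W2a_contDiff (a n) (k : ℕ∞)) z le_rfl]
    refine (ContinuousMultilinearMap.norm_compContinuousLinearMap_le _ _).trans ?_
    rw [norm_iteratedFDeriv_eq_norm_iteratedDeriv, W2a_iter, W2a_norm]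
    simp only [norm_mul, norm_pow, Complex.norm_I, one_pow, mul_one, Finset.prod_const,
      Finset.card_univ, Fintype.card_fin]
    gcongr
    exact W2a_L_norm n

end W2a

section W2b

open scoped ContDiff

private theorem W2b_ex_add (n k : ℤ × ℤ) (z : ℂ) : ex (n + k) z = ex n z * ex k z := by
  unfold ex
  rw [← Complex.exp_add]
  congr 1
  simp only [Prod.fst_add, Prod.snd_add]
  push_cast
  ring

private theorem W2b_ex_norm (n : ℤ × ℤ) (z : ℂ) : ‖ex n z‖ = 1 := by
  unfold ex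
  have h : (2 * Real.pi * Complex.I * (n.1 * z.re + n.2 * z.im) : ℂ) =
      ((2 * Real.pi * (n.1 * z.re + n.2 * z.im) : ℝ) : ℂ) * Complex.I := by
    push_cast
    ring
  rw [h, Complex.norm_exp_ofReal_mul_I]

private theorem W2b_conv {A : Type} [AddCommGroup A] (f g : A → ℂ)
    (hf : Summable fun n => ‖f n‖) (hg : Summable fun n => ‖g n‖) :
    (∑' n, f n) * (∑' n, g n) = ∑' n, ∑' k, f (n - k) * g k := by
  have hab : Summable fun p : A × A => f p.1 * g p.2 := summable_mul_of_summable_norm hf hg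
  let e : A × A ≃ A × A :=
    { toFun := fun p => (p.1 - p.2, p.2)
      invFun := fun p => (p.1 + p.2, p.2)
      left_inv := fun p => by simp
      right_inv := fun p => by simp }
  have hs : Summable fun p : A × A => f (p.1 - p.2) * g p.2 :=
    (e.summable_iff (f := fun p : A × A => f p.1 * g p.2)).mpr hab
  have h4 : ∑' p : A × A, f (p.1 - p.2) * g p.2 = ∑' p : A × A, f p.1 * g p.2 :=
    e.tsum_eq (fun p : A × A => f p.1 * g p.2)
  rw [tsum_mul_tsum_of_summable_norm hf hg, ← h4, hs.tsum_prod]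

/-- Row W2b. product of absolutely convergent series -/
theorem FS_mul {a b : ℤ × ℤ → ℂ} (ha : Summable fun n => ‖a n‖) (hb : Summable fun n => ‖b n‖)
    (z : ℂ) : FS a z * FS b z = FS (fun n => ∑' k, a (n - k) * b k) z := by
  have ha' : Summable fun n => ‖a n * ex n z‖ := by
    simpa only [norm_mul, W2b_ex_norm, mul_one] using ha
  have hb' : Summable fun n => ‖b n * ex n z‖ := by
    simpa only [norm_mul, W2b_ex_norm, mul_one] using hb
  unfold FS
  rw [W2b_conv _ _ ha' hb']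
  refine tsum_congr fun n => ?_
  rw [← tsum_mul_right]
  refine tsum_congr fun k => ?_
  have h2 : ex n z = ex (n - k) z * ex k z := by
    rw [← W2b_ex_add, sub_add_cancel]
  rw [h2]
  ring

end W2b

section W2c

open scoped ContDiff

/-- the coefficients of the periodic part of `prim a` -/
private noncomputable def W2c_b (a : ℤ × ℤ → ℂ) (n : ℤ × ℤ) : ℂ :=
  if n = 0 then 0 else a n / (Real.pi * Complex.I * ((n.1 : ℂ) + n.2 * Complex.I))

private theorem W2c_norm {n : ℤ × ℤ} (hn : n ≠ 0) : 1 ≤ ‖(n.1 : ℂ) + n.2 * Complex.I‖ := by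
  have h1 : ‖(n.1 : ℂ) + n.2 * Complex.I‖ ^ 2 = (n.1 : ℝ) ^ 2 + (n.2 : ℝ) ^ 2 := by
    rw [← Complex.normSq_eq_norm_sq, Complex.normSq_apply]
    simp
    ring
  have h2 : (1 : ℤ) ≤ n.1 ^ 2 + n.2 ^ 2 := by
    by_contra hcon
    apply hn
    have h3 : n.1 ^ 2 + n.2 ^ 2 ≤ 0 := by omega
    have h4 : n.1 = 0 := by nlinarith [sq_nonneg n.1, sq_nonneg n.2]
    have h5 : n.2 = 0 := by nlinarith [sq_nonneg n.1, sq_nonneg n.2]
    exact Prod.ext h4 h5
  have h3 : (1 : ℝ) ≤ (n.1 : ℝ) ^ 2 + (n.2 : ℝ) ^ 2 := by exact_mod_cast h2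
  rw [← h1] at h3
  nlinarith [norm_nonneg ((n.1 : ℂ) + n.2 * Complex.I)]

private theorem W2c_ne {n : ℤ × ℤ} (hn : n ≠ 0) : (n.1 : ℂ) + n.2 * Complex.I ≠ 0 := by
  intro h
  have := W2c_norm hn
  rw [h, norm_zero] at this
  linarith

private theorem W2c_wt (n : ℤ × ℤ) : 1 ≤ wt n := by
  unfold wt
  have h1 := abs_nonneg (n.1 : ℝ)
  have h2 := abs_nonneg (n.2 : ℝ)
  linarith

private theorem W2c_ble (a : ℤ × ℤ → ℂ) (n : ℤ × ℤ) : ‖W2c_b a n‖ * Real.pi ≤ ‖a n‖ := by
  unfold W2c_b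
  split_ifs with h
  · simp
  · have h1 := W2c_norm h
    have hp := Real.pi_pos
    rw [norm_div, norm_mul, norm_mul, Complex.norm_I, Complex.norm_real, Real.norm_eq_abs,
      abs_of_pos hp, mul_one, div_mul_eq_mul_div, div_le_iff₀ (by positivity)]
    have := norm_nonneg (a n)
    nlinarith [mul_nonneg this hp.le]

private theorem W2c_ble' (a : ℤ × ℤ → ℂ) (n : ℤ × ℤ) : ‖W2c_b a n‖ ≤ ‖a n‖ := by
  have h1 := W2c_ble a n
  have h2 := Real.pi_gt_three
  nlinarith [norm_nonneg (W2c_b a n)]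

private theorem W2c_prim (a : ℤ × ℤ → ℂ) :
    prim a = fun z => a 0 * (starRingEnd ℂ) z + FS (W2c_b a) z := rfl

/-- Row W2c. -/
theorem prim_contDiff (s : ℕ) {a : ℤ × ℤ → ℂ} (ha : Summable fun n => wt n ^ s * ‖a n‖) :
    ContDiff ℝ s (prim a) := by
  rw [W2c_prim]
  apply ContDiff.add
  · apply ContDiff.mul contDiff_const
    exact Complex.conjCLE.contDiff
  · apply FS_contDiff
    refine Summable.of_nonneg_of_le (fun n => ?_) (fun n => ?_) ha
    · have := W2c_wt n
      positivity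
    · have := W2c_wt n
      exact mul_le_mul_of_nonneg_left (W2c_ble' a n) (by positivity)

/-- the derivative of the exponent -/
private noncomputable def W2c_T (n : ℤ × ℤ) : ℂ →L[ℝ] ℂ :=
  (2 * Real.pi * Complex.I : ℂ) • ((n.1 : ℂ) • (Complex.ofRealCLM.comp Complex.reCLM) +
    (n.2 : ℂ) • (Complex.ofRealCLM.comp Complex.imCLM))

private theorem W2c_T_apply (n : ℤ × ℤ) (v : ℂ) :
    W2c_T n v = 2 * Real.pi * Complex.I * (n.1 * v.re + n.2 * v.im) := by
  simp [W2c_T]
  ring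

private theorem W2c_ex_norm (n : ℤ × ℤ) (z : ℂ) : ‖ex n z‖ = 1 := by
  unfold ex
  have : (2 * Real.pi * Complex.I * (n.1 * z.re + n.2 * z.im) : ℂ) =
      ((2 * Real.pi * (n.1 * z.re + n.2 * z.im) : ℝ) : ℂ) * Complex.I := by
    push_cast; ring
  rw [this, Complex.norm_exp_ofReal_mul_I]

private theorem W2c_T_norm (n : ℤ × ℤ) : ‖W2c_T n‖ ≤ 2 * Real.pi * wt n := by
  have hp := Real.pi_pos
  have hw := W2c_wt n
  apply ContinuousLinearMap.opNorm_le_bound _ (by positivity)
  intro v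
  rw [W2c_T_apply, norm_mul, norm_mul, norm_mul, Complex.norm_I, Complex.norm_real,
    Real.norm_eq_abs, abs_of_pos hp]
  have h1 : ‖((n.1 : ℂ) * v.re + n.2 * v.im)‖ ≤ wt n * ‖v‖ := by
    refine (norm_add_le _ _).trans ?_
    rw [norm_mul, norm_mul, Complex.norm_real, Complex.norm_real, Complex.norm_intCast,
      Complex.norm_intCast, Real.norm_eq_abs, Real.norm_eq_abs]
    have h2 := Complex.abs_re_le_norm v
    have h3 := Complex.abs_im_le_norm v
    have h4 := abs_nonneg (n.1 : ℝ)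
    have h5 := abs_nonneg (n.2 : ℝ)
    unfold wt
    nlinarith [norm_nonneg v]
  have e2 : ‖(2 : ℂ)‖ = 2 := by simp
  rw [e2, mul_one, mul_assoc (2 * Real.pi)]
  exact mul_le_mul_of_nonneg_left h1 (by positivity)

private theorem W2c_ex_deriv (n : ℤ × ℤ) (z : ℂ) : HasFDerivAt (ex n) (ex n z • W2c_T n) z := by
  have h1 : HasFDerivAt (fun w : ℂ => W2c_T n w) (W2c_T n) z := (W2c_T n).hasFDerivAt
  have h2 := h1.cexp
  have e1 : (fun w : ℂ => Complex.exp (W2c_T n w)) = ex n := by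
    funext w
    rw [W2c_T_apply]
    rfl
  rw [e1] at h2
  have e2 : Complex.exp (W2c_T n z) = ex n z := by rw [← e1]
  rw [e2] at h2
  exact h2

private noncomputable def W2c_D (a : ℤ × ℤ → ℂ) (n : ℤ × ℤ) (z : ℂ) : ℂ →L[ℝ] ℂ :=
  (W2c_b a n * ex n z) • W2c_T n

private theorem W2c_D_norm (a : ℤ × ℤ → ℂ) (n : ℤ × ℤ) (z : ℂ) :
    ‖W2c_D a n z‖ ≤ 2 * (wt n * ‖a n‖) := by
  unfold W2c_D
  rw [norm_smul, norm_mul, W2c_ex_norm, mul_one]
  have h1 := W2c_T_norm n
  have h2 := W2c_ble a n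
  have h3 := W2c_wt n
  have h4 := norm_nonneg (W2c_b a n)
  have h5 : ‖W2c_b a n‖ * ‖W2c_T n‖ ≤ ‖W2c_b a n‖ * (2 * Real.pi * wt n) :=
    mul_le_mul_of_nonneg_left h1 h4
  have h6 : (‖W2c_b a n‖ * Real.pi) * (2 * wt n) ≤ ‖a n‖ * (2 * wt n) :=
    mul_le_mul_of_nonneg_right h2 (by linarith)
  linarith

private theorem W2c_D_apply {a : ℤ × ℤ → ℂ} (n : ℤ × ℤ) (z v : ℂ) :
    sg n * a n * ex n z * v + a n * ex n z * (starRingEnd ℂ) v =
      W2c_D a n z v + if n = 0 then a 0 * (starRingEnd ℂ) v else 0 := by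
  unfold W2c_D
  rw [smul_apply, W2c_T_apply, smul_eq_mul]
  unfold W2c_b sg
  split_ifs with h
  · subst h
    have : ex 0 z = 1 := by simp [ex]
    rw [this]
    ring
  · have h1 := W2c_ne h
    have hp : (Real.pi : ℂ) ≠ 0 := by exact_mod_cast Real.pi_ne_zero
    have hI := Complex.I_ne_zero
    have hv : v = v.re + v.im * Complex.I := (Complex.re_add_im v).symm
    have hv' : (starRingEnd ℂ) v = v.re - v.im * Complex.I := by
      apply Complex.ext <;> simp
    rw [hv']
    have e1 : ((n.1 : ℂ) - n.2 * Complex.I) * v + ((n.1 : ℂ) + n.2 * Complex.I) *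
        (v.re - v.im * Complex.I) = 2 * (n.1 * v.re + n.2 * v.im) := by
      rw [congrArg (fun w => ((n.1 : ℂ) - n.2 * Complex.I) * w) hv]
      have := Complex.I_sq
      linear_combination (-2 * (n.2 : ℂ) * v.im) * this
    have e2 : ((n.1 : ℂ) - n.2 * Complex.I) / ((n.1 : ℂ) + n.2 * Complex.I) * a n * ex n z * v +
        a n * ex n z * (v.re - v.im * Complex.I) = a n * ex n z *
        (((n.1 : ℂ) - n.2 * Complex.I) * v + ((n.1 : ℂ) + n.2 * Complex.I) *
        (v.re - v.im * Complex.I)) / ((n.1 : ℂ) + n.2 * Complex.I) := by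
      field_simp
    rw [e2, e1, add_zero]
    field_simp

/-- Row W2c. differentiate the series term by term,
`(n₁ - i n₂) v + (n₁ + i n₂) v̄ = 2 (n₁ Re v + n₂ Im v)` -/
theorem prim_deriv {a : ℤ × ℤ → ℂ} (ha : Summable fun n => wt n * ‖a n‖) (z v : ℂ) :
    fderiv ℝ (prim a) z v =
      FS (fun n => sg n * a n) z * v + FS a z * (starRingEnd ℂ) v := by
  have ha0 : Summable fun n => ‖a n‖ := by
    refine Summable.of_nonneg_of_le (fun n => norm_nonneg _) (fun n => ?_) ha
    have := W2c_wt n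
    nlinarith [norm_nonneg (a n)]
  have hu : Summable fun n => 2 * (wt n * ‖a n‖) := ha.mul_left 2
  have h1 : HasFDerivAt (FS (W2c_b a)) (∑' n, W2c_D a n z) z := by
    refine hasFDerivAt_tsum (f := fun n w => W2c_b a n * ex n w) (f' := fun n w => W2c_D a n w)
      (x₀ := z) hu ?_ ?_ ?_ z
    · intro n w
      have := (W2c_ex_deriv n w).const_mul (W2c_b a n)
      rw [smul_smul] at this
      exact this
    · intro n w
      exact W2c_D_norm a n w
    · refine Summable.of_norm_bounded ha0 fun n => ?_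
      rw [norm_mul, W2c_ex_norm, mul_one]
      exact W2c_ble' a n
  have h2 : HasFDerivAt (fun w : ℂ => a 0 * (starRingEnd ℂ) w)
      (a 0 • (Complex.conjCLE : ℂ →L[ℝ] ℂ)) z := by
    have := (Complex.conjCLE : ℂ →L[ℝ] ℂ).hasFDerivAt (x := z)
    exact this.const_mul (a 0)
  have h3 := h2.add h1
  have h4 : fderiv ℝ (prim a) z = a 0 • (Complex.conjCLE : ℂ →L[ℝ] ℂ) + ∑' n, W2c_D a n z := by
    rw [W2c_prim]
    exact h3.fderiv
  have hD : Summable fun n => W2c_D a n z :=
    Summable.of_norm_bounded hu fun n => W2c_D_norm a n z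
  have h5 : (∑' n, W2c_D a n z) v = ∑' n, W2c_D a n z v :=
    (ContinuousLinearMap.apply ℝ ℂ v).map_tsum hD
  have hDv : Summable fun n => W2c_D a n z v :=
    (ContinuousLinearMap.apply ℝ ℂ v).summable hD
  have hsg : ∀ n, ‖sg n‖ ≤ 1 := by
    intro n
    unfold sg
    split_ifs with h
    · simp
    · rw [norm_div]
      have e : ‖(n.1 : ℂ) - n.2 * Complex.I‖ = ‖(n.1 : ℂ) + n.2 * Complex.I‖ := by
        rw [← Complex.norm_conj ((n.1 : ℂ) + n.2 * Complex.I)]
        congr 1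
        simp [sub_eq_add_neg]
      rw [e, div_self (by have := W2c_norm h; linarith)]
  have s1 : Summable fun n => sg n * a n * ex n z := by
    refine Summable.of_norm_bounded ha0 fun n => ?_
    rw [norm_mul, norm_mul, W2c_ex_norm, mul_one]
    have := hsg n
    nlinarith [norm_nonneg (a n)]
  have s2 : Summable fun n => a n * ex n z := by
    refine Summable.of_norm_bounded ha0 fun n => ?_
    rw [norm_mul, W2c_ex_norm, mul_one]
  have h6 : FS (fun n => sg n * a n) z * v + FS a z * (starRingEnd ℂ) v =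
      ∑' n, (sg n * a n * ex n z * v + a n * ex n z * (starRingEnd ℂ) v) := by
    unfold FS
    rw [(s1.mul_right v).tsum_add (s2.mul_right _), tsum_mul_right, tsum_mul_right]
  have h7 : ∑' n, (sg n * a n * ex n z * v + a n * ex n z * (starRingEnd ℂ) v) =
      ∑' n, W2c_D a n z v + a 0 * (starRingEnd ℂ) v := by
    rw [tsum_congr fun n => W2c_D_apply n z v, hDv.tsum_add (by
      apply summable_of_ne_finset_zero (s := {(0 : ℤ × ℤ)})
      intro n hn
      rw [Finset.mem_singleton] at hn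
      rw [if_neg hn]), tsum_ite_eq]
  rw [h4, h6, h7, add_apply, h5, smul_apply]
  simp only [smul_eq_mul, ContinuousLinearEquiv.coe_coe, Complex.conjCLE_apply]
  ring

end W2c

end F10R
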