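import Pool.Agent.Lib.MP_f10cd3_gt.R.WFix
import Pool.Agent.Lib.MP_f10cd3_gt.R.WSer
import Pool.Agent.Lib.MP_f10cd3_gt.R.WFour
import Pool.Agent.Lib.MP_f10cd3_gt.R.WScale

/-! Rows W5, W6: the Beltrami equation and isothermal coordinates. -/

set_option autoImplicit false

namespace F10R

section W5

open F10S
open scoped ContDiff

private lemma W5_ex (n : ℤ × ℤ) (z : ℂ) : ‖ex n z‖ = 1 := by
  have h : ex n z = Complex.exp (((2 * Real.pi * (n.1 * z.re + n.2 * z.im) : ℝ) : ℂ) * Complex.I) := by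
    unfold ex
    congr 1
    push_cast
    ring
  rw [h, Complex.norm_exp_ofReal_mul_I]

private lemma W5_sg (n : ℤ × ℤ) : ‖sg n‖ ≤ 1 := by
  unfold sg
  split_ifs with h
  · simp
  · rw [norm_div]
    have h1 : ((n.1 : ℂ) - n.2 * Complex.I) = (starRingEnd ℂ) ((n.1 : ℂ) + n.2 * Complex.I) := by
      simp [sub_eq_add_neg]
    rw [h1, Complex.norm_conj]
    exact div_self_le_one _

private lemma W5_wt (n : ℤ × ℤ) : 1 ≤ wt n := by
  unfold wt
  have h1 := abs_nonneg (n.1 : ℝ)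
  have h2 := abs_nonneg (n.2 : ℝ)
  linarith

private lemma W5_sum {s : ℕ} {a : ℤ × ℤ → ℂ} (ha : Summable fun n => wt n ^ (s + 1) * ‖a n‖) :
    (Summable fun n => ‖a n‖) ∧ Summable fun n => wt n * ‖a n‖ := by
  constructor
  · apply Summable.of_nonneg_of_le (fun n => norm_nonneg _) _ ha
    intro n
    have := one_le_pow₀ (n := s + 1) (W5_wt n)
    nlinarith [norm_nonneg (a n)]
  · apply Summable.of_nonneg_of_le (fun n => mul_nonneg (by linarith [W5_wt n]) (norm_nonneg _)) _ ha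
    intro n
    have h1 := one_le_pow₀ (n := s) (W5_wt n)
    have h2 := W5_wt n
    have h3 : wt n ≤ wt n ^ (s + 1) := by
      rw [pow_succ]
      nlinarith
    exact mul_le_mul_of_nonneg_right h3 (norm_nonneg _)

private lemma W5_hs {a : ℤ × ℤ → ℂ} (ha : Summable fun n => ‖a n‖) (z : ℂ) :
    Summable fun n => a n * ex n z := by
  apply Summable.of_norm
  refine ha.congr fun n => ?_
  rw [norm_mul, W5_ex, mul_one]

private lemma W5_norm {a : ℤ × ℤ → ℂ} (ha : Summable fun n => ‖a n‖) (z : ℂ) :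
    ‖FS a z‖ ≤ ∑' n, ‖a n‖ := by
  unfold FS
  have h1 : (fun n => ‖a n * ex n z‖) = fun n => ‖a n‖ := by
    funext n
    rw [norm_mul, W5_ex, mul_one]
  have h2 : Summable fun n => ‖a n * ex n z‖ := by rw [h1]; exact ha
  refine (norm_tsum_le_tsum_norm h2).trans ?_
  rw [h1]

/-- the algebraic identity for the Fourier series -/
private lemma W5_alg {a c : ℤ × ℤ → ℂ} {m : ℂ} (ha : Summable fun n => ‖a n‖)
    (hc : Summable fun n => ‖c n‖)
    (h : ∀ n, a n = c n + m * (sg n * a n) + ∑' k, c (n - k) * (sg k * a k)) (z : ℂ) :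
    FS a z = FS c z + m * FS (fun n => sg n * a n) z + FS c z * FS (fun n => sg n * a n) z := by
  have hk : Summable fun n => ‖sg n * a n‖ := by
    apply Summable.of_nonneg_of_le (fun n => norm_nonneg _) _ ha
    intro n
    rw [norm_mul]
    have := W5_sg n
    nlinarith [norm_nonneg (a n)]
  have s1 := W5_hs ha z
  have s2 := W5_hs hc z
  have s3 := W5_hs hk z
  have s3' : Summable fun n => m * (sg n * a n * ex n z) := s3.mul_left m
  rw [FS_mul hc hk z]
  have e : ∀ n, (∑' k, c (n - k) * (sg k * a k)) * ex n z =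
      a n * ex n z - c n * ex n z - m * (sg n * a n * ex n z) := by
    intro n
    have h1 : (∑' k, c (n - k) * (sg k * a k)) = a n - c n - m * (sg n * a n) := by
      have := h n
      linear_combination -this
    rw [h1]
    ring
  have h2 : FS (fun n => ∑' k, c (n - k) * (sg k * a k)) z =
      FS a z - FS c z - m * FS (fun n => sg n * a n) z := by
    unfold FS
    rw [tsum_congr e, (s1.sub s2).tsum_sub s3', s1.tsum_sub s2, tsum_mul_left]
  rw [h2]
  ring

/-- Row W5. `f`, `r` from `scaled` (`m = μ z0`), `c` from `four`, `a` from `wien_fix`,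
`w z = ζ + m ζ̄ + prim a ζ`, `ζ = (z - z0) / r`.  With `k = FS (sg a)`, `h = FS a`,
`h = FS c + m k + FS c k` and `FS c ζ = μ z - m`, so `m + h = μ (1 + k)`; `|k| ≤ ∑ ‖a n‖ < 1`. -/
theorem beltrami {μ : ℂ → ℂ} {Ω : Set ℂ} (hΩ : IsOpen Ω) (hμ : ContDiffOn ℝ ∞ μ Ω) {z0 : ℂ}
    (hz0 : z0 ∈ Ω) (h1 : ‖μ z0‖ < 1) (s : ℕ) : ∃ w : ℂ → ℂ, ContDiffAt ℝ s w z0 ∧
      ∀ᶠ z in nhds z0, ∃ p : ℂ, p ≠ 0 ∧
        ∀ v : ℂ, fderiv ℝ w z v = p * (v + μ z * (starRingEnd ℂ) v) := by
  obtain ⟨C, hC, hfour⟩ := four (s + 1)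
  set m : ℂ := μ z0 with hm
  set B : ℝ := (1 - ‖m‖) / (4 * C) with hB
  have hB0 : 0 < B := div_pos (by linarith) (by positivity)
  obtain ⟨r, hr, f, hf, hf0, hfB, hfe⟩ := scaled hΩ hμ hz0 (s + 1 + 3) hB0
  obtain ⟨c, hc, hcB, hcf⟩ := hfour f B hf hf0 hfB
  have hCB : ‖m‖ + 2 * (C * B) < 1 := by
    have : C * B = (1 - ‖m‖) / 4 := by
      rw [hB]
      field_simp
    rw [this]
    linarith
  obtain ⟨a, ha, ha1, hae⟩ := wien_fix (s + 1) hc hcB hCB
  have ha' := W5_sum ha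
  have hc' := W5_sum hc
  set k : ℂ → ℂ := FS (fun n => sg n * a n) with hk
  have hks : Summable fun n => ‖sg n * a n‖ := by
    apply Summable.of_nonneg_of_le (fun n => norm_nonneg _) _ ha'.1
    intro n
    rw [norm_mul]
    have := W5_sg n
    nlinarith [norm_nonneg (a n)]
  have hk1 : ∀ z, ‖k z‖ < 1 := by
    intro z
    refine lt_of_le_of_lt (W5_norm hks z) (lt_of_le_of_lt ?_ ha1)
    apply hks.tsum_le_tsum _ ha'.1
    intro n
    rw [norm_mul]
    have := W5_sg n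
    nlinarith [norm_nonneg (a n)]
  -- the solution in the coordinate `ζ`
  set W : ℂ → ℂ := fun ζ => ζ + m * (starRingEnd ℂ) ζ + prim a ζ with hW
  have hWc : ContDiff ℝ (s + 1 : ℕ) W :=
    (contDiff_id.add (contDiff_const.mul Complex.conjCLE.contDiff)).add (prim_contDiff (s + 1) ha)
  have hpd : Differentiable ℝ (prim a) :=
    (prim_contDiff (s + 1) ha).differentiable (by simp)
  have hWd : ∀ ζ, HasFDerivAt W (ContinuousLinearMap.id ℝ ℂ +
      m • (Complex.conjCLE : ℂ →L[ℝ] ℂ) + fderiv ℝ (prim a) ζ) ζ := fun ζ =>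
    ((hasFDerivAt_id ζ).add ((Complex.conjCLE.hasFDerivAt (x := ζ)).const_mul m)).add
      (hpd ζ).hasFDerivAt
  refine ⟨fun z => W ((z - z0) / r), ?_, ?_⟩
  · have e1 : ContDiff ℝ (s + 1 : ℕ) (fun z : ℂ => W ((z - z0) / r)) :=
      hWc.comp ((contDiff_id.sub contDiff_const).div_const _)
    exact (e1.of_le (by exact_mod_cast Nat.le_succ s)).contDiffAt
  · have hev : ∀ᶠ z in nhds z0, ‖z - z0‖ < r / 8 := by
      have : Filter.Tendsto (fun z : ℂ => ‖z - z0‖) (nhds z0) (nhds ‖z0 - z0‖) :=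
        (continuous_id.sub continuous_const).norm.tendsto z0
      rw [sub_self, norm_zero] at this
      exact this.eventually (gt_mem_nhds (by positivity))
    filter_upwards [hev] with z hz
    set ζ : ℂ := (z - z0) / r with hζ
    have hrC : (r : ℂ) ≠ 0 := by exact_mod_cast hr.ne'
    have hζn : ‖ζ‖ < 1 / 8 := by
      rw [hζ, norm_div, Complex.norm_real, Real.norm_of_nonneg hr.le, div_lt_iff₀ hr]
      linarith
    have hzζ : z0 + r * ζ = z := by
      rw [hζ]
      field_simp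
      ring
    have hre : |ζ.re| < 1 / 2 := lt_of_le_of_lt (Complex.abs_re_le_norm ζ) (by linarith)
    have him : |ζ.im| < 1 / 2 := lt_of_le_of_lt (Complex.abs_im_le_norm ζ) (by linarith)
    have e1 : FS c ζ = μ z - m := by
      rw [hcf ζ hre him, hfe ζ hζn.le, hzζ]
    have e2 := W5_alg ha'.1 hc'.1 hae ζ
    rw [e1] at e2
    have e3 : m + FS a ζ = μ z * (1 + k ζ) := by
      rw [e2]
      ring
    have hk0 : 1 + k ζ ≠ 0 := by
      intro h
      have h2 : k ζ = -1 := by linear_combination h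
      have h3 := hk1 ζ
      rw [h2, norm_neg, norm_one] at h3
      exact lt_irrefl _ h3
    refine ⟨(1 + k ζ) / r, div_ne_zero hk0 hrC, ?_⟩
    intro v
    have hL : HasFDerivAt (fun z : ℂ => (z - z0) / r)
        ((r : ℂ)⁻¹ • ContinuousLinearMap.id ℝ ℂ) z := by
      have := ((hasFDerivAt_id (𝕜 := ℝ) z).sub_const z0).const_mul ((r : ℂ)⁻¹)
      refine this.congr_of_eventuallyEq (Filter.Eventually.of_forall fun y => ?_)
      simp only [id]
      rw [div_eq_mul_inv, mul_comm]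
    have hcomp := (hWd ζ).comp z hL
    have hfd : fderiv ℝ (fun z : ℂ => W ((z - z0) / r)) z = _ := hcomp.fderiv
    rw [hfd]
    simp only [ContinuousLinearMap.comp_apply, ContinuousLinearMap.add_apply,
      ContinuousLinearMap.smul_apply, ContinuousLinearMap.id_apply, smul_eq_mul,
      ContinuousLinearEquiv.coe_coe, Complex.conjCLE_apply]
    rw [prim_deriv ha'.2]
    have e4 : (starRingEnd ℂ) ((r : ℂ)⁻¹ * v) = (r : ℂ)⁻¹ * (starRingEnd ℂ) v := by
      rw [map_mul, map_inv₀, Complex.conj_ofReal]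
    rw [e4]
    have e5 : (r : ℂ)⁻¹ * v + m * ((r : ℂ)⁻¹ * (starRingEnd ℂ) v) +
        (FS (fun n => sg n * a n) ζ * ((r : ℂ)⁻¹ * v) + FS a ζ * ((r : ℂ)⁻¹ * (starRingEnd ℂ) v)) =
        (r : ℂ)⁻¹ * ((1 + k ζ) * v + (m + FS a ζ) * (starRingEnd ℂ) v) := by
      rw [hk]
      ring
    rw [e5, e3, div_eq_mul_inv]
    ring

end W5

section W6

open F10S
open scoped ContDiff

/-- the point of the upper half plane belonging to the metric -/
private noncomputable def W6_tau (E F G : ℝ) : ℂ :=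
  ((F : ℂ) + (√(E * G - F ^ 2) : ℝ) * Complex.I) * ((E : ℂ))⁻¹

private theorem W6_tau_re {E F G : ℝ} (hE : 0 < E) : (W6_tau E F G).re = F / E := by
  have : W6_tau E F G = ((F / E : ℝ) : ℂ) + ((√(E * G - F ^ 2) / E : ℝ) : ℂ) * Complex.I := by
    unfold W6_tau
    have : (E : ℂ) ≠ 0 := by exact_mod_cast hE.ne'
    push_cast
    field_simp
  rw [this, Complex.add_re, Complex.ofReal_re, Complex.re_ofReal_mul, Complex.I_re, mul_zero,
    add_zero]

private theorem W6_tau_im {E F G : ℝ} (hE : 0 < E) :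
    (W6_tau E F G).im = √(E * G - F ^ 2) / E := by
  have : W6_tau E F G = ((F / E : ℝ) : ℂ) + ((√(E * G - F ^ 2) / E : ℝ) : ℂ) * Complex.I := by
    unfold W6_tau
    have : (E : ℂ) ≠ 0 := by exact_mod_cast hE.ne'
    push_cast
    field_simp
  rw [this, Complex.add_im, Complex.ofReal_im, Complex.im_ofReal_mul, Complex.I_im, mul_one,
    zero_add]

private theorem W6_im_pos {E F G : ℝ} (hE : 0 < E) (h : 0 < E * G - F ^ 2) :
    0 < (W6_tau E F G).im := by
  rw [W6_tau_im hE]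
  exact div_pos (Real.sqrt_pos.mpr h) hE

private theorem W6_den {τ : ℂ} (h : 0 < τ.im) : 1 - Complex.I * τ ≠ 0 := by
  intro h0
  have := congrArg Complex.re h0
  simp at this
  linarith

private theorem W6_norm {τ : ℂ} (h : 0 < τ.im) :
    ‖(1 + Complex.I * τ) * (1 - Complex.I * τ)⁻¹‖ < 1 := by
  rw [norm_mul, norm_inv, ← div_eq_mul_inv, div_lt_one (norm_pos_iff.mpr (W6_den h))]
  have e : ∀ z : ℂ, ‖z‖ ^ 2 = z.re * z.re + z.im * z.im := by
    intro z
    rw [← Complex.normSq_eq_norm_sq, Complex.normSq_apply]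
  have h1 : ‖1 + Complex.I * τ‖ ^ 2 < ‖1 - Complex.I * τ‖ ^ 2 := by
    rw [e, e]
    simp
    nlinarith
  exact lt_of_pow_lt_pow_left₀ 2 (norm_nonneg _) h1

/-- Row W6. `μ = (1 + iτ)/(1 - iτ)`, `τ = (F + i √(EG - F²)) / E`; then `w_x = p (1 + μ)`,
`w_y = i p (1 - μ) = τ w_x`. -/
theorem isothermal {E F G : ℂ → ℝ} {Ω : Set ℂ} (hΩ : IsOpen Ω) (hE : ContDiffOn ℝ ∞ E Ω)
    (hF : ContDiffOn ℝ ∞ F Ω) (hG : ContDiffOn ℝ ∞ G Ω) (hpE : ∀ z ∈ Ω, 0 < E z)
    (hp : ∀ z ∈ Ω, 0 < E z * G z - F z ^ 2) {z0 : ℂ} (hz0 : z0 ∈ Ω) (s : ℕ) :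
    ∃ w : ℂ → ℂ, ContDiffAt ℝ s w z0 ∧ ∀ᶠ z in nhds z0, 0 < jac w z ∧
      ∃ ρ : ℝ, 0 < ρ ∧ ∀ v : ℂ, ‖fderiv ℝ w z v‖ ^ 2 = ρ * qf E F G z v := by
  set τ : ℂ → ℂ := fun z => W6_tau (E z) (F z) (G z) with hτ
  have hc : ∀ f : ℂ → ℝ, ContDiffOn ℝ ∞ f Ω → ContDiffOn ℝ ∞ (fun z => (f z : ℂ)) Ω :=
    fun f hf => Complex.ofRealCLM.contDiff.comp_contDiffOn hf
  have hτs : ContDiffOn ℝ ∞ τ Ω := by
    have h1 : ContDiffOn ℝ ∞ (fun z => √(E z * G z - F z ^ 2)) Ω :=
      ((hE.mul hG).sub (hF.pow 2)).sqrt fun z hz => (hp z hz).ne'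
    refine ContDiffOn.mul ((hc F hF).add ((hc _ h1).mul contDiffOn_const)) ?_
    exact (hc E hE).inv fun z hz => by exact_mod_cast (hpE z hz).ne'
  have hτi : ∀ z ∈ Ω, 0 < (τ z).im := fun z hz => W6_im_pos (hpE z hz) (hp z hz)
  set μ : ℂ → ℂ := fun z => (1 + Complex.I * τ z) * (1 - Complex.I * τ z)⁻¹ with hμ
  have hμs : ContDiffOn ℝ ∞ μ Ω := by
    refine ContDiffOn.mul (contDiffOn_const.add (contDiffOn_const.mul hτs)) ?_
    exact (contDiffOn_const.sub (contDiffOn_const.mul hτs)).inv fun z hz => W6_den (hτi z hz)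
  obtain ⟨w, hw, hev⟩ := beltrami hΩ hμs hz0 (W6_norm (hτi z0 hz0)) s
  refine ⟨w, hw, ?_⟩
  filter_upwards [hev, hΩ.mem_nhds hz0] with z hz hzΩ
  obtain ⟨p, hp0, hd⟩ := hz
  have hEz := hpE z hzΩ
  have hpz := hp z hzΩ
  have him := hτi z hzΩ
  have hden := W6_den him
  -- `w_x` and `w_y`
  set q : ℂ := p * (1 + μ z) with hq
  have hq1 : 1 + μ z = 2 * (1 - Complex.I * τ z)⁻¹ := by
    rw [hμ]
    field_simp
    ring
  have hq0 : q ≠ 0 := by
    rw [hq, hq1]
    exact mul_ne_zero hp0 (mul_ne_zero two_ne_zero (inv_ne_zero hden))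
  have hq2 : p * (Complex.I - μ z * Complex.I) = τ z * q := by
    rw [hq, hq1, hμ]
    field_simp
    ring_nf
    rw [Complex.I_sq]
    ring
  have hfd : ∀ v : ℂ, fderiv ℝ w z v = q * (v.re + τ z * v.im) := by
    intro v
    rw [hd v]
    have hv : v = v.re + v.im * Complex.I := (Complex.re_add_im v).symm
    have hcv : (starRingEnd ℂ) v = v.re - v.im * Complex.I := by
      apply Complex.ext <;> simp
    calc p * (v + μ z * (starRingEnd ℂ) v)
        = p * ((v.re + v.im * Complex.I) + μ z * (v.re - v.im * Complex.I)) := by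
          rw [hcv, ← hv]
      _ = p * (1 + μ z) * v.re + p * (Complex.I - μ z * Complex.I) * v.im := by ring
      _ = q * (v.re + τ z * v.im) := by
          rw [hq2, ← hq]
          ring
  have h1 : fderiv ℝ w z 1 = q := by
    rw [hfd]
    simp
  have h2 : fderiv ℝ w z Complex.I = τ z * q := by
    rw [hfd]
    simp
    ring
  have hqn : 0 < ‖q‖ ^ 2 := by
    have := norm_pos_iff.mpr hq0
    positivity
  constructor
  · unfold jac
    rw [h1, h2]
    have : (starRingEnd ℂ) q * (τ z * q) = ((‖q‖ ^ 2 : ℝ) : ℂ) * τ z := by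
      have e : (starRingEnd ℂ) q * q = ((‖q‖ ^ 2 : ℝ) : ℂ) := by
        rw [mul_comm, Complex.mul_conj, Complex.normSq_eq_norm_sq]
      rw [← e]
      ring
    rw [this, Complex.im_ofReal_mul]
    exact mul_pos hqn him
  · refine ⟨‖q‖ ^ 2 / E z, div_pos hqn hEz, ?_⟩
    intro v
    rw [hfd, norm_mul, mul_pow, div_mul_eq_mul_div, mul_div_assoc]
    congr 1
    rw [← Complex.normSq_eq_norm_sq, Complex.normSq_apply]
    have hre : (v.re + τ z * v.im : ℂ).re = v.re + F z / E z * v.im := by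
      rw [Complex.add_re, Complex.ofReal_re, Complex.re_mul_ofReal]
      rw [hτ]
      simp only
      rw [W6_tau_re hEz]
    have hi : (v.re + τ z * v.im : ℂ).im = √(E z * G z - F z ^ 2) / E z * v.im := by
      rw [Complex.add_im, Complex.ofReal_im, Complex.im_mul_ofReal, zero_add]
      rw [hτ]
      simp only
      rw [W6_tau_im hEz]
    rw [hre, hi]
    have hs := Real.mul_self_sqrt hpz.le
    unfold qf
    have e1 : √(E z * G z - F z ^ 2) / E z * v.im * (√(E z * G z - F z ^ 2) / E z * v.im) =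
        (E z * G z - F z ^ 2) / E z ^ 2 * v.im ^ 2 := by
      have : √(E z * G z - F z ^ 2) / E z * v.im * (√(E z * G z - F z ^ 2) / E z * v.im) =
        (√(E z * G z - F z ^ 2) * √(E z * G z - F z ^ 2)) / E z ^ 2 * v.im ^ 2 := by
        field_simp
      rw [this, hs]
    rw [e1]
    field_simp
    ring

end W6

end F10R
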