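import Pool.Agent.Lib.MP_f10cd3_gt.R.Defs

/-! Row W7: invariance of the Gauss curvature. -/

set_option autoImplicit false

namespace F10R

section W7

open F10S
open scoped ContDiff Topology

/-- directional derivative -/
private noncomputable def W7_D (v : ℂ) (f : ℂ → ℝ) (x : ℂ) : ℝ := fderiv ℝ f x v

section Rules
variable {f g : ℂ → ℝ} {x : ℂ}

private theorem W7_congr (v : ℂ) (h : f =ᶠ[𝓝 x] g) : W7_D v f x = W7_D v g x := by
  simp only [W7_D, h.fderiv_eq]

private theorem W7_congr' (v : ℂ) (h : f =ᶠ[𝓝 x] g) : W7_D v f =ᶠ[𝓝 x] W7_D v g := by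
  filter_upwards [h.eventually_nhds] with y hy using W7_congr v hy

private theorem W7_add (hf : DifferentiableAt ℝ f x) (hg : DifferentiableAt ℝ g x) (v : ℂ) :
    W7_D v (fun y => f y + g y) x = W7_D v f x + W7_D v g x := by
  simp only [W7_D]; rw [fderiv_fun_add hf hg]; simp

private theorem W7_const_mul (hf : DifferentiableAt ℝ f x) (c : ℝ) (v : ℂ) :
    W7_D v (fun y => c * f y) x = c * W7_D v f x := by
  simp only [W7_D]; rw [fderiv_const_mul hf]; simp

private theorem W7_mul (hf : DifferentiableAt ℝ f x) (hg : DifferentiableAt ℝ g x) (v : ℂ) :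
    W7_D v (fun y => f y * g y) x = W7_D v f x * g x + f x * W7_D v g x := by
  simp only [W7_D]; rw [fderiv_fun_mul hf hg]; simp [mul_comm]; ring

private theorem W7_exp (hf : DifferentiableAt ℝ f x) (v : ℂ) :
    W7_D v (fun y => Real.exp (2 * f y)) x = Real.exp (2 * f x) * (2 * W7_D v f x) := by
  have h1 : DifferentiableAt ℝ (fun y => 2 * f y) x := hf.const_mul 2
  have h2 : fderiv ℝ (fun y => Real.exp (2 * f y)) x = Real.exp (2 * f x) • fderiv ℝ (fun y => 2 * f y) x :=
    h1.hasFDerivAt.exp.fderiv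
  simp only [W7_D]
  rw [h2, fderiv_const_mul hf]
  simp

private theorem W7_cd (hf : ContDiffAt ℝ 2 f x) (v : ℂ) : ContDiffAt ℝ 1 (W7_D v f) x :=
  (hf.fderiv_right (m := 1) (by norm_num)).clm_apply contDiffAt_const

private theorem W7_cd3 (hf : ContDiffAt ℝ 3 f x) (v : ℂ) : ContDiffAt ℝ 2 (W7_D v f) x :=
  (hf.fderiv_right (m := 2) (by norm_num)).clm_apply contDiffAt_const

private theorem W7_diff (hf : ContDiffAt ℝ 2 f x) (v : ℂ) : DifferentiableAt ℝ (W7_D v f) x :=
  (W7_cd hf v).differentiableAt one_ne_zero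

private theorem W7_evd (hf : ContDiffAt ℝ 2 f x) : ∀ᶠ y in 𝓝 x, DifferentiableAt ℝ f y := by
  filter_upwards [hf.eventually (by simp)] with y hy using hy.differentiableAt (by norm_num)

/-- symmetry of the second derivative -/
private theorem W7_symm (hf : ContDiffAt ℝ 2 f x) (v w : ℂ) :
    W7_D v (W7_D w f) x = W7_D w (W7_D v f) x := by
  have hs : IsSymmSndFDerivAt ℝ f x := hf.isSymmSndFDerivAt (by simp)
  have hd : DifferentiableAt ℝ (fderiv ℝ f) x :=
    (hf.fderiv_right (m := 1) (by norm_num)).differentiableAt one_ne_zero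
  have e : ∀ v w : ℂ, fderiv ℝ (fun y => fderiv ℝ f y v) x w = fderiv ℝ (fderiv ℝ f) x w v := by
    intro v w
    rw [fderiv_clm_apply hd (differentiableAt_const v)]
    simp
  show fderiv ℝ (fun y => fderiv ℝ f y w) x v = fderiv ℝ (fun y => fderiv ℝ f y v) x w
  rw [e, e]
  exact hs v w

end Rules

section Prod
variable {L a b c d : ℂ → ℝ} {x : ℂ}

private theorem W7_first (hL : DifferentiableAt ℝ L x) (ha : DifferentiableAt ℝ a x)
    (hb : DifferentiableAt ℝ b x) (hc : DifferentiableAt ℝ c x) (hd : DifferentiableAt ℝ d x) (v : ℂ) :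
    W7_D v (fun y => Real.exp (2 * L y) * (a y * b y + c y * d y)) x =
      Real.exp (2 * L x) * (2 * W7_D v L x * (a x * b x + c x * d x) +
        (W7_D v a x * b x + a x * W7_D v b x + (W7_D v c x * d x + c x * W7_D v d x))) := by
  have h1 : DifferentiableAt ℝ (fun y => Real.exp (2 * L y)) x := (hL.const_mul 2).exp
  have h2 : DifferentiableAt ℝ (fun y => a y * b y) x := ha.mul hb
  have h3 : DifferentiableAt ℝ (fun y => c y * d y) x := hc.mul hd
  have h4 : DifferentiableAt ℝ (fun y => a y * b y + c y * d y) x := h2.add h3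
  rw [W7_mul h1 h4, W7_exp hL, W7_add h2 h3, W7_mul ha hb, W7_mul hc hd]
  ring

private theorem W7_second (hL : ContDiffAt ℝ 2 L x) (ha : ContDiffAt ℝ 2 a x)
    (hb : ContDiffAt ℝ 2 b x) (hc : ContDiffAt ℝ 2 c x) (hd : ContDiffAt ℝ 2 d x) (v w : ℂ) :
    W7_D w (W7_D v (fun y => Real.exp (2 * L y) * (a y * b y + c y * d y))) x =
      Real.exp (2 * L x) * (2 * W7_D w L x * (2 * W7_D v L x * (a x * b x + c x * d x) +
        (W7_D v a x * b x + a x * W7_D v b x + (W7_D v c x * d x + c x * W7_D v d x))) +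
        (2 * W7_D w (W7_D v L) x * (a x * b x + c x * d x) + 2 * W7_D v L x *
          (W7_D w a x * b x + a x * W7_D w b x + (W7_D w c x * d x + c x * W7_D w d x)) +
         (W7_D w (W7_D v a) x * b x + W7_D v a x * W7_D w b x + (W7_D w a x * W7_D v b x +
           a x * W7_D w (W7_D v b) x) + (W7_D w (W7_D v c) x * d x + W7_D v c x * W7_D w d x +
           (W7_D w c x * W7_D v d x + c x * W7_D w (W7_D v d) x))))) := by
  have ev : W7_D v (fun y => Real.exp (2 * L y) * (a y * b y + c y * d y)) =ᶠ[𝓝 x] fun y =>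
      Real.exp (2 * L y) * (2 * W7_D v L y * (a y * b y + c y * d y) +
        (W7_D v a y * b y + a y * W7_D v b y + (W7_D v c y * d y + c y * W7_D v d y))) := by
    filter_upwards [W7_evd hL, W7_evd ha, W7_evd hb, W7_evd hc, W7_evd hd] with y h1 h2 h3 h4 h5
    exact W7_first h1 h2 h3 h4 h5 v
  rw [W7_congr w ev]
  have dL : DifferentiableAt ℝ L x := hL.differentiableAt (by norm_num)
  have da : DifferentiableAt ℝ a x := ha.differentiableAt (by norm_num)
  have db : DifferentiableAt ℝ b x := hb.differentiableAt (by norm_num)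
  have dc : DifferentiableAt ℝ c x := hc.differentiableAt (by norm_num)
  have dd : DifferentiableAt ℝ d x := hd.differentiableAt (by norm_num)
  have dL' := W7_diff hL v
  have da' := W7_diff ha v
  have db' := W7_diff hb v
  have dc' := W7_diff hc v
  have dd' := W7_diff hd v
  have m1 : DifferentiableAt ℝ (fun y => a y * b y) x := da.mul db
  have m2 : DifferentiableAt ℝ (fun y => c y * d y) x := dc.mul dd
  have m3 : DifferentiableAt ℝ (fun y => a y * b y + c y * d y) x := m1.add m2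
  have m4 : DifferentiableAt ℝ (fun y => W7_D v a y * b y) x := da'.mul db
  have m5 : DifferentiableAt ℝ (fun y => a y * W7_D v b y) x := da.mul db'
  have m6 : DifferentiableAt ℝ (fun y => W7_D v c y * d y) x := dc'.mul dd
  have m7 : DifferentiableAt ℝ (fun y => c y * W7_D v d y) x := dc.mul dd'
  have m8 : DifferentiableAt ℝ (fun y => W7_D v a y * b y + a y * W7_D v b y) x := m4.add m5
  have m9 : DifferentiableAt ℝ (fun y => W7_D v c y * d y + c y * W7_D v d y) x := m6.add m7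
  have m10 : DifferentiableAt ℝ (fun y => W7_D v a y * b y + a y * W7_D v b y +
    (W7_D v c y * d y + c y * W7_D v d y)) x := m8.add m9
  have m11 : DifferentiableAt ℝ (fun y => 2 * W7_D v L y) x := dL'.const_mul 2
  have m12 : DifferentiableAt ℝ (fun y => 2 * W7_D v L y * (a y * b y + c y * d y)) x := m11.mul m3
  have m13 : DifferentiableAt ℝ (fun y => 2 * W7_D v L y * (a y * b y + c y * d y) +
    (W7_D v a y * b y + a y * W7_D v b y + (W7_D v c y * d y + c y * W7_D v d y))) x := m12.add m10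
  have m14 : DifferentiableAt ℝ (fun y => Real.exp (2 * L y)) x := (dL.const_mul 2).exp
  rw [W7_mul m14 m13, W7_exp dL, W7_add m12 m10, W7_mul m11 m3, W7_const_mul dL', W7_add m1 m2,
    W7_mul da db, W7_mul dc dd, W7_add m8 m9, W7_add m4 m5, W7_add m6 m7, W7_mul da' db,
    W7_mul da db', W7_mul dc' dd, W7_mul dc dd']
  ring

end Prod

/-- chain rule -/
private theorem W7_comp {u : ℂ → ℝ} {w : ℂ → ℂ} {x : ℂ} (hw : DifferentiableAt ℝ w x)
    (hu : DifferentiableAt ℝ u (w x)) (v : ℂ) :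
    W7_D v (fun y => u (w y)) x = W7_D 1 u (w x) * W7_D v (fun y => (w y).re) x +
      W7_D Complex.I u (w x) * W7_D v (fun y => (w y).im) x := by
  have h1 : fderiv ℝ (fun y => u (w y)) x = (fderiv ℝ u (w x)).comp (fderiv ℝ w x) :=
    fderiv_comp x hu hw
  have h2 : fderiv ℝ (fun y => (w y).re) x = Complex.reCLM.comp (fderiv ℝ w x) :=
    (Complex.reCLM.hasFDerivAt.comp x hw.hasFDerivAt).fderiv
  have h3 : fderiv ℝ (fun y => (w y).im) x = Complex.imCLM.comp (fderiv ℝ w x) :=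
    (Complex.imCLM.hasFDerivAt.comp x hw.hasFDerivAt).fderiv
  simp only [W7_D]
  rw [h1, h2, h3]
  simp only [ContinuousLinearMap.comp_apply, Complex.reCLM_apply, Complex.imCLM_apply]
  generalize fderiv ℝ w x v = t
  have ht : t = t.re • (1 : ℂ) + t.im • Complex.I := by
    apply Complex.ext <;> simp
  conv_lhs => rw [ht]
  rw [map_add, map_smul, map_smul]
  simp only [smul_eq_mul]
  ring

private theorem W7_norm {w : ℂ → ℂ} {x : ℂ} (hw : DifferentiableAt ℝ w x) (v : ℂ) :
    W7_D v (fun y => (w y).re) x = (fderiv ℝ w x v).re ∧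
    W7_D v (fun y => (w y).im) x = (fderiv ℝ w x v).im := by
  have h2 : fderiv ℝ (fun y => (w y).re) x = Complex.reCLM.comp (fderiv ℝ w x) :=
    (Complex.reCLM.hasFDerivAt.comp x hw.hasFDerivAt).fderiv
  have h3 : fderiv ℝ (fun y => (w y).im) x = Complex.imCLM.comp (fderiv ℝ w x) :=
    (Complex.imCLM.hasFDerivAt.comp x hw.hasFDerivAt).fderiv
  constructor
  · simp only [W7_D]; rw [h2]; simp
  · simp only [W7_D]; rw [h3]; simp

/-- the algebraic identity (Gauss equation of a flat metric times `e^{2L}`) -/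
private theorem W7_alg {A B C D Ax Ay Bx By Cy Dy Axy Bxy Ayy Byy u1 u2 u11 u12 u22 lam : ℝ}
    {E F G Ex Ey Fx Fy Gx Gy Eyy Fxy Gxx Lx Ly Lxx Lxy Lyy : ℝ}
    (hLx : Lx = u1 * A + u2 * B) (hLy : Ly = u1 * C + u2 * D)
    (hLxx : Lxx = (u11 * A + u12 * B) * A + u1 * Ax + ((u12 * A + u22 * B) * B + u2 * Bx))
    (hLxy : Lxy = (u11 * C + u12 * D) * A + u1 * Ay + ((u12 * C + u22 * D) * B + u2 * By))
    (hLyy : Lyy = (u11 * C + u12 * D) * C + u1 * Cy + ((u12 * C + u22 * D) * D + u2 * Dy))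
    (hE : E = lam * (A * A + B * B)) (hF : F = lam * (A * C + B * D)) (hG : G = lam * (C * C + D * D))
    (hEx : Ex = lam * (2 * Lx * (A * A + B * B) + (Ax * A + A * Ax + (Bx * B + B * Bx))))
    (hEy : Ey = lam * (2 * Ly * (A * A + B * B) + (Ay * A + A * Ay + (By * B + B * By))))
    (hFx : Fx = lam * (2 * Lx * (A * C + B * D) + (Ax * C + A * Ay + (Bx * D + B * By))))
    (hFy : Fy = lam * (2 * Ly * (A * C + B * D) + (Ay * C + A * Cy + (By * D + B * Dy))))
    (hGx : Gx = lam * (2 * Lx * (C * C + D * D) + (Ay * C + C * Ay + (By * D + D * By))))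
    (hGy : Gy = lam * (2 * Ly * (C * C + D * D) + (Cy * C + C * Cy + (Dy * D + D * Dy))))
    (hEyy : Eyy = lam * (2 * Ly * (2 * Ly * (A * A + B * B) + (Ay * A + A * Ay + (By * B + B * By))) +
        (2 * Lyy * (A * A + B * B) + 2 * Ly * (Ay * A + A * Ay + (By * B + B * By)) +
         (Ayy * A + Ay * Ay + (Ay * Ay + A * Ayy) + (Byy * B + By * By + (By * By + B * Byy))))))
    (hFxy : Fxy = lam * (2 * Ly * (2 * Lx * (A * C + B * D) + (Ax * C + A * Ay + (Bx * D + B * By))) +
        (2 * Lxy * (A * C + B * D) + 2 * Lx * (Ay * C + A * Cy + (By * D + B * Dy)) +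
         (Axy * C + Ax * Cy + (Ay * Ay + A * Ayy) + (Bxy * D + Bx * Dy + (By * By + B * Byy))))))
    (hGxx : Gxx = lam * (2 * Lx * (2 * Lx * (C * C + D * D) + (Ay * C + C * Ay + (By * D + D * By))) +
        (2 * Lxx * (C * C + D * D) + 2 * Lx * (Ay * C + C * Ay + (By * D + D * By)) +
         (Axy * C + Ay * Ay + (Ay * Ay + C * Axy) + (Bxy * D + By * By + (By * By + D * Bxy)))))) :
    (Matrix.det !![-Eyy / 2 + Fxy - Gxx / 2, Ex / 2, Fx - Ey / 2;
      Fy - Gx / 2, E, F; Gy / 2, F, G] -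
    Matrix.det !![0, Ey / 2, Gx / 2; Ey / 2, E, F; Gx / 2, F, G]) =
      -(u11 + u22) * lam ^ 3 * (A * D - B * C) ^ 4 := by
  rw [Matrix.det_fin_three, Matrix.det_fin_three]
  simp only [Matrix.of_apply, Matrix.cons_val', Matrix.cons_val_zero, Matrix.cons_val_fin_one,
    Matrix.cons_val_one, Matrix.cons_val]
  subst hE hF hG hEx hEy hFx hFy hGx hGy hEyy hFxy hGxx
  subst hLxx hLxy hLyy
  subst hLx hLy
  ring

/-- Row W7. With `w = X + iY`: `E = e^{2u∘w}(X_x² + Y_x²)`, `F = e^{2u∘w}(X_x X_y + Y_x Y_y)`,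
`G = e^{2u∘w}(X_y² + Y_y²)` near `z`; compute the derivatives of `E`, `F`, `G` (second derivatives
of `w` are symmetric) and verify the polynomial identity (the third derivatives of `w` cancel,
`E G - F² = e^{4u} (X_x Y_y - X_y Y_x)²`).  Alternatively: `w` may first be replaced by `w` minus
its value, and one may first treat `e^{2u}` and `w` separately. -/
theorem gaussK_pull {E F G : ℂ → ℝ} {u : ℂ → ℝ} {w : ℂ → ℂ} {z : ℂ} (hw : ContDiffAt ℝ 3 w z)
    (hu : ContDiffAt ℝ 2 u (w z)) (hj : 0 < jac w z)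
    (h : ∀ᶠ x in nhds z, ∀ v : ℂ, qf E F G x v =
      Real.exp (2 * u (w x)) * ‖fderiv ℝ w x v‖ ^ 2) :
    lap u (w z) = -gaussK E F G z * Real.exp (2 * u (w z)) := by
  set X : ℂ → ℝ := fun y => (w y).re with hX
  set Y : ℂ → ℝ := fun y => (w y).im with hY
  set L : ℂ → ℝ := fun y => u (w y) with hL
  have cX : ContDiffAt ℝ 3 X z := Complex.reCLM.contDiff.contDiffAt.comp z hw
  have cY : ContDiffAt ℝ 3 Y z := Complex.imCLM.contDiff.contDiffAt.comp z hw
  have cw2 : ContDiffAt ℝ 2 w z := hw.of_le (by norm_num)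
  have cL : ContDiffAt ℝ 2 L z := ContDiffAt.comp z hu cw2
  have cX2 : ContDiffAt ℝ 2 X z := cX.of_le (by norm_num)
  have cY2 : ContDiffAt ℝ 2 Y z := cY.of_le (by norm_num)
  have dw : ∀ᶠ x in 𝓝 z, DifferentiableAt ℝ w x := by
    filter_upwards [cw2.eventually (by simp)] with y hy using hy.differentiableAt (by norm_num)
  have du : ∀ᶠ x in 𝓝 z, DifferentiableAt ℝ u (w x) :=
    cw2.continuousAt.eventually (W7_evd hu)
  -- the coefficients near `z`
  have hsq : ∀ t : ℂ, ‖t‖ ^ 2 = t.re * t.re + t.im * t.im := by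
    intro t
    rw [← Complex.normSq_eq_norm_sq, Complex.normSq_apply]
  have eE : E =ᶠ[𝓝 z] fun x => Real.exp (2 * L x) * (W7_D 1 X x * W7_D 1 X x + W7_D 1 Y x * W7_D 1 Y x) := by
    filter_upwards [h, dw] with x hx hd
    have h1 := hx 1
    simp only [qf, Complex.one_re, Complex.one_im] at h1
    rw [hsq] at h1
    rw [(W7_norm hd 1).1, (W7_norm hd 1).2]
    linarith
  have eG : G =ᶠ[𝓝 z] fun x => Real.exp (2 * L x) *
      (W7_D Complex.I X x * W7_D Complex.I X x + W7_D Complex.I Y x * W7_D Complex.I Y x) := by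
    filter_upwards [h, dw] with x hx hd
    have h1 := hx Complex.I
    simp only [qf, Complex.I_re, Complex.I_im] at h1
    rw [hsq] at h1
    rw [(W7_norm hd _).1, (W7_norm hd _).2]
    linarith
  have eF : F =ᶠ[𝓝 z] fun x => Real.exp (2 * L x) *
      (W7_D 1 X x * W7_D Complex.I X x + W7_D 1 Y x * W7_D Complex.I Y x) := by
    filter_upwards [h, dw] with x hx hd
    have h1 := hx 1
    have h2 := hx Complex.I
    have h3 := hx (1 + Complex.I)
    simp only [qf, Complex.I_re, Complex.I_im, Complex.one_re, Complex.one_im, Complex.add_re,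
      Complex.add_im, map_add] at h1 h2 h3
    rw [hsq] at h1 h2 h3
    rw [Complex.add_re, Complex.add_im] at h3
    rw [(W7_norm hd _).1, (W7_norm hd _).2, (W7_norm hd _).1, (W7_norm hd _).2]
    have e : Real.exp (2 * L x) = Real.exp (2 * u (w x)) := rfl
    rw [e]
    linear_combination (h3 - h1 - h2) / 2
  -- derivatives of `L`
  have eL : ∀ v : ℂ, W7_D v L =ᶠ[𝓝 z] fun x => W7_D 1 u (w x) * W7_D v X x +
      W7_D Complex.I u (w x) * W7_D v Y x := by
    intro v
    filter_upwards [dw, du] with x h1 h2 using W7_comp h1 h2 v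
  have dwz : DifferentiableAt ℝ w z := dw.self_of_nhds
  have dU1 : ∀ v v' : ℂ, W7_D v (fun x => W7_D v' u (w x)) z =
      W7_D 1 (W7_D v' u) (w z) * W7_D v X z + W7_D Complex.I (W7_D v' u) (w z) * W7_D v Y z :=
    fun v v' => W7_comp dwz (W7_diff hu v') v
  have dU : ∀ v' : ℂ, DifferentiableAt ℝ (fun x => W7_D v' u (w x)) z :=
    fun v' => (W7_diff hu v').comp z dwz
  have eLL : ∀ v v' : ℂ, W7_D v' (W7_D v L) z =
      (W7_D 1 (W7_D 1 u) (w z) * W7_D v' X z + W7_D Complex.I (W7_D 1 u) (w z) * W7_D v' Y z) * W7_D v X z +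
      W7_D 1 u (w z) * W7_D v' (W7_D v X) z +
      ((W7_D 1 (W7_D Complex.I u) (w z) * W7_D v' X z +
        W7_D Complex.I (W7_D Complex.I u) (w z) * W7_D v' Y z) * W7_D v Y z +
      W7_D Complex.I u (w z) * W7_D v' (W7_D v Y) z) := by
    intro v v'
    have n1 : DifferentiableAt ℝ (fun x => W7_D 1 u (w x) * W7_D v X x) z :=
      (dU 1).mul (W7_diff cX2 v)
    have n2 : DifferentiableAt ℝ (fun x => W7_D Complex.I u (w x) * W7_D v Y x) z :=
      (dU Complex.I).mul (W7_diff cY2 v)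
    rw [W7_congr v' (eL v), W7_add n1 n2, W7_mul (dU 1) (W7_diff cX2 v),
      W7_mul (dU Complex.I) (W7_diff cY2 v), dU1, dU1]
  -- symmetries
  have sX : W7_D 1 (W7_D Complex.I X) =ᶠ[𝓝 z] W7_D Complex.I (W7_D 1 X) := by
    filter_upwards [cX2.eventually (by simp)] with y hy using W7_symm hy _ _
  have sY : W7_D 1 (W7_D Complex.I Y) =ᶠ[𝓝 z] W7_D Complex.I (W7_D 1 Y) := by
    filter_upwards [cY2.eventually (by simp)] with y hy using W7_symm hy _ _
  have sXz := sX.self_of_nhds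
  have sYz := sY.self_of_nhds
  have sX3 : W7_D Complex.I (W7_D 1 (W7_D Complex.I X)) z = W7_D Complex.I (W7_D Complex.I (W7_D 1 X)) z :=
    W7_congr _ sX
  have sY3 : W7_D Complex.I (W7_D 1 (W7_D Complex.I Y)) z = W7_D Complex.I (W7_D Complex.I (W7_D 1 Y)) z :=
    W7_congr _ sY
  have sX4 : W7_D 1 (W7_D 1 (W7_D Complex.I X)) z = W7_D Complex.I (W7_D 1 (W7_D 1 X)) z := by
    rw [W7_congr _ sX]; exact W7_symm (W7_cd3 cX 1) _ _
  have sY4 : W7_D 1 (W7_D 1 (W7_D Complex.I Y)) z = W7_D Complex.I (W7_D 1 (W7_D 1 Y)) z := by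
    rw [W7_congr _ sY]; exact W7_symm (W7_cd3 cY 1) _ _
  have su : W7_D 1 (W7_D Complex.I u) (w z) = W7_D Complex.I (W7_D 1 u) (w z) := W7_symm hu _ _
  have cA := W7_cd3 cX 1
  have cB := W7_cd3 cY 1
  have cC := W7_cd3 cX Complex.I
  have cD := W7_cd3 cY Complex.I
  have dL := cL.differentiableAt (by norm_num : (2 : WithTop ℕ∞) ≠ 0)
  have dA := cA.differentiableAt (by norm_num : (2 : WithTop ℕ∞) ≠ 0)
  have dB := cB.differentiableAt (by norm_num : (2 : WithTop ℕ∞) ≠ 0)
  have dC := cC.differentiableAt (by norm_num : (2 : WithTop ℕ∞) ≠ 0)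
  have dD := cD.differentiableAt (by norm_num : (2 : WithTop ℕ∞) ≠ 0)
  have q1 : dx E z = W7_D 1 E z := rfl
  have q2 : dy E z = W7_D Complex.I E z := rfl
  have q3 : dx F z = W7_D 1 F z := rfl
  have q4 : dy F z = W7_D Complex.I F z := rfl
  have q5 : dx G z = W7_D 1 G z := rfl
  have q6 : dy G z = W7_D Complex.I G z := rfl
  have q7 : dy (dy E) z = W7_D Complex.I (W7_D Complex.I E) z := rfl
  have q8 : dy (dx F) z = W7_D Complex.I (W7_D 1 F) z := rfl
  have q9 : dx (dx G) z = W7_D 1 (W7_D 1 G) z := rfl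
  have key := W7_alg (A := W7_D 1 X z) (B := W7_D 1 Y z) (C := W7_D Complex.I X z)
    (D := W7_D Complex.I Y z) (Ax := W7_D 1 (W7_D 1 X) z) (Ay := W7_D Complex.I (W7_D 1 X) z)
    (Bx := W7_D 1 (W7_D 1 Y) z) (By := W7_D Complex.I (W7_D 1 Y) z)
    (Cy := W7_D Complex.I (W7_D Complex.I X) z) (Dy := W7_D Complex.I (W7_D Complex.I Y) z)
    (Axy := W7_D Complex.I (W7_D 1 (W7_D 1 X)) z) (Bxy := W7_D Complex.I (W7_D 1 (W7_D 1 Y)) z)
    (Ayy := W7_D Complex.I (W7_D Complex.I (W7_D 1 X)) z)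
    (Byy := W7_D Complex.I (W7_D Complex.I (W7_D 1 Y)) z)
    (u1 := W7_D 1 u (w z)) (u2 := W7_D Complex.I u (w z)) (u11 := W7_D 1 (W7_D 1 u) (w z))
    (u12 := W7_D Complex.I (W7_D 1 u) (w z)) (u22 := W7_D Complex.I (W7_D Complex.I u) (w z))
    (lam := Real.exp (2 * L z)) (E := E z) (F := F z) (G := G z) (Ex := dx E z) (Ey := dy E z)
    (Fx := dx F z) (Fy := dy F z) (Gx := dx G z) (Gy := dy G z) (Eyy := dy (dy E) z)
    (Fxy := dy (dx F) z) (Gxx := dx (dx G) z) (Lx := W7_D 1 L z) (Ly := W7_D Complex.I L z)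
    (Lxx := W7_D 1 (W7_D 1 L) z) (Lxy := W7_D Complex.I (W7_D 1 L) z)
    (Lyy := W7_D Complex.I (W7_D Complex.I L) z)
    (eL 1).self_of_nhds (eL Complex.I).self_of_nhds
    (by rw [eLL, su]) (by rw [eLL, su]) (by rw [eLL, su])
    eE.self_of_nhds eF.self_of_nhds eG.self_of_nhds
    (by rw [q1, W7_congr _ eE, W7_first dL dA dA dB dB])
    (by rw [q2, W7_congr _ eE, W7_first dL dA dA dB dB])
    (by rw [q3, W7_congr _ eF, W7_first dL dA dC dB dD, sXz, sYz])
    (by rw [q4, W7_congr _ eF, W7_first dL dA dC dB dD])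
    (by rw [q5, W7_congr _ eG, W7_first dL dC dC dD dD, sXz, sYz])
    (by rw [q6, W7_congr _ eG, W7_first dL dC dC dD dD])
    (by rw [q7, W7_congr _ (W7_congr' _ eE), W7_second cL cA cA cB cB])
    (by rw [q8, W7_congr _ (W7_congr' _ eF), W7_second cL cA cC cB cD, sXz, sYz, sX3, sY3])
    (by rw [q9, W7_congr _ (W7_congr' _ eG), W7_second cL cC cC cD cD, sXz, sYz, sX4, sY4])
  have hlap : lap u (w z) = W7_D 1 (W7_D 1 u) (w z) + W7_D Complex.I (W7_D Complex.I u) (w z) := rfl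
  have hjac : jac w z = W7_D 1 X z * W7_D Complex.I Y z - W7_D 1 Y z * W7_D Complex.I X z := by
    rw [(W7_norm dwz 1).1, (W7_norm dwz 1).2, (W7_norm dwz Complex.I).1, (W7_norm dwz Complex.I).2,
      jac, Complex.mul_im, Complex.conj_re, Complex.conj_im]
    ring
  have hden : E z * G z - F z ^ 2 = Real.exp (2 * L z) ^ 2 * jac w z ^ 2 := by
    rw [eE.self_of_nhds, eF.self_of_nhds, eG.self_of_nhds, hjac]
    ring
  rw [gaussK, key, hden, ← hjac, hlap]
  have hl : Real.exp (2 * u (w z)) = Real.exp (2 * L z) := rfl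
  rw [hl]
  have hp := Real.exp_pos (2 * L z)
  field_simp

end W7

end F10R
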