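import Pool.Agent.Lib.MP_f10cd3_gt.R.Bel
import Pool.Agent.Lib.MP_f10cd3_gt.R.Curv

/-! Rows C1: isothermal charts. -/

set_option autoImplicit false

namespace F10R


open MPf10cd3 F10G F10S
open scoped ContDiff

/-- the conformal chart `c'` is compatible with the chart `c` -/
def Comp {Y : Type} (c : RC Y) (c' : PC Y) : Prop :=
  ∀ z ∈ c.U, ∀ z' ∈ c'.U, c.φ z = c'.φ z' → ∃ T : ℂ → ℂ, T z = z' ∧ ContDiffAt ℝ 5 T z ∧
    0 < jac T z ∧ ∀ᶠ x in nhds z, T x ∈ c'.U ∧ c'.φ (T x) = c.φ x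

variable {Y : Type} [MetricSpace Y] {κ : ℝ} {c : RC Y}

section C1a

private theorem C1a_equiv (A : ℂ →L[ℝ] ℂ) (h : 0 < ((starRingEnd ℂ) (A 1) * A Complex.I).im) :
    ∃ e : ℂ ≃L[ℝ] ℂ, (e : ℂ →L[ℝ] ℂ) = A := by
  have hdec : ∀ v : ℂ, A v = v.re * A 1 + v.im * A Complex.I := by
    intro v
    have hv : v = v.re • (1 : ℂ) + v.im • Complex.I := by
      apply Complex.ext <;> simp
    conv_lhs => rw [hv]
    rw [map_add, map_smul, map_smul, Complex.real_smul, Complex.real_smul]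
  have hinj : Function.Injective (A : ℂ →ₗ[ℝ] ℂ) := by
    rw [injective_iff_map_eq_zero]
    intro v hv
    have hv' : A v = 0 := hv
    rw [hdec v] at hv'
    have h1 : ((starRingEnd ℂ) (A 1) * (v.re * A 1 + v.im * A Complex.I)).im = 0 := by
      rw [hv']
      simp
    have h2 : ((starRingEnd ℂ) (A 1) * (v.re * A 1 + v.im * A Complex.I)).im =
        v.im * ((starRingEnd ℂ) (A 1) * A Complex.I).im := by
      simp only [Complex.mul_im, Complex.add_im, Complex.add_re, Complex.mul_re, Complex.ofReal_re,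
        Complex.ofReal_im, Complex.conj_re, Complex.conj_im]
      ring
    rw [h2] at h1
    have h3 : v.im = 0 := by
      rcases mul_eq_zero.1 h1 with h4 | h4
      · exact h4
      · exact absurd h4 h.ne'
    rw [h3] at hv'
    have h5 : A 1 ≠ 0 := by
      intro h6
      rw [h6] at h
      simp at h
    have h6 : v.re = 0 := by
      have h7 : (v.re : ℂ) * A 1 = 0 := by simpa using hv'
      rcases mul_eq_zero.1 h7 with h8 | h8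
      · exact_mod_cast h8
      · exact absurd h8 h5
    exact Complex.ext (by simpa using h6) (by simpa using h3)
  refine ⟨(LinearEquiv.ofInjectiveEndo (A : ℂ →ₗ[ℝ] ℂ) hinj).toContinuousLinearEquiv, ?_⟩
  ext v
  simp

/-- Row C1a. `isothermal` with `s = 8`, inverse function theorem,
`u (w x) = (1/2) log (E x / ‖fderiv ℝ w x 1‖ ^ 2)` -/
theorem iso_data (hc : IsRC κ c) {z0 : ℂ} (hz0 : z0 ∈ c.U) :
    ∃ (W : Set ℂ) (w ψ : ℂ → ℂ) (u : ℂ → ℝ), IsOpen W ∧ z0 ∈ W ∧ W ⊆ c.U ∧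
      (∀ W' : Set ℂ, W' ⊆ W → IsOpen W' → IsOpen (w '' W')) ∧ ContDiffOn ℝ 5 u (w '' W) ∧
      ∀ z ∈ W, ContDiffAt ℝ 8 w z ∧ 0 < jac w z ∧ ψ (w z) = z ∧ ContDiffAt ℝ 8 ψ (w z) ∧
        ∀ v : ℂ, qf c.E c.F c.G z v = Real.exp (2 * u (w z)) * ‖fderiv ℝ w z v‖ ^ 2 := by
  obtain ⟨w, hw, hev⟩ := isothermal hc.isOpen hc.smoothE hc.smoothF hc.smoothG hc.posE hc.pos hz0 8
  have hw8 : ContDiffAt ℝ 8 w z0 := by exact_mod_cast hw
  have hj0 : 0 < jac w z0 := hev.self_of_nhds.1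
  obtain ⟨e0, he0⟩ := C1a_equiv (fderiv ℝ w z0) hj0
  have hd0 : HasFDerivAt w (e0 : ℂ →L[ℝ] ℂ) z0 := by
    rw [he0]
    exact (hw8.differentiableAt (by norm_num)).hasFDerivAt
  have h8 : (8 : WithTop ℕ∞) ≠ 0 := by norm_num
  set e := hw8.toOpenPartialHomeomorph w hd0 h8 with he
  have hes : z0 ∈ e.source := hw8.mem_toOpenPartialHomeomorph_source hd0 h8
  have hew : ∀ z, e z = w z := fun z => by
    rw [he, hw8.toOpenPartialHomeomorph_coe hd0 h8]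
  have hev8 : ∀ᶠ z in nhds z0, ContDiffAt ℝ 8 w z := hw8.eventually (by decide)
  have hall : ∀ᶠ z in nhds z0, z ∈ e.source ∧ z ∈ c.U ∧ ContDiffAt ℝ 8 w z ∧ 0 < jac w z ∧
      ∃ ρ : ℝ, 0 < ρ ∧ ∀ v : ℂ, ‖fderiv ℝ w z v‖ ^ 2 = ρ * qf c.E c.F c.G z v := by
    filter_upwards [e.open_source.mem_nhds hes, hc.isOpen.mem_nhds hz0, hev8, hev] with z a1 a2 a3 a4
    exact ⟨a1, a2, a3, a4.1, a4.2⟩
  obtain ⟨W, hWs, hWo, hzW⟩ := mem_nhds_iff.1 hall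
  have hWsrc : W ⊆ e.source := fun z hz => (hWs hz).1
  have himg : ∀ W' : Set ℂ, e '' W' = w '' W' := fun W' => Set.image_congr fun z _ => hew z
  have hopen : ∀ W' : Set ℂ, W' ⊆ W → IsOpen W' → IsOpen (w '' W') := by
    intro W' h1 h2
    rw [← himg]
    exact e.isOpen_image_of_subset_source h2 (h1.trans hWsrc)
  have hψ : ∀ z ∈ W, e.symm (w z) = z := fun z hz => by
    rw [← hew]
    exact e.left_inv (hWsrc hz)
  have hψ8 : ∀ z ∈ W, ContDiffAt ℝ 8 e.symm (w z) := by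
    intro z hz
    obtain ⟨_, _, h3, h4, _⟩ := hWs hz
    obtain ⟨e1, he1⟩ := C1a_equiv (fderiv ℝ w z) h4
    have ht : w z ∈ e.target := by
      rw [← hew]
      exact e.map_source (hWsrc hz)
    have hd : HasFDerivAt e (e1 : ℂ →L[ℝ] ℂ) (e.symm (w z)) := by
      rw [hψ z hz, he1]
      have := (h3.differentiableAt (by norm_num)).hasFDerivAt
      exact this.congr_of_eventuallyEq (Filter.Eventually.of_forall hew)
    refine e.contDiffAt_symm ht hd ?_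
    rw [hψ z hz]
    exact h3.congr_of_eventuallyEq (Filter.Eventually.of_forall hew)
  have h1ne : ∀ z ∈ W, fderiv ℝ w z 1 ≠ 0 := by
    intro z hz h0
    have h4 := (hWs hz).2.2.2.1
    unfold jac at h4
    rw [h0] at h4
    simp at h4
  refine ⟨W, w, e.symm, fun ζ => (1 / 2) * Real.log (c.E (e.symm ζ) /
    ‖fderiv ℝ w (e.symm ζ) 1‖ ^ 2), hWo, hzW, fun z hz => (hWs hz).2.1, hopen, ?_, ?_⟩
  · rintro _ ⟨z, hz, rfl⟩
    obtain ⟨h1, h2, h3, h4, _⟩ := hWs hz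
    apply ContDiffAt.contDiffWithinAt
    have p1 : ContDiffAt ℝ 5 e.symm (w z) := (hψ8 z hz).of_le (by norm_num)
    have p2 : ContDiffAt ℝ 5 (fun ζ => c.E (e.symm ζ)) (w z) := by
      have hE : ContDiffAt ℝ 5 c.E (e.symm (w z)) := by
        rw [hψ z hz]
        exact ((hc.smoothE z h2).contDiffAt (hc.isOpen.mem_nhds h2)).of_le (WithTop.coe_le_coe.2 (le_top : (5 : ℕ∞) ≤ ⊤))
      exact hE.comp (w z) p1
    have p3 : ContDiffAt ℝ 5 (fun ζ => fderiv ℝ w (e.symm ζ)) (w z) := by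
      have hD : ContDiffAt ℝ 5 (fderiv ℝ w) (e.symm (w z)) := by
        rw [hψ z hz]
        exact h3.fderiv_right (by norm_num)
      exact hD.comp (w z) p1
    have p4 : ContDiffAt ℝ 5 (fun ζ => ‖fderiv ℝ w (e.symm ζ) 1‖ ^ 2) (w z) :=
      (p3.clm_apply contDiffAt_const).norm_sq ℝ
    have p5 : ‖fderiv ℝ w (e.symm (w z)) 1‖ ^ 2 ≠ 0 := by
      rw [hψ z hz]
      exact pow_ne_zero 2 (norm_ne_zero_iff.2 (h1ne z hz))
    have p6 : c.E (e.symm (w z)) ≠ 0 := by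
      rw [hψ z hz]
      exact (hc.posE z h2).ne'
    exact contDiffAt_const.mul ((p2.div p4 p5).log (div_ne_zero p6 p5))
  · intro z hz
    obtain ⟨h1, h2, h3, h4, ρ, hρ, h5⟩ := hWs hz
    refine ⟨h3, h4, hψ z hz, hψ8 z hz, fun v => ?_⟩
    have hE : qf c.E c.F c.G z 1 = c.E z := by
      unfold qf
      simp
    have h6 : ‖fderiv ℝ w z 1‖ ^ 2 = ρ * c.E z := by rw [h5 1, hE]
    have hEz := hc.posE z h2
    beta_reduce
    rw [hψ z hz, h6, h5 v]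
    have h7 : c.E z / (ρ * c.E z) = ρ⁻¹ := by
      field_simp
    rw [h7]
    have h8 : (2 : ℝ) * (1 / 2 * Real.log ρ⁻¹) = Real.log ρ⁻¹ := by ring
    rw [h8, Real.exp_log (inv_pos.2 hρ)]
    field_simp

end C1a

section C1b

/-- Row C1b. the metric in the new chart: `ψ ζ - ψ η = Dψ (ζ - η) + o(‖ζ - η‖)` (strict
differentiability), `Dw ∘ Dψ = 1`, and the metric of `c` at `z0` -/
theorem iso_metric (hc : IsRC κ c) {W : Set ℂ} (hW : IsOpen W) (hWU : W ⊆ c.U) {w ψ : ℂ → ℂ}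
    {u : ℂ → ℝ} (hwo : ∀ W' : Set ℂ, W' ⊆ W → IsOpen W' → IsOpen (w '' W'))
    (h : ∀ z ∈ W, ContDiffAt ℝ 8 w z ∧ 0 < jac w z ∧ ψ (w z) = z ∧ ContDiffAt ℝ 8 ψ (w z) ∧
      ∀ v : ℂ, qf c.E c.F c.G z v = Real.exp (2 * u (w z)) * ‖fderiv ℝ w z v‖ ^ 2) {z0 : ℂ}
    (hz0 : z0 ∈ W) {ε : ℝ} (hε : 0 < ε) : ∃ η : ℝ, 0 < η ∧ ∀ a ∈ w '' W, ∀ b ∈ w '' W,
      ‖a - w z0‖ < η → ‖b - w z0‖ < η →
        |dist (c.φ (ψ a)) (c.φ (ψ b)) - Real.exp (u (w z0)) * ‖a - b‖| ≤ ε * ‖a - b‖ := by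
  obtain ⟨h8, -, hψw, hψ8, hq⟩ := h z0 hz0
  have hopen := hwo W subset_rfl hW
  have hsψ : HasStrictFDerivAt ψ (fderiv ℝ ψ (w z0)) (w z0) :=
    hψ8.hasStrictFDerivAt (by norm_num)
  have hwd : HasFDerivAt w (fderiv ℝ w z0) (ψ (w z0)) := by
    rw [hψw]
    exact (h8.differentiableAt (by norm_num)).hasFDerivAt
  have hcomp : ∀ v, fderiv ℝ w z0 (fderiv ℝ ψ (w z0) v) = v := by
    have h1 : HasFDerivAt (w ∘ ψ) ((fderiv ℝ w z0).comp (fderiv ℝ ψ (w z0))) (w z0) :=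
      hwd.comp (w z0) hsψ.hasFDerivAt
    have h2 : HasFDerivAt (w ∘ ψ) (ContinuousLinearMap.id ℝ ℂ) (w z0) := by
      apply (hasFDerivAt_id (w z0)).congr_of_eventuallyEq
      filter_upwards [hopen.mem_nhds ⟨z0, hz0, rfl⟩] with ζ hζ
      obtain ⟨z, hz, rfl⟩ := hζ
      simp [(h z hz).2.2.1]
    have h3 := h1.unique h2
    intro v
    exact congrArg (fun L : ℂ →L[ℝ] ℂ => L v) h3
  set Dψ := fderiv ℝ ψ (w z0) with hDψ
  set Dw := fderiv ℝ w z0 with hDw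
  set e := Real.exp (u (w z0)) with he
  have he0 : 0 < e := Real.exp_pos _
  have hsq : ∀ v, √(qf c.E c.F c.G z0 v) = e * ‖Dw v‖ := by
    intro v
    rw [hq v]
    have : Real.exp (2 * u (w z0)) * ‖Dw v‖ ^ 2 = (e * ‖Dw v‖) ^ 2 := by
      rw [mul_pow, he, ← Real.exp_nat_mul]
      norm_num
    rw [this, Real.sqrt_sq (by positivity)]
  set δ := min 1 (ε / (2 * (e * ‖Dw‖ + 1))) with hδ
  have hδ0 : 0 < δ := lt_min one_pos (by positivity)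
  have hδ1 : δ ≤ 1 := min_le_left _ _
  have hδ2 : e * ‖Dw‖ * δ ≤ ε / 2 := by
    have h1 : δ ≤ ε / (2 * (e * ‖Dw‖ + 1)) := min_le_right _ _
    have h2 : 0 ≤ e * ‖Dw‖ := by positivity
    have h3 : 0 < e * ‖Dw‖ + 1 := by positivity
    calc e * ‖Dw‖ * δ ≤ (e * ‖Dw‖ + 1) * (ε / (2 * (e * ‖Dw‖ + 1))) := by
          apply mul_le_mul _ h1 hδ0.le h3.le
          linarith
      _ = ε / 2 := by field_simp
  obtain ⟨η0, hη0, hmet⟩ := hc.metric z0 (hWU hz0) (ε / (2 * (‖Dψ‖ + 1))) (by positivity)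
  have hlit := hsψ.isLittleO.def hδ0
  obtain ⟨η1, hη1, hst⟩ := Metric.eventually_nhds_iff.mp hlit
  obtain ⟨η2, hη2, hcont⟩ := Metric.continuousAt_iff.mp hψ8.continuousAt η0 hη0
  refine ⟨min η1 η2, lt_min hη1 hη2, ?_⟩
  intro a ha b hb ha' hb'
  have hψa : ψ a ∈ W := by
    obtain ⟨z, hz, rfl⟩ := ha
    rw [(h z hz).2.2.1]; exact hz
  have hψb : ψ b ∈ W := by
    obtain ⟨z, hz, rfl⟩ := hb
    rw [(h z hz).2.2.1]; exact hz
  have hna : ‖ψ a - z0‖ < η0 := by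
    have := hcont (x := a) (by rw [dist_eq_norm]; exact ha'.trans_le (min_le_right _ _))
    rwa [hψw, dist_eq_norm] at this
  have hnb : ‖ψ b - z0‖ < η0 := by
    have := hcont (x := b) (by rw [dist_eq_norm]; exact hb'.trans_le (min_le_right _ _))
    rwa [hψw, dist_eq_norm] at this
  have h1 := hmet (ψ a) (hWU hψa) (ψ b) (hWU hψb) hna hnb
  rw [hsq] at h1
  have h2 := hst (y := (a, b)) (by
    rw [Prod.dist_eq, max_lt_iff, dist_eq_norm, dist_eq_norm]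
    exact ⟨ha'.trans_le (min_le_left _ _), hb'.trans_le (min_le_left _ _)⟩)
  simp only at h2
  set r := ψ a - ψ b - Dψ (a - b) with hr
  have hab : ψ a - ψ b = Dψ (a - b) + r := by rw [hr]; ring
  have hD : Dw (ψ a - ψ b) = (a - b) + Dw r := by rw [hab, map_add, hcomp]
  have h3 : |e * ‖Dw (ψ a - ψ b)‖ - e * ‖a - b‖| ≤ ε / 2 * ‖a - b‖ := by
    rw [hD, ← mul_sub, abs_mul, abs_of_pos he0]
    have h4 : |‖a - b + Dw r‖ - ‖a - b‖| ≤ ‖Dw r‖ := by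
      have := abs_norm_sub_norm_le (a - b + Dw r) (a - b)
      rwa [add_sub_cancel_left] at this
    have h5 : ‖Dw r‖ ≤ ‖Dw‖ * (δ * ‖a - b‖) := (Dw.le_opNorm r).trans
      (mul_le_mul_of_nonneg_left h2 (norm_nonneg _))
    calc e * |‖a - b + Dw r‖ - ‖a - b‖| ≤ e * (‖Dw‖ * (δ * ‖a - b‖)) :=
          mul_le_mul_of_nonneg_left (h4.trans h5) he0.le
      _ = (e * ‖Dw‖ * δ) * ‖a - b‖ := by ring
      _ ≤ ε / 2 * ‖a - b‖ := mul_le_mul_of_nonneg_right hδ2 (norm_nonneg _)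
  have h6 : ‖ψ a - ψ b‖ ≤ (‖Dψ‖ + 1) * ‖a - b‖ := by
    rw [hab]
    calc ‖Dψ (a - b) + r‖ ≤ ‖Dψ (a - b)‖ + ‖r‖ := norm_add_le _ _
      _ ≤ ‖Dψ‖ * ‖a - b‖ + δ * ‖a - b‖ := add_le_add (Dψ.le_opNorm _) h2
      _ ≤ ‖Dψ‖ * ‖a - b‖ + 1 * ‖a - b‖ := by
          have := mul_le_mul_of_nonneg_right hδ1 (norm_nonneg (a - b))
          linarith
      _ = (‖Dψ‖ + 1) * ‖a - b‖ := by ring
  have h7 : ε / (2 * (‖Dψ‖ + 1)) * ‖ψ a - ψ b‖ ≤ ε / 2 * ‖a - b‖ := by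
    have h8' : 0 < ‖Dψ‖ + 1 := by positivity
    calc ε / (2 * (‖Dψ‖ + 1)) * ‖ψ a - ψ b‖ ≤ ε / (2 * (‖Dψ‖ + 1)) * ((‖Dψ‖ + 1) * ‖a - b‖) :=
          mul_le_mul_of_nonneg_left h6 (by positivity)
      _ = ε / 2 * ‖a - b‖ := by field_simp
  calc |dist (c.φ (ψ a)) (c.φ (ψ b)) - e * ‖a - b‖|
      ≤ |dist (c.φ (ψ a)) (c.φ (ψ b)) - e * ‖Dw (ψ a - ψ b)‖| +
        |e * ‖Dw (ψ a - ψ b)‖ - e * ‖a - b‖| := abs_sub_le _ _ _
    _ ≤ ε / 2 * ‖a - b‖ + ε / 2 * ‖a - b‖ := add_le_add (h1.trans h7) h3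
    _ = ε * ‖a - b‖ := by ring

end C1b

section C1c

/-- Row C1c. the chart `⟨w '' W, c.φ ∘ ψ, u⟩`; curvature from `gaussK_pull` -/
theorem exists_iso (hc : IsRC κ c) {z0 : ℂ} (hz0 : z0 ∈ c.U) : ∃ c' : PC Y, IsPC κ c' ∧
    c.φ z0 ∈ c'.φ '' c'.U ∧ c'.φ '' c'.U ⊆ c.φ '' c.U ∧ Comp c c' := by
  obtain ⟨W, w, ψ, u, hWo, hz0W, hWU, hwo, hu, h⟩ := iso_data hc hz0
  have hWopen : IsOpen (w '' W) := hwo W Set.Subset.rfl hWo
  refine ⟨⟨w '' W, fun ζ => c.φ (ψ ζ), u⟩, ⟨hWopen, hu, ?_, ?_, ?_, ?_, ?_⟩, ?_, ?_, ?_⟩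
  · rintro _ ⟨a, ha, rfl⟩ _ ⟨b, hb, rfl⟩ hab
    have h1 : c.φ (ψ (w a)) = c.φ (ψ (w b)) := hab
    rw [(h a ha).2.2.1, (h b hb).2.2.1] at h1
    rw [hc.inj (hWU ha) (hWU hb) h1]
  · rintro _ ⟨a, ha, rfl⟩
    have h1 : ContinuousAt ψ (w a) := (h a ha).2.2.2.1.continuousAt
    have h2 : ContinuousAt c.φ (ψ (w a)) := by
      rw [(h a ha).2.2.1]
      exact hc.cont.continuousAt (hc.isOpen.mem_nhds (hWU ha))
    exact (ContinuousAt.comp (f := ψ) (g := c.φ) h2 h1).continuousWithinAt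
  · intro V hV hVo
    have hVW : V ⊆ w '' W := hV
    have hwc : ContinuousOn w W := fun a ha => (h a ha).1.continuousAt.continuousWithinAt
    have h1 : (fun ζ => c.φ (ψ ζ)) '' V = c.φ '' (W ∩ w ⁻¹' V) := by
      ext y
      constructor
      · rintro ⟨ζ, hζ, rfl⟩
        obtain ⟨a, ha, rfl⟩ := hVW hζ
        refine ⟨a, ⟨ha, hζ⟩, ?_⟩
        show c.φ a = c.φ (ψ (w a))
        rw [(h a ha).2.2.1]
      · rintro ⟨a, ⟨ha, hζ⟩, rfl⟩
        refine ⟨w a, hζ, ?_⟩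
        show c.φ (ψ (w a)) = c.φ a
        rw [(h a ha).2.2.1]
    show IsOpen ((fun ζ => c.φ (ψ ζ)) '' V)
    rw [h1]
    exact hc.opn _ (fun a ha => hWU ha.1) (hwc.isOpen_inter_preimage hWo hVo)
  · rintro _ ⟨a, ha, rfl⟩ ε hε
    exact iso_metric hc hWo hWU hwo h ha hε
  · rintro _ ⟨z, hz, rfl⟩
    have h1 := gaussK_pull (E := c.E) (F := c.F) (G := c.G) (u := u) (w := w) (z := z)
      ((h z hz).1.of_le (by norm_num))
      ((hu.contDiffAt (hWopen.mem_nhds ⟨z, hz, rfl⟩)).of_le (by norm_num)) (h z hz).2.1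
      (by
        filter_upwards [hWo.mem_nhds hz] with x hx v
        exact (h x hx).2.2.2.2 v)
    show |lap u (w z)| ≤ κ * Real.exp (2 * u (w z))
    rw [h1, abs_mul, abs_neg, abs_of_pos (Real.exp_pos _)]
    exact mul_le_mul_of_nonneg_right (hc.curv z (hWU hz)) (Real.exp_pos _).le
  · refine ⟨w z0, ⟨z0, hz0W, rfl⟩, ?_⟩
    show c.φ (ψ (w z0)) = c.φ z0
    rw [(h z0 hz0W).2.2.1]
  · rintro _ ⟨_, ⟨a, ha, rfl⟩, rfl⟩
    refine ⟨a, hWU ha, ?_⟩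
    show c.φ a = c.φ (ψ (w a))
    rw [(h a ha).2.2.1]
  · rintro z hz _ ⟨a, ha, rfl⟩ hza
    have h1 : c.φ z = c.φ (ψ (w a)) := hza
    rw [(h a ha).2.2.1] at h1
    have h2 : z = a := hc.inj hz (hWU ha) h1
    subst h2
    refine ⟨w, rfl, (h z ha).1.of_le (by norm_num), (h z ha).2.1, ?_⟩
    filter_upwards [hWo.mem_nhds ha] with x hx
    refine ⟨⟨x, hx, rfl⟩, ?_⟩
    show c.φ (ψ (w x)) = c.φ x
    rw [(h x hx).2.2.1]

end C1c

end F10R
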