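import Pool.Agent.Lib.MP_f10cd3_gt.S.Defs

/-!
# Surfaces with a Riemannian metric in arbitrary smooth charts: definitions
-/

set_option autoImplicit false

namespace F10R

open MPf10cd3 F10G F10S
open scoped ContDiff

/-- `∂f/∂x` -/
noncomputable def dx {W : Type} [NormedAddCommGroup W] [NormedSpace ℝ W] (f : ℂ → W) (z : ℂ) : W :=
  fderiv ℝ f z 1

/-- `∂f/∂y` -/
noncomputable def dy {W : Type} [NormedAddCommGroup W] [NormedSpace ℝ W] (f : ℂ → W) (z : ℂ) : W :=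
  fderiv ℝ f z Complex.I

/-- Gauss curvature of the metric `E dx² + 2 F dx dy + G dy²` (formula of Brioschi) -/
noncomputable def gaussK (E F G : ℂ → ℝ) (z : ℂ) : ℝ :=
  (Matrix.det !![-dy (dy E) z / 2 + dy (dx F) z - dx (dx G) z / 2, dx E z / 2, dx F z - dy E z / 2;
      dy F z - dx G z / 2, E z, F z; dy G z / 2, F z, G z] -
    Matrix.det !![0, dy E z / 2, dx G z / 2; dy E z / 2, E z, F z; dx G z / 2, F z, G z]) /
    (E z * G z - F z ^ 2) ^ 2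

/-- a parametrised smooth chart: a domain `U`, a map `φ` and the coefficients of the metric -/
structure RC (Y : Type) where
  U : Set ℂ
  φ : ℂ → Y
  E : ℂ → ℝ
  F : ℂ → ℝ
  G : ℂ → ℝ

/-- the quadratic form of the metric at `z` -/
def qf (E F G : ℂ → ℝ) (z v : ℂ) : ℝ := E z * v.re ^ 2 + 2 * F z * v.re * v.im + G z * v.im ^ 2

structure IsRC (κ : ℝ) {Y : Type} [MetricSpace Y] (c : RC Y) : Prop where
  isOpen : IsOpen c.U
  smoothE : ContDiffOn ℝ ∞ c.E c.U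
  smoothF : ContDiffOn ℝ ∞ c.F c.U
  smoothG : ContDiffOn ℝ ∞ c.G c.U
  posE : ∀ z ∈ c.U, 0 < c.E z
  pos : ∀ z ∈ c.U, 0 < c.E z * c.G z - c.F z ^ 2
  inj : Set.InjOn c.φ c.U
  cont : ContinuousOn c.φ c.U
  opn : ∀ W : Set ℂ, W ⊆ c.U → IsOpen W → IsOpen (c.φ '' W)
  metric : ∀ z0 ∈ c.U, ∀ ε : ℝ, 0 < ε → ∃ η : ℝ, 0 < η ∧ ∀ z ∈ c.U, ∀ w ∈ c.U,
    ‖z - z0‖ < η → ‖w - z0‖ < η →
      |dist (c.φ z) (c.φ w) - √(qf c.E c.F c.G z0 (z - w))| ≤ ε * ‖z - w‖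
  curv : ∀ z ∈ c.U, |gaussK c.E c.F c.G z| ≤ κ

/-- the Jacobian determinant -/
noncomputable def jac (f : ℂ → ℂ) (z : ℂ) : ℝ :=
  ((starRingEnd ℂ) (fderiv ℝ f z 1) * fderiv ℝ f z Complex.I).im

/-- an oriented smooth atlas -/
structure IsRAtlas (κ : ℝ) {Y : Type} [MetricSpace Y] (A : Set (RC Y)) : Prop where
  rc : ∀ c ∈ A, IsRC κ c
  compat : ∀ c ∈ A, ∀ c' ∈ A, ∀ z ∈ c.U, ∀ z' ∈ c'.U, c.φ z = c'.φ z' → ∃ T : ℂ → ℂ, T z = z' ∧
    ContDiffAt ℝ ∞ T z ∧ 0 < jac T z ∧ ∀ᶠ w in nhds z, T w ∈ c'.U ∧ c'.φ (T w) = c.φ w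
  cover : ∀ y : Y, ∃ c ∈ A, ∃ z ∈ c.U, c.φ z = y

/-- the triangulation is smooth and positively oriented -/
structure RTri {V : Type} [Fintype V] [DecidableEq V] {D : Finset (V × V × V)} {M : Type}
    [MetricSpace M] {μ : ℝ} (A : Set (RC M)) (τ : Triang D M μ) (ch : V × V × V → RC M)
    (s : V × V × V → ℂ → ℂ) : Prop where
  hch : ∀ t ∈ D, ch t ∈ A
  smooth : ∀ t ∈ D, ContDiff ℝ ∞ (s t)
  mem : ∀ t ∈ D, ∀ z ∈ stdT, s t z ∈ (ch t).U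
  lam : ∀ t ∈ D, ∀ z ∈ stdT, ∀ v, τ.lam ((ch t).φ (s t z)) v =
    (if v = t.1 then 1 - z.re - z.im else 0) + (if v = t.2.1 then z.re else 0) +
      (if v = t.2.2 then z.im else 0)
  orient : ∀ t ∈ D, ∀ z ∈ stdT, 0 < jac (s t) z

/-- `M` has smooth triangulations of arbitrarily small mesh by surfaces of genus `g` -/
def HasRTri (g : ℕ) {M : Type} [MetricSpace M] (A : Set (RC M)) : Prop :=
  ∀ μ : ℝ, 0 < μ → ∃ (V : Type) (_ : Fintype V) (_ : DecidableEq V) (D : Finset (V × V × V))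
    (τ : Triang D M μ) (ch : V × V × V → RC M) (s : V × V × V → ℂ → ℂ), IsCS D g ∧ RTri A τ ch s

end F10R
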