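import Pool.Agent.Lib.MP_f10cd3_gt.R.Wdef

/-! Row W1: the fixed point. -/

set_option autoImplicit false

namespace F10R

section W1

private theorem W1_wt_one (n : ℤ × ℤ) : 1 ≤ wt n := by
  unfold wt
  have h1 := abs_nonneg (n.1 : ℝ)
  have h2 := abs_nonneg (n.2 : ℝ)
  linarith

private theorem W1_wt_mul (n k : ℤ × ℤ) : wt n ≤ wt (n - k) * wt k := by
  unfold wt
  have e1 : |(n.1 : ℝ)| ≤ |((n - k).1 : ℝ)| + |(k.1 : ℝ)| := by
    have : (n.1 : ℝ) = ((n - k).1 : ℝ) + (k.1 : ℝ) := by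
      simp
    rw [this]
    exact abs_add_le _ _
  have e2 : |(n.2 : ℝ)| ≤ |((n - k).2 : ℝ)| + |(k.2 : ℝ)| := by
    have : (n.2 : ℝ) = ((n - k).2 : ℝ) + (k.2 : ℝ) := by
      simp
    rw [this]
    exact abs_add_le _ _
  have a1 := abs_nonneg ((n - k).1 : ℝ)
  have a2 := abs_nonneg ((n - k).2 : ℝ)
  have b1 := abs_nonneg (k.1 : ℝ)
  have b2 := abs_nonneg (k.2 : ℝ)
  have h : 0 ≤ (|((n - k).1 : ℝ)| + |((n - k).2 : ℝ)|) * (|(k.1 : ℝ)| + |(k.2 : ℝ)|) := by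
    positivity
  nlinarith

private theorem W1_sg (n : ℤ × ℤ) : ‖sg n‖ ≤ 1 := by
  unfold sg
  split_ifs with h
  · simp
  · have e : ((n.1 : ℂ) - n.2 * Complex.I) = (starRingEnd ℂ) ((n.1 : ℂ) + n.2 * Complex.I) := by
      simp [sub_eq_add_neg]
    rw [norm_div, e, Complex.norm_conj]
    exact div_self_le_one _

private theorem W1_conv {f g : ℤ × ℤ → ℝ} (hf : Summable f) (hg : Summable g)
    (f0 : ∀ n, 0 ≤ f n) (g0 : ∀ n, 0 ≤ g n) :
    (∀ n, Summable fun k => f (n - k) * g k) ∧ (Summable fun n => ∑' k, f (n - k) * g k) ∧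
      ∑' n, ∑' k, f (n - k) * g k = (∑' n, f n) * ∑' n, g n := by
  have h1 : Summable fun p : (ℤ × ℤ) × (ℤ × ℤ) => f p.1 * g p.2 :=
    hf.mul_of_nonneg hg f0 g0
  let e : (ℤ × ℤ) × (ℤ × ℤ) ≃ (ℤ × ℤ) × (ℤ × ℤ) :=
    { toFun := fun p => (p.1 - p.2, p.2)
      invFun := fun p => (p.1 + p.2, p.2)
      left_inv := fun p => by simp
      right_inv := fun p => by simp }
  have h2 : Summable fun p : (ℤ × ℤ) × (ℤ × ℤ) => f (p.1 - p.2) * g p.2 :=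
    (e.summable_iff (f := fun p : (ℤ × ℤ) × (ℤ × ℤ) => f p.1 * g p.2)).2 h1
  have h3 : ∑' p : (ℤ × ℤ) × (ℤ × ℤ), f (p.1 - p.2) * g p.2 =
      ∑' p : (ℤ × ℤ) × (ℤ × ℤ), f p.1 * g p.2 :=
    e.tsum_eq (fun p : (ℤ × ℤ) × (ℤ × ℤ) => f p.1 * g p.2)
  refine ⟨fun n => h2.prod_factor n, h2.prod, ?_⟩
  rw [← h2.tsum_prod, h3]
  exact (hf.tsum_mul_tsum hg h1).symm

/-- the linear part, acting on weighted coefficients -/
private noncomputable def W1_T (s : ℕ) (c : ℤ × ℤ → ℂ) (m : ℂ) (b : ℤ × ℤ → ℂ) (n : ℤ × ℤ) : ℂ :=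
  (wt n ^ s : ℝ) * (m * (sg n * (b n / (wt n ^ s : ℝ))) +
    ∑' k, c (n - k) * (sg k * (b k / (wt k ^ s : ℝ))))

private theorem W1_term (s : ℕ) (c b : ℤ × ℤ → ℂ) (n k : ℤ × ℤ) :
    ‖((wt n ^ s : ℝ) : ℂ) * (c (n - k) * (sg k * (b k / (wt k ^ s : ℝ))))‖ ≤
      (wt (n - k) ^ s * ‖c (n - k)‖) * ‖b k‖ := by
  have hk : 0 < wt k ^ s := pow_pos (lt_of_lt_of_le one_pos (W1_wt_one k)) s
  have hn : 0 < wt n ^ s := pow_pos (lt_of_lt_of_le one_pos (W1_wt_one n)) s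
  have h1 : wt n ^ s ≤ wt (n - k) ^ s * wt k ^ s := by
    rw [← mul_pow]
    exact pow_le_pow_left₀ (le_trans zero_le_one (W1_wt_one n)) (W1_wt_mul n k) s
  rw [norm_mul, norm_mul, norm_mul, norm_div, Complex.norm_real, Complex.norm_real,
    Real.norm_of_nonneg hn.le, Real.norm_of_nonneg hk.le]
  have h2 : ‖sg k‖ * (‖b k‖ / wt k ^ s) ≤ ‖b k‖ / wt k ^ s := by
    have := mul_le_mul_of_nonneg_right (W1_sg k) (div_nonneg (norm_nonneg (b k)) hk.le)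
    simpa using this
  calc wt n ^ s * (‖c (n - k)‖ * (‖sg k‖ * (‖b k‖ / wt k ^ s)))
      ≤ (wt (n - k) ^ s * wt k ^ s) * (‖c (n - k)‖ * (‖b k‖ / wt k ^ s)) := by
        apply mul_le_mul h1 _ (by positivity) (le_trans hn.le h1)
        exact mul_le_mul_of_nonneg_left h2 (norm_nonneg _)
    _ = (wt (n - k) ^ s * ‖c (n - k)‖) * ‖b k‖ := by
        field_simp

private theorem W1_conv_summable (s : ℕ) {c b : ℤ × ℤ → ℂ}
    (hc : Summable fun n => wt n ^ s * ‖c n‖) (hb : Summable fun n => ‖b n‖) (n : ℤ × ℤ) :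
    Summable fun k => c (n - k) * (sg k * (b k / (wt k ^ s : ℝ))) := by
  have hn : 0 < wt n ^ s := pow_pos (lt_of_lt_of_le one_pos (W1_wt_one n)) s
  have h0 : ∀ n, 0 ≤ wt n ^ s * ‖c n‖ := fun n =>
    mul_nonneg (pow_nonneg (le_trans zero_le_one (W1_wt_one n)) s) (norm_nonneg _)
  have h := (W1_conv hc hb h0 (fun n => norm_nonneg _)).1 n
  have h2 : Summable fun k => ((wt n ^ s : ℝ) : ℂ) *
      (c (n - k) * (sg k * (b k / (wt k ^ s : ℝ)))) :=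
    Summable.of_norm_bounded h (fun k => W1_term s c b n k)
  exact (summable_mul_left_iff (by exact_mod_cast hn.ne')).1 h2

private theorem W1_bound (s : ℕ) {c b : ℤ × ℤ → ℂ} (m : ℂ)
    (hc : Summable fun n => wt n ^ s * ‖c n‖) (hb : Summable fun n => ‖b n‖) :
    (Summable fun n => ‖W1_T s c m b n‖) ∧
      ∑' n, ‖W1_T s c m b n‖ ≤ (‖m‖ + ∑' n, wt n ^ s * ‖c n‖) * ∑' n, ‖b n‖ := by
  have h0 : ∀ n, 0 ≤ wt n ^ s * ‖c n‖ := fun n =>
    mul_nonneg (pow_nonneg (le_trans zero_le_one (W1_wt_one n)) s) (norm_nonneg _)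
  obtain ⟨c1, c2, c3⟩ := W1_conv hc hb h0 (fun n => norm_nonneg _)
  have hpt : ∀ n, ‖W1_T s c m b n‖ ≤ ‖m‖ * ‖b n‖ +
      ∑' k, (wt (n - k) ^ s * ‖c (n - k)‖) * ‖b k‖ := by
    intro n
    have hn : 0 < wt n ^ s := pow_pos (lt_of_lt_of_le one_pos (W1_wt_one n)) s
    have e : W1_T s c m b n = m * (sg n * b n) +
        ∑' k, ((wt n ^ s : ℝ) : ℂ) * (c (n - k) * (sg k * (b k / (wt k ^ s : ℝ)))) := by
      rw [tsum_mul_left]
      unfold W1_T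
      have hne : ((wt n ^ s : ℝ) : ℂ) ≠ 0 := by exact_mod_cast hn.ne'
      field_simp
    rw [e]
    refine (norm_add_le _ _).trans (add_le_add ?_ ?_)
    · rw [norm_mul, norm_mul]
      have := mul_le_mul_of_nonneg_right (W1_sg n) (norm_nonneg (b n))
      exact mul_le_mul_of_nonneg_left (by simpa using this) (norm_nonneg m)
    · exact tsum_of_norm_bounded (c1 n).hasSum (fun k => W1_term s c b n k)
  have hs : Summable fun n => ‖m‖ * ‖b n‖ + ∑' k, (wt (n - k) ^ s * ‖c (n - k)‖) * ‖b k‖ :=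
    (hb.mul_left _).add c2
  have h1 : Summable fun n => ‖W1_T s c m b n‖ :=
    Summable.of_nonneg_of_le (fun n => norm_nonneg _) hpt hs
  refine ⟨h1, (h1.tsum_le_tsum hpt hs).trans (le_of_eq ?_)⟩
  rw [(hb.mul_left _).tsum_add c2, tsum_mul_left, c3]
  ring

private theorem W1_sub (s : ℕ) {c b b' : ℤ × ℤ → ℂ} (m : ℂ)
    (hc : Summable fun n => wt n ^ s * ‖c n‖) (hb : Summable fun n => ‖b n‖)
    (hb' : Summable fun n => ‖b' n‖) (n : ℤ × ℤ) :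
    W1_T s c m b n - W1_T s c m b' n = W1_T s c m (fun n => b n - b' n) n := by
  unfold W1_T
  have h := (W1_conv_summable s hc hb n).tsum_sub (W1_conv_summable s hc hb' n)
  have e : ∀ k, c (n - k) * (sg k * ((b k - b' k) / (wt k ^ s : ℝ))) =
      c (n - k) * (sg k * (b k / (wt k ^ s : ℝ))) - c (n - k) * (sg k * (b' k / (wt k ^ s : ℝ))) := by
    intro k
    rw [sub_div]
    ring
  rw [tsum_congr e, h]
  ring

private theorem W1_norm (f : lp (fun _ : ℤ × ℤ => ℂ) 1) : ‖f‖ = ∑' n, ‖f n‖ := by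
  rw [lp.norm_eq_tsum_rpow (by simp)]
  simp

private theorem W1_mem (f : ℤ × ℤ → ℂ) (hf : Summable fun n => ‖f n‖) :
    Memℓp (E := fun _ : ℤ × ℤ => ℂ) f 1 := by
  apply memℓp_gen
  simpa using hf

private theorem W1_summ (f : lp (fun _ : ℤ × ℤ => ℂ) 1) : Summable fun n => ‖f n‖ := by
  have := (lp.memℓp f).summable (by simp)
  simpa using this

/-- Row W1. Weighted `ℓ¹` is a Banach algebra under convolution (`wt n ≤ wt (n - k) * wt k`),
`‖sg n‖ ≤ 1`: `a ↦ c + m sg a + c * (sg a)` is a contraction with constant `‖m‖ + δ`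
(Neumann series), and `‖a‖ ≤ δ / (1 - ‖m‖ - δ) < 1`. -/
theorem wien_fix (s : ℕ) {c : ℤ × ℤ → ℂ} {m : ℂ} {δ : ℝ}
    (hc : Summable fun n => wt n ^ s * ‖c n‖) (hδ : ∑' n, wt n ^ s * ‖c n‖ ≤ δ)
    (h : ‖m‖ + 2 * δ < 1) : ∃ a : ℤ × ℤ → ℂ, (Summable fun n => wt n ^ s * ‖a n‖) ∧
      ∑' n, ‖a n‖ < 1 ∧
        ∀ n, a n = c n + m * (sg n * a n) + ∑' k, c (n - k) * (sg k * a k) := by
  have hw : ∀ n, 0 < wt n ^ s := fun n => pow_pos (lt_of_lt_of_le one_pos (W1_wt_one n)) s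
  have h0 : ∀ n, 0 ≤ wt n ^ s * ‖c n‖ := fun n => mul_nonneg (hw n).le (norm_nonneg _)
  have hδ0 : 0 ≤ δ := le_trans (tsum_nonneg h0) hδ
  have hwc : Summable fun n => ‖((wt n ^ s : ℝ) : ℂ) * c n‖ := by
    refine hc.congr fun n => ?_
    rw [norm_mul, Complex.norm_real, Real.norm_of_nonneg (hw n).le]
  have hwc' : ∑' n, ‖((wt n ^ s : ℝ) : ℂ) * c n‖ ≤ δ := by
    refine le_trans (le_of_eq (tsum_congr fun n => ?_)) hδ
    rw [norm_mul, Complex.norm_real, Real.norm_of_nonneg (hw n).le]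
  have hsum : ∀ b : lp (fun _ : ℤ × ℤ => ℂ) 1,
      Summable fun n => ‖((wt n ^ s : ℝ) : ℂ) * c n + W1_T s c m b n‖ := fun b =>
    Summable.of_nonneg_of_le (fun n => norm_nonneg _) (fun n => norm_add_le _ _)
      (hwc.add (W1_bound s m hc (W1_summ b)).1)
  let Φ : lp (fun _ : ℤ × ℤ => ℂ) 1 → lp (fun _ : ℤ × ℤ => ℂ) 1 := fun b =>
    ⟨fun n => ((wt n ^ s : ℝ) : ℂ) * c n + W1_T s c m b n, W1_mem _ (hsum b)⟩
  have hK : ‖m‖ + δ < 1 := by linarith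
  have hK0 : 0 ≤ ‖m‖ + δ := by positivity
  have hlip : LipschitzWith ⟨‖m‖ + δ, hK0⟩ Φ := by
    apply LipschitzWith.of_dist_le_mul
    intro b b'
    rw [dist_eq_norm, dist_eq_norm, W1_norm, W1_norm]
    have e : ∀ n, ‖(Φ b - Φ b') n‖ = ‖W1_T s c m (fun n => b n - b' n) n‖ := by
      intro n
      rw [← W1_sub s m hc (W1_summ b) (W1_summ b') n]
      congr 1
      change (((wt n ^ s : ℝ) : ℂ) * c n + W1_T s c m b n) -
        (((wt n ^ s : ℝ) : ℂ) * c n + W1_T s c m b' n) = _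
      ring
    rw [tsum_congr e]
    have hbb : Summable fun n => ‖b n - b' n‖ := W1_summ (b - b')
    refine (W1_bound s m hc hbb).2.trans ?_
    refine mul_le_mul_of_nonneg_right ?_ (tsum_nonneg fun n => norm_nonneg _)
    change ‖m‖ + ∑' n, wt n ^ s * ‖c n‖ ≤ ‖m‖ + δ
    linarith
  have hcon : ContractingWith ⟨‖m‖ + δ, hK0⟩ Φ := ⟨hK, hlip⟩
  have hfix : Φ (ContractingWith.fixedPoint Φ hcon) = ContractingWith.fixedPoint Φ hcon :=
    hcon.fixedPoint_isFixedPt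
  generalize ContractingWith.fixedPoint Φ hcon = b at hfix
  have hbn : ∀ n, b n = ((wt n ^ s : ℝ) : ℂ) * c n + W1_T s c m b n := by
    intro n
    have := congrArg (fun f : lp (fun _ : ℤ × ℤ => ℂ) 1 => f n) hfix
    exact this.symm
  have hbs := W1_summ b
  have hwa : ∀ n, wt n ^ s * ‖b n / ((wt n ^ s : ℝ) : ℂ)‖ = ‖b n‖ := by
    intro n
    rw [norm_div, Complex.norm_real, Real.norm_of_nonneg (hw n).le]
    field_simp [(hw n).ne']
  have hB : ∑' n, ‖b n‖ ≤ δ + (‖m‖ + δ) * ∑' n, ‖b n‖ := by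
    have h1 : ∑' n, ‖b n‖ ≤ ∑' n, (‖((wt n ^ s : ℝ) : ℂ) * c n‖ + ‖W1_T s c m b n‖) := by
      refine hbs.tsum_le_tsum (fun n => ?_) (hwc.add (W1_bound s m hc hbs).1)
      rw [hbn n]
      exact norm_add_le _ _
    rw [hwc.tsum_add (W1_bound s m hc hbs).1] at h1
    have h2 := (W1_bound s m hc hbs).2
    have h3 : (‖m‖ + ∑' n, wt n ^ s * ‖c n‖) * ∑' n, ‖b n‖ ≤ (‖m‖ + δ) * ∑' n, ‖b n‖ :=
      mul_le_mul_of_nonneg_right (by linarith) (tsum_nonneg fun n => norm_nonneg _)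
    linarith
  have hB1 : ∑' n, ‖b n‖ < 1 := by
    by_contra hcon'
    push Not at hcon'
    have : (1 - (‖m‖ + δ)) * ∑' n, ‖b n‖ ≤ δ := by linarith
    have h5 : (1 - (‖m‖ + δ)) * 1 ≤ (1 - (‖m‖ + δ)) * ∑' n, ‖b n‖ :=
      mul_le_mul_of_nonneg_left hcon' (by linarith)
    linarith
  refine ⟨fun n => b n / ((wt n ^ s : ℝ) : ℂ), ?_, ?_, ?_⟩
  · exact hbs.congr fun n => (hwa n).symm
  · have hle : ∀ n, ‖b n / ((wt n ^ s : ℝ) : ℂ)‖ ≤ ‖b n‖ := by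
      intro n
      rw [norm_div, Complex.norm_real, Real.norm_of_nonneg (hw n).le]
      exact div_le_self (norm_nonneg _) (one_le_pow₀ (W1_wt_one n))
    have hs' : Summable fun n => ‖b n / ((wt n ^ s : ℝ) : ℂ)‖ :=
      Summable.of_nonneg_of_le (fun n => norm_nonneg _) hle hbs
    exact lt_of_le_of_lt (hs'.tsum_le_tsum hle hbs) hB1
  · intro n
    have hne : ((wt n ^ s : ℝ) : ℂ) ≠ 0 := by exact_mod_cast (hw n).ne'
    change b n / ((wt n ^ s : ℝ) : ℂ) = _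
    rw [div_eq_iff hne]
    rw [hbn n]
    conv_lhs => unfold W1_T
    beta_reduce
    ring

end W1

end F10R
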