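import Pool.Agent.Lib.MP_f10cd3_gt.R.Defs

/-!
# Fourier series with weighted absolutely summable coefficients: definitions
-/

set_option autoImplicit false

namespace F10R

open scoped ContDiff

/-- weight of the frequency `n` -/
noncomputable def wt (n : ℤ × ℤ) : ℝ := 1 + |(n.1 : ℝ)| + |(n.2 : ℝ)|

/-- the multiplier of the Beurling transform -/
noncomputable def sg (n : ℤ × ℤ) : ℂ :=
  if n = 0 then 0 else ((n.1 : ℂ) - n.2 * Complex.I) / ((n.1 : ℂ) + n.2 * Complex.I)

/-- `e^{2πi(n₁x + n₂y)}` -/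
noncomputable def ex (n : ℤ × ℤ) (z : ℂ) : ℂ :=
  Complex.exp (2 * Real.pi * Complex.I * (n.1 * z.re + n.2 * z.im))

/-- Fourier series -/
noncomputable def FS (a : ℤ × ℤ → ℂ) (z : ℂ) : ℂ := ∑' n, a n * ex n z

/-- a function whose derivative is `FS (sg a) dz + FS a dz̄` -/
noncomputable def prim (a : ℤ × ℤ → ℂ) (z : ℂ) : ℂ :=
  a 0 * (starRingEnd ℂ) z + FS (fun n => if n = 0 then 0 else
    a n / (Real.pi * Complex.I * ((n.1 : ℂ) + n.2 * Complex.I))) z

end F10R
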